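import Pool.Agent.Q274.LB.Grp

/-!
Elements, commutators, roots and density in the group `GG α β`.
-/

namespace Pool.Agent.Q274.LB

noncomputable section

variable {α β : ℚ_[2]}

theorem coe_two : ((2 : ℤ_[2]) : ℚ_[2]) = 2 := PadicInt.coe_natCast 2

theorem two_ne : (2 : ℤ_[2]) ≠ 0 := by
  have : ((2 : ℕ) : ℤ_[2]) ≠ 0 := by
    have := PadicInt.prime_p (p := 2)
    exact this.ne_zero
  exact_mod_cast this

theorem not_two_dvd_one : ¬ (2 : ℤ_[2]) ∣ 1 := by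
  intro h
  have := PadicInt.prime_p (p := 2)
  exact this.not_isUnit (isUnit_of_dvd_one (by exact_mod_cast h))

/-- infinitely 2-divisible 2-adic integers vanish -/
theorem zero_of_dvd {x : ℤ_[2]} (h : ∀ n : ℕ, (2 : ℤ_[2]) ^ n ∣ x) : x = 0 := by
  by_contra hx
  have h2 := h (x.valuation + 1)
  have h3 : ‖x‖ ≤ (2 : ℝ) ^ (-((x.valuation + 1 : ℕ) : ℤ)) := by
    have := (PadicInt.norm_le_pow_iff_mem_span_pow x (x.valuation + 1)).mpr
      (Ideal.mem_span_singleton.mpr (by exact_mod_cast h2))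
    exact_mod_cast this
  rw [PadicInt.norm_eq_zpow_neg_valuation hx] at h3
  have h4 := (zpow_le_zpow_iff_right₀ (one_lt_two (α := ℝ))).mp (by exact_mod_cast h3)
  omega

/-- integer approximation -/
theorem approx (x : ℤ_[2]) (n : ℕ) : ∃ m : ℤ, (2 : ℤ_[2]) ^ n ∣ x - m := by
  refine ⟨(x.appr n : ℤ), ?_⟩
  have := PadicInt.appr_spec n x
  rw [Ideal.mem_span_singleton] at this
  exact_mod_cast this

theorem mem_GG {g : E3} : g ∈ GG α β ↔ inJ α β g.x g.y ∧ inM α β g.n ∧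
    ∃ m : ℤ_[2], g.n = g.x * g.y + 2 * m := Iff.rfl

/-- generator (1,0,0) -/
def g0 : GG α β := ⟨⟨1, 0, 0⟩, ⟨1, 0, 0, by simp, by simp⟩, ⟨0, 0, 0, by simp⟩, ⟨0, by simp⟩⟩

/-- generator (0,1,0) -/
def h0 : GG α β := ⟨⟨0, 1, 0⟩, ⟨0, 1, 0, by simp, by simp⟩, ⟨0, 0, 0, by simp⟩, ⟨0, by simp⟩⟩

/-- central element (0,0,2μ) -/
def cc (μ : ℤ_[2]) (h : inM α β μ) : GG α β :=
  ⟨⟨0, 0, 2 * μ⟩, ⟨0, 0, 0, by simp, by simp⟩, by
    obtain ⟨d, e, f, hd⟩ := h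
    refine ⟨2 * d, 2 * e, 2 * f, ?_⟩
    show ((2 * μ : ℤ_[2]) : ℚ_[2]) = _
    rw [PadicInt.coe_mul, coe_two, hd]
    push_cast
    ring, ⟨μ, by simp⟩⟩

theorem inM_int (m : ℤ) : inM α β ((m : ℤ_[2]) : ℚ_[2]) := ⟨m, 0, 0, by push_cast; ring⟩

theorem inM_one : inM α β ((1 : ℤ_[2]) : ℚ_[2]) := ⟨1, 0, 0, by push_cast; ring⟩

/-- the central element (0,0,2) -/
def z0 : GG α β := cc 1 inM_one

theorem inM_det {g h : E3} (hg : inJ α β g.x g.y) (hh : inJ α β h.x h.y) :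
    inM α β ((g.x * h.y - h.x * g.y : ℤ_[2]) : ℚ_[2]) := by
  obtain ⟨a, b, c, h1, h2⟩ := hg
  obtain ⟨a', b', c', h1', h2'⟩ := hh
  refine ⟨a * b' - a' * b, c * b' - c' * b, a * c' - a' * c, ?_⟩
  push_cast
  rw [h1, h2, h1', h2']; ring

/-- the commutator -/
def cm (g h : GG α β) : GG α β :=
  cc ((g : E3).x * (h : E3).y - (h : E3).x * (g : E3).y) (inM_det g.2.1 h.2.1)

theorem cm_spec (g h : GG α β) : g * h = cm g h * (h * g) := by
  apply Subtype.ext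
  ext
  · show (g : E3).x + (h : E3).x = 0 + ((h : E3).x + (g : E3).x); ring
  · show (g : E3).y + (h : E3).y = 0 + ((h : E3).y + (g : E3).y); ring
  · show (g : E3).n + (h : E3).n + ((g : E3).x * (h : E3).y - (h : E3).x * (g : E3).y) =
      2 * ((g : E3).x * (h : E3).y - (h : E3).x * (g : E3).y) +
      ((h : E3).n + (g : E3).n + ((h : E3).x * (g : E3).y - (g : E3).x * (h : E3).y)) +
      (0 * ((h : E3).y + (g : E3).y) - ((h : E3).x + (g : E3).x) * 0)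
    ring

theorem cen_comm (c g : GG α β) (hx : (c : E3).x = 0) (hy : (c : E3).y = 0) : c * g = g * c := by
  apply Subtype.ext
  ext
  · show (c : E3).x + (g : E3).x = (g : E3).x + (c : E3).x; ring
  · show (c : E3).y + (g : E3).y = (g : E3).y + (c : E3).y; ring
  · show (c : E3).n + (g : E3).n + ((c : E3).x * (g : E3).y - (g : E3).x * (c : E3).y) =
      (g : E3).n + (c : E3).n + ((g : E3).x * (c : E3).y - (c : E3).x * (g : E3).y)
    rw [hx, hy]; ring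

theorem cc_comm (μ : ℤ_[2]) (h : inM α β μ) (g : GG α β) : cc μ h * g = g * cc μ h :=
  cen_comm _ _ rfl rfl

theorem eq_cc (c : GG α β) (hx : (c : E3).x = 0) (hy : (c : E3).y = 0) :
    ∃ (μ : ℤ_[2]) (h : inM α β μ), c = cc μ h := by
  obtain ⟨m, hm⟩ := c.2.2.2
  obtain ⟨d, e, f, hd⟩ := c.2.2.1
  rw [hx, hy, mul_zero, zero_add] at hm
  have h2 : ((2 : ℤ_[2]) : ℚ_[2]) ≠ 0 := by
    intro h
    exact two_ne (PadicInt.ext h)
  refine ⟨m, ⟨d / 2, e / 2, f / 2, ?_⟩, ?_⟩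
  · rw [hm, PadicInt.coe_mul, coe_two] at hd
    rw [coe_two] at h2
    push_cast
    have : (2 : ℚ_[2]) * m = 2 * (d / 2 + e / 2 * α + f / 2 * β) := by
      rw [hd]; ring
    exact mul_left_cancel₀ h2 this
  · apply Subtype.ext
    ext
    · exact hx
    · exact hy
    · exact hm

theorem cm_g0_h0 : cm (g0 : GG α β) h0 = z0 := by
  apply Subtype.ext
  ext
  · rfl
  · rfl
  · show 2 * ((1 : ℤ_[2]) * 1 - 0 * 0) = 2 * 1
    ring

theorem torsion_free (g : GG α β) (m : ℤ) (hm : m ≠ 0) (h : g ^ m = 1) : g = 1 := by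
  have h1 : (g : E3) ^ m = 1 := by
    have := congrArg (fun x : GG α β => (x : E3)) h
    simpa using this
  rw [E3.zpow_eq] at h1
  have hm' : (m : ℤ_[2]) ≠ 0 := by exact_mod_cast hm
  apply Subtype.ext
  ext
  · have := congrArg E3.x h1
    exact (mul_eq_zero.mp this).resolve_left hm'
  · have := congrArg E3.y h1
    exact (mul_eq_zero.mp this).resolve_left hm'
  · have := congrArg E3.n h1
    exact (mul_eq_zero.mp this).resolve_left hm'

theorem not_two_div (g : GG α β) (h : ∀ n : ℕ, ∃ k : GG α β, k ^ 2 ^ n = g) : g = 1 := by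
  have key : ∀ n : ℕ, (2 : ℤ_[2]) ^ n ∣ (g : E3).x ∧ (2 : ℤ_[2]) ^ n ∣ (g : E3).y ∧
      (2 : ℤ_[2]) ^ n ∣ (g : E3).n := by
    intro n
    obtain ⟨k, hk⟩ := h n
    have h1 : (g : E3) = (k : E3) ^ 2 ^ n := by
      have := congrArg (fun x : GG α β => (x : E3)) hk
      simpa using this.symm
    rw [h1, E3.pow_eq]
    push_cast
    exact ⟨dvd_mul_right _ _, dvd_mul_right _ _, dvd_mul_right _ _⟩
  apply Subtype.ext
  ext
  · exact zero_of_dvd fun n => (key n).1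
  · exact zero_of_dvd fun n => (key n).2.1
  · exact zero_of_dvd fun n => (key n).2.2

/-- small elements -/
def small (K : ℕ) (g : GG α β) : Prop :=
  (2 : ℤ_[2]) ^ K ∣ (g : E3).x ∧ (2 : ℤ_[2]) ^ K ∣ (g : E3).y ∧ (2 : ℤ_[2]) ^ K ∣ (g : E3).n

theorem small_mono {K L : ℕ} (h : K ≤ L) (g : GG α β) (hg : small L g) : small K g :=
  ⟨(pow_dvd_pow _ h).trans hg.1, (pow_dvd_pow _ h).trans hg.2.1, (pow_dvd_pow _ h).trans hg.2.2⟩

/-- small elements are powers -/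
theorem small_pow (K : ℕ) (g : GG α β) (hg : small (K + 1) g) :
    ∃ k : GG α β, k ^ 2 ^ K = g := by
  obtain ⟨⟨x, hx⟩, ⟨y, hy⟩, ⟨n, hn⟩⟩ := hg
  have h2K : ((2 : ℚ_[2]) ^ K) ≠ 0 := by
    apply pow_ne_zero
    intro h
    have h' : ((2 : ℤ_[2]) : ℚ_[2]) = 0 := by rw [coe_two]; exact h
    exact two_ne (PadicInt.ext h')
  refine ⟨⟨⟨2 * x, 2 * y, 2 * n⟩, ?_, ?_, ⟨n - 2 * x * y, ?_⟩⟩, ?_⟩
  · obtain ⟨a, b, c, h1, h2⟩ := g.2.1
    refine ⟨a / 2 ^ K, b / 2 ^ K, c / 2 ^ K, ?_, ?_⟩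
    · rw [hx, PadicInt.coe_mul, PadicInt.coe_pow, coe_two] at h1
      show ((2 * x : ℤ_[2]) : ℚ_[2]) = _
      rw [PadicInt.coe_mul, coe_two]
      push_cast
      apply mul_left_cancel₀ h2K
      calc (2 : ℚ_[2]) ^ K * (2 * x) = 2 ^ (K + 1) * x := by ring
        _ = a + c * α := h1
        _ = _ := by field_simp
    · rw [hy, PadicInt.coe_mul, PadicInt.coe_pow, coe_two] at h2
      show ((2 * y : ℤ_[2]) : ℚ_[2]) = _
      rw [PadicInt.coe_mul, coe_two]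
      push_cast
      apply mul_left_cancel₀ h2K
      calc (2 : ℚ_[2]) ^ K * (2 * y) = 2 ^ (K + 1) * y := by ring
        _ = b + c * β := h2
        _ = _ := by field_simp
  · obtain ⟨d, e, f, h1⟩ := g.2.2.1
    refine ⟨d / 2 ^ K, e / 2 ^ K, f / 2 ^ K, ?_⟩
    rw [hn, PadicInt.coe_mul, PadicInt.coe_pow, coe_two] at h1
    show ((2 * n : ℤ_[2]) : ℚ_[2]) = _
    rw [PadicInt.coe_mul, coe_two]
    push_cast
    apply mul_left_cancel₀ h2K
    calc (2 : ℚ_[2]) ^ K * (2 * n) = 2 ^ (K + 1) * n := by ring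
      _ = d + e * α + f * β := h1
      _ = _ := by field_simp
  · show 2 * n = 2 * x * (2 * y) + 2 * (n - 2 * x * y)
    ring
  · apply Subtype.ext
    show (⟨2 * x, 2 * y, 2 * n⟩ : E3) ^ 2 ^ K = g
    rw [E3.pow_eq]
    ext
    · show ((2 ^ K : ℕ) : ℤ_[2]) * (2 * x) = (g : E3).x
      rw [hx]; push_cast; ring
    · show ((2 ^ K : ℕ) : ℤ_[2]) * (2 * y) = (g : E3).y
      rw [hy]; push_cast; ring
    · show ((2 ^ K : ℕ) : ℤ_[2]) * (2 * n) = (g : E3).n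
      rw [hn]; push_cast; ring

/-- close elements differ by a small one -/
theorem close_small (K : ℕ) (g h : GG α β) (hx : (2 : ℤ_[2]) ^ K ∣ (h : E3).x - (g : E3).x)
    (hy : (2 : ℤ_[2]) ^ K ∣ (h : E3).y - (g : E3).y)
    (hn : (2 : ℤ_[2]) ^ K ∣ (h : E3).n - (g : E3).n) : small K (g⁻¹ * h) := by
  refine ⟨?_, ?_, ?_⟩
  · show (2 : ℤ_[2]) ^ K ∣ -(g : E3).x + (h : E3).x
    rwa [neg_add_eq_sub]
  · show (2 : ℤ_[2]) ^ K ∣ -(g : E3).y + (h : E3).y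
    rwa [neg_add_eq_sub]
  · show (2 : ℤ_[2]) ^ K ∣ -(g : E3).n + (h : E3).n +
      (-(g : E3).x * (h : E3).y - (h : E3).x * -(g : E3).y)
    have e : -(g : E3).n + (h : E3).n + (-(g : E3).x * (h : E3).y - (h : E3).x * -(g : E3).y) =
      ((h : E3).n - (g : E3).n) + (-(g : E3).x * ((h : E3).y - (g : E3).y) +
        ((h : E3).x - (g : E3).x) * (g : E3).y) := by ring
    rw [e]
    exact dvd_add hn (dvd_add (hy.mul_left _) (hx.mul_right _))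

theorem pow_coe (g : GG α β) (m : ℤ) : ((g ^ m : GG α β) : E3) =
    ⟨m * (g : E3).x, m * (g : E3).y, m * (g : E3).n⟩ := by
  have : ((g ^ m : GG α β) : E3) = (g : E3) ^ m := by simp
  rw [this, E3.zpow_eq]

/-- density -/
theorem dens (g : GG α β) (K : ℕ) : ∃ p q m : ℤ, (2 : ℤ_[2]) ^ K ∣ (g : E3).x - p ∧
    (2 : ℤ_[2]) ^ K ∣ (g : E3).y - q ∧
    small K ((g0 ^ p * h0 ^ q * z0 ^ m)⁻¹ * g) := by
  obtain ⟨μ, hμ⟩ := g.2.2.2
  obtain ⟨p, hp⟩ := approx (g : E3).x (K + 1)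
  obtain ⟨q, hq⟩ := approx (g : E3).y (K + 1)
  obtain ⟨m1, hm1⟩ := approx μ K
  have hp' := (pow_dvd_pow (2 : ℤ_[2]) (Nat.le_succ K)).trans hp
  have hq' := (pow_dvd_pow (2 : ℤ_[2]) (Nat.le_succ K)).trans hq
  refine ⟨p, q, m1, hp', hq', ?_⟩
  have e : ((g0 ^ p * h0 ^ q * z0 ^ m1 : GG α β) : E3) = ⟨p, q, p * q + m1 * 2⟩ := by
    show ((g0 ^ p : GG α β) : E3) * ((h0 ^ q : GG α β) : E3) * ((z0 ^ m1 : GG α β) : E3) = _
    rw [pow_coe, pow_coe, pow_coe]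
    ext
    · show (p : ℤ_[2]) * 1 + q * 0 + m1 * 0 = p; ring
    · show (p : ℤ_[2]) * 0 + q * 1 + m1 * 0 = q; ring
    · show ((p : ℤ_[2]) * 0 + q * 0 + (p * 1 * (q * 1) - q * 0 * (p * 0))) + m1 * (2 * 1) +
        ((p * 1 + q * 0) * (m1 * 0) - m1 * 0 * (p * 0 + q * 1)) = p * q + m1 * 2
      ring
  apply close_small
  · rw [e]; exact hp'
  · rw [e]; exact hq'
  · rw [e]
    show (2 : ℤ_[2]) ^ K ∣ (g : E3).n - (p * q + m1 * 2)
    rw [hμ]
    have e2 : (g : E3).x * (g : E3).y + 2 * μ - (p * q + m1 * 2) =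
      ((g : E3).x - p) * (g : E3).y + p * ((g : E3).y - q) + 2 * (μ - m1) := by ring
    rw [e2]
    exact dvd_add (dvd_add (hp'.mul_right _) (hq'.mul_left _)) (hm1.mul_left _)

/-- density in the centre -/
theorem dens_cc (μ : ℤ_[2]) (h : inM α β μ) (K : ℕ) : ∃ m : ℤ, (2 : ℤ_[2]) ^ K ∣ μ - m ∧
    small K ((z0 ^ m)⁻¹ * cc μ h) := by
  obtain ⟨m, hm⟩ := approx μ K
  refine ⟨m, hm, ?_⟩
  apply close_small
  · rw [pow_coe]
    show (2 : ℤ_[2]) ^ K ∣ 0 - m * 0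
    simp
  · rw [pow_coe]
    show (2 : ℤ_[2]) ^ K ∣ 0 - m * 0
    simp
  · rw [pow_coe]
    show (2 : ℤ_[2]) ^ K ∣ 2 * μ - m * (2 * 1)
    have : 2 * μ - m * (2 * 1) = 2 * (μ - m) := by ring
    rw [this]
    exact hm.mul_left _

end

end Pool.Agent.Q274.LB
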