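import Pool.Agent.Q274.LB.LemB
import Pool.Agent.Q274.LB.Grp2

/-!
Bijective cocycles on `GG α β`: the additive group is torsion-free and 2-adically separated.
-/

namespace Pool.Agent.Q274.LB

open Polynomial

noncomputable section

variable {α β : ℚ_[2]} {A : Type*} [AddCommGroup A]

/-- additive representations over the prime field are linear -/
def toZ (p : ℕ) {T Γ : Type*} [AddCommGroup T] [Module (ZMod p) T] [Group Γ]
    (f : Γ → (T →+ T)) (h1 : ∀ t, f 1 t = t) (h2 : ∀ a b t, f (a * b) t = f a (f b t)) :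
    Γ →* Module.End (ZMod p) T where
  toFun := fun g => (f g).toZModLinearMap p
  map_one' := by
    apply LinearMap.ext
    intro t
    exact h1 t
  map_mul' := by
    intro a b
    apply LinearMap.ext
    intro t
    exact h2 a b t

theorem toZ_apply (p : ℕ) {T Γ : Type*} [AddCommGroup T] [Module (ZMod p) T] [Group Γ]
    (f : Γ → (T →+ T)) (h1 : ∀ t, f 1 t = t) (h2 : ∀ a b t, f (a * b) t = f a (f b t))
    (g : Γ) (t : T) : toZ p f h1 h2 g t = f g t := rfl

theorem exists_central (H : Subgroup (GG α β)) (hH : ∃ g ∈ H, g ≠ 1) :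
    ∃ z ∈ H, z ≠ 1 ∧ ∀ h ∈ H, z * h = h * z := by
  by_cases hc : ∃ g ∈ H, ∃ h ∈ H, g * h ≠ h * g
  · obtain ⟨g, hg, h, hh, hne⟩ := hc
    refine ⟨cm g h, ?_, ?_, ?_⟩
    · have : cm g h = g * h * (h * g)⁻¹ := by rw [cm_spec g h]; group
      rw [this]
      exact H.mul_mem (H.mul_mem hg hh) (H.inv_mem (H.mul_mem hh hg))
    · intro h1
      apply hne
      rw [cm_spec g h, h1, one_mul]
    · intro k _
      exact cc_comm _ _ k
  · push Not at hc
    obtain ⟨g, hg, hg1⟩ := hH
    exact ⟨g, hg, hg1, fun h hh => hc g hg h hh⟩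

section

variable (ρ : GG α β →* Module.End ℤ A) (π : GG α β → A)
  (hπ : ∀ g h, π (g * h) = π g + ρ g (π h)) (hinj : Function.Injective π)
  (hsur : Function.Surjective π)

include hπ in
theorem pi_one : π 1 = 0 := by
  have := hπ 1 1
  rw [mul_one, map_one, Module.End.one_apply] at this
  simpa using this

include hπ in
theorem pi_inv (g : GG α β) : π g⁻¹ = - ρ g⁻¹ (π g) := by
  have := hπ g⁻¹ g
  rw [inv_mul_cancel, pi_one ρ π hπ] at this
  exact eq_neg_of_add_eq_zero_left this.symm

include hπ in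
theorem pi_pow (g : GG α β) (h : ρ g (π g) = π g) (n : ℕ) : π (g ^ n) = n • π g := by
  induction n with
  | zero => rw [pow_zero, pi_one ρ π hπ, zero_smul]
  | succ n ih => rw [pow_succ', hπ, ih, map_nsmul, h, succ_nsmul']

/-- the preimage of an invariant subgroup -/
def pre (T : AddSubgroup A) (hT : ∀ g, ∀ a ∈ T, ρ g a ∈ T) : Subgroup (GG α β) where
  carrier := {g | π g ∈ T}
  one_mem' := by
    show π 1 ∈ T
    rw [pi_one ρ π hπ]; exact T.zero_mem
  mul_mem' := by
    intro a b ha hb
    show π (a * b) ∈ T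
    rw [hπ]
    exact T.add_mem ha (hT _ _ hb)
  inv_mem' := by
    intro a ha
    show π a⁻¹ ∈ T
    rw [pi_inv ρ π hπ]
    exact T.neg_mem (hT _ _ ha)

/-- p-torsion subgroup -/
def tor (A : Type*) [AddCommGroup A] (p : ℕ) : AddSubgroup A where
  carrier := {a | p • a = 0}
  zero_mem' := smul_zero _
  add_mem' := by
    intro a b ha hb
    show p • (a + b) = 0
    rw [smul_add, ha, hb, add_zero]
  neg_mem' := by
    intro a ha
    show p • (-a) = 0
    rw [smul_neg, ha, neg_zero]

instance torMod (A : Type*) [AddCommGroup A] (p : ℕ) : Module (ZMod p) (tor A p) :=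
  AddCommGroup.zmodModule (n := p) (fun x => by
    apply Subtype.ext
    exact x.2)

include hπ hinj hsur in
theorem no_tor_prime (p : ℕ) [hp : Fact p.Prime] (a : A) (ha : p • a = 0) : a = 0 := by
  classical
  by_contra ha0
  have hT : ∀ g, ∀ b ∈ tor A p, ρ g b ∈ tor A p := by
    intro g b hb
    show p • (ρ g b) = 0
    rw [← map_nsmul]
    have : p • b = 0 := hb
    rw [this, map_zero]
  set H := pre ρ π hπ (tor A p) hT with hH
  -- the restricted representation
  let res : H → (tor A p →+ tor A p) := fun h =>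
    { toFun := fun b => ⟨ρ h b, hT _ _ b.2⟩
      map_zero' := by apply Subtype.ext; simp
      map_add' := by intro x y; apply Subtype.ext; simp }
  let ρV : H →* Module.End (ZMod p) (tor A p) := toZ p res
    (fun t => Subtype.ext (by
      show ρ ((1 : H) : GG α β) (t : A) = t
      rw [OneMemClass.coe_one, map_one, Module.End.one_apply]))
    (fun a b t => Subtype.ext (by
      show ρ ((a * b : H) : GG α β) (t : A) = ρ a (ρ b t)
      rw [Subgroup.coe_mul, map_mul, Module.End.mul_apply]))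
  let πV : H → tor A p := fun h => ⟨π h, h.2⟩
  have hπV : ∀ g h, πV (g * h) = πV g + ρV g (πV h) := by
    intro g h
    apply Subtype.ext
    exact hπ g h
  have hsurV : Function.Surjective πV := by
    rintro ⟨b, hb⟩
    obtain ⟨g, hg⟩ := hsur b
    refine ⟨⟨g, ?_⟩, Subtype.ext hg⟩
    show π g ∈ tor A p
    rw [hg]; exact hb
  obtain ⟨g, hg⟩ := hsur a
  obtain ⟨z, hzH, hz1, hzc⟩ := exists_central H ⟨g, by
    show π g ∈ tor A p
    rw [hg]; exact ha, by
    rintro rfl
    rw [pi_one ρ π hπ] at hg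
    exact ha0 hg.symm⟩
  let z' : H := ⟨z, hzH⟩
  have hzc' : ∀ h : H, z' * h = h * z' := fun h => Subtype.ext (hzc h h.2)
  have hcom : ∀ h : H, Commute (ρV h) (ρV z') := by
    intro h
    show ρV h * ρV z' = ρV z' * ρV h
    rw [← map_mul, ← map_mul, hzc' h]
  obtain ⟨n, hn⟩ := lemA_field ρV πV hπV z' hcom (fun h => by rw [hzc' h])
    ((FR_GG α β).subgroup H) (k := ZMod p) (fun f => hsurV _)
  have hall : ∀ v, ((ρV z' - 1) ^ (n + 1)) v = 0 := by
    intro v
    obtain ⟨h, rfl⟩ := hsurV v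
    exact unip_of ρV πV hπV z' hcom (fun h => by rw [hzc' h]) n hn h
  obtain ⟨m, hm⟩ : ∃ m : ℕ, n + 1 ≤ p ^ m := ⟨n + 1, (Nat.lt_pow_self hp.out.one_lt).le⟩
  have h1 : ρV z' ^ (p ^ m) = 1 := by
    have h2 : (ρV z' - 1) ^ (p ^ m) = ρV z' ^ (p ^ m) - 1 := by
      have h3 : (X - 1 : (ZMod p)[X]) ^ p ^ m = X ^ p ^ m - 1 ^ p ^ m := sub_pow_char_pow _ _ _
      have h4 := congrArg (aeval (ρV z')) h3
      rw [map_pow, map_sub, map_sub, map_pow, aeval_X, map_one, one_pow, map_one] at h4
      exact h4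
    have h5 : (ρV z' - 1) ^ (p ^ m) = 0 := by
      have : p ^ m = (p ^ m - (n + 1)) + (n + 1) := by omega
      ext v
      rw [this, pow_add, Module.End.mul_apply, hall]
      simp
    rw [h5] at h2
    exact (sub_eq_zero.mp h2.symm)
  have h6 : ρ (z ^ p ^ m) (π (z ^ p ^ m)) = π (z ^ p ^ m) := by
    have h7 : ρV (z' ^ p ^ m) (πV (z' ^ p ^ m)) = πV (z' ^ p ^ m) := by
      rw [map_pow, h1, Module.End.one_apply]
    exact congrArg Subtype.val h7
  have h8 : π ((z ^ p ^ m) ^ p) = 0 := by
    rw [pi_pow ρ π hπ _ h6]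
    exact (πV (z' ^ p ^ m)).2
  have h9 : (z ^ p ^ m) ^ p = 1 := hinj (by rw [h8, pi_one ρ π hπ])
  rw [← pow_mul] at h9
  have h10 : z ^ ((p ^ m * p : ℕ) : ℤ) = 1 := by rw [zpow_natCast]; exact h9
  exact hz1 (torsion_free z _ (by
    have := hp.out.pos
    positivity) h10)

include hπ hinj hsur in
theorem no_tor (n : ℕ) (hn : n ≠ 0) (a : A) (ha : n • a = 0) : a = 0 := by
  induction n using Nat.strong_induction_on generalizing a with
  | _ n ih =>
    by_cases h1 : n = 1
    · subst h1; simpa using ha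
    · obtain ⟨m, hm⟩ := Nat.minFac_dvd n
      have hp := Nat.minFac_prime h1
      have : Fact (Nat.minFac n).Prime := ⟨hp⟩
      have hm0 : m ≠ 0 := by
        rintro rfl
        rw [mul_zero] at hm
        exact hn hm
      have h2 : m • a = 0 := by
        apply no_tor_prime ρ π hπ hinj hsur (Nat.minFac n)
        rw [smul_smul, ← hm]; exact ha
      refine ih m ?_ hm0 a h2
      calc m < Nat.minFac n * m := by
            have := hp.two_le
            have : 0 < m := Nat.pos_of_ne_zero hm0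
            nlinarith
        _ = n := hm.symm

include hπ hinj hsur in
theorem no_tor_int (n : ℤ) (a : A) (hn : n ≠ 0) (ha : n • a = 0) : a = 0 := by
  apply no_tor ρ π hπ hinj hsur n.natAbs (by omega)
  rcases Int.natAbs_eq n with h | h
  · rw [h, natCast_zsmul] at ha
    exact ha
  · rw [h, neg_smul, natCast_zsmul, neg_eq_zero] at ha
    exact ha

/-- infinitely 2-divisible elements -/
def dv (A : Type*) [AddCommGroup A] : AddSubgroup A where
  carrier := {a | ∀ n : ℕ, ∃ b : A, a = 2 ^ n • b}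
  zero_mem' := fun n => ⟨0, by simp⟩
  add_mem' := by
    intro a b ha hb n
    obtain ⟨c, hc⟩ := ha n
    obtain ⟨d, hd⟩ := hb n
    exact ⟨c + d, by rw [smul_add, hc, hd]⟩
  neg_mem' := by
    intro a ha n
    obtain ⟨c, hc⟩ := ha n
    exact ⟨-c, by rw [smul_neg, hc]⟩

include hπ hinj hsur in
theorem sep (a : A) (ha : ∀ n : ℕ, ∃ b : A, a = 2 ^ n • b) : a = 0 := by
  classical
  by_contra ha0
  have hT : ∀ g, ∀ b ∈ dv A, ρ g b ∈ dv A := by
    intro g b hb n
    obtain ⟨c, hc⟩ := hb n
    exact ⟨ρ g c, by rw [← map_nsmul, ← hc]⟩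
  set H := pre ρ π hπ (dv A) hT with hH
  obtain ⟨g, hg⟩ := hsur a
  obtain ⟨z, hzH, hz1, hzc⟩ := exists_central H ⟨g, by
    show π g ∈ dv A
    rw [hg]; exact ha, by
    rintro rfl
    rw [pi_one ρ π hπ] at hg
    exact ha0 hg.symm⟩
  let ρH : H →* Module.End ℤ A := ρ.comp H.subtype
  let πH : H → A := fun h => π h
  let z' : H := ⟨z, hzH⟩
  have hzc' : ∀ h : H, z' * h = h * z' := fun h => Subtype.ext (hzc h h.2)
  have hcom : ∀ h : H, Commute (ρH h) (ρH z') := by
    intro h
    show ρH h * ρH z' = ρH z' * ρH h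
    rw [← map_mul, ← map_mul, hzc' h]
  have hπH : ∀ g h, πH (g * h) = πH g + ρH g (πH h) := fun g h => hπ g h
  have hsurH : ∀ b ∈ dv A, ∃ h : H, πH h = b := by
    intro b hb
    obtain ⟨k, hk⟩ := hsur b
    exact ⟨⟨k, by show π k ∈ dv A; rw [hk]; exact hb⟩, hk⟩
  have hinv : ∀ f : ℤ[X], ∀ b ∈ dv A, aeval (ρH z') f b ∈ dv A := by
    intro f
    induction f using Polynomial.induction_on' with
    | add p q hp hq =>
      intro b hb
      rw [map_add, LinearMap.add_apply]
      exact (dv A).add_mem (hp b hb) (hq b hb)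
    | monomial n c =>
      intro b hb
      rw [aeval_monomial, Module.End.mul_apply]
      have h1 : ∀ n : ℕ, (ρH z' ^ n) b ∈ dv A := by
        intro n
        induction n with
        | zero => simpa using hb
        | succ n ih =>
          rw [pow_succ', Module.End.mul_apply]
          exact hT _ _ ih
      have h2 : (algebraMap ℤ (Module.End ℤ A) c) ((ρH z' ^ n) b) = c • ((ρH z' ^ n) b) := by
        simp
      rw [h2]
      exact (dv A).zsmul_mem (h1 n) c
  have hzD : πH z' ∈ dv A := hzH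
  have hex := lemA_int ρH πH hπH z' hcom (fun h => by rw [hzc' h])
    ((FR_GG α β).subgroup H) (no_tor_int ρ π hπ hinj hsur)
    (fun f => hsurH _ (hinv f _ hzD))
  have hk := Nat.find_spec hex
  have hk0 : Nat.find hex ≠ 0 := by
    intro h
    rw [h, pow_zero, Module.End.one_apply] at hk
    apply hz1
    apply hinj
    rw [pi_one ρ π hπ]
    exact hk
  obtain ⟨k, hkk⟩ : ∃ k, Nat.find hex = k + 1 := Nat.exists_eq_succ_of_ne_zero hk0
  have hu0 : ((ρH z' - 1) ^ k) (πH z') ≠ 0 := fun h =>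
    Nat.find_min hex (m := k) (by omega) h
  rw [hkk, pow_succ', Module.End.mul_apply] at hk
  set u' := ((ρH z' - 1) ^ k) (πH z') with hu'
  have huD : u' ∈ dv A := by
    have h1 : (ρH z' - 1) ^ k = aeval (ρH z') ((X - 1 : ℤ[X]) ^ k) := by simp
    rw [hu', h1]
    exact hinv _ _ hzD
  obtain ⟨h, hh⟩ := hsurH u' huD
  have h1 : (h : GG α β) = 1 := by
    apply not_two_div
    intro n
    obtain ⟨b, hb⟩ := huD n
    have hbD : b ∈ dv A := by
      intro m
      obtain ⟨c, hc⟩ := huD (n + m)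
      refine ⟨c, ?_⟩
      have h2 : 2 ^ n • (b - 2 ^ m • c) = 0 := by
        rw [smul_sub, ← hb, smul_smul, ← pow_add, ← hc, sub_self]
      exact sub_eq_zero.mp (no_tor ρ π hπ hinj hsur _ (by positivity) _ h2)
    obtain ⟨t, ht⟩ := hsurH b hbD
    refine ⟨t, ?_⟩
    have h3 : (ρH z' - 1) b = 0 := by
      apply no_tor ρ π hπ hinj hsur (2 ^ n) (by positivity)
      rw [← map_nsmul, ← hb, hk]
    have h4 : ρH t (πH z') = πH z' := by
      rw [rel ρH πH hπH z' (fun h => by rw [hzc' h]), ht, h3, add_zero]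
    have h5 : ρH t u' = u' := by
      have : Commute (ρH t) ((ρH z' - 1) ^ k) :=
        ((hcom t).sub_right (Commute.one_right _)).pow_right k
      have h6 := congrArg (fun F : Module.End ℤ A => F (πH z')) this.eq
      simp only [Module.End.mul_apply] at h6
      rw [hu', h6, h4]
    have h6 : ρ t (π t) = π t := by
      have h7 : ρH t b = b := by
        have : 2 ^ n • (ρH t b - b) = 0 := by
          rw [smul_sub, ← map_nsmul, ← hb, h5, sub_self]
        exact sub_eq_zero.mp (no_tor ρ π hπ hinj hsur _ (by positivity) _ this)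
      have h8 : π t = b := ht
      rw [h8]
      exact h7
    apply hinj
    rw [pi_pow ρ π hπ _ h6]
    have h8 : π t = b := ht
    have h9 : π h = u' := hh
    rw [h8, h9, hb]
  apply hu0
  rw [← hh]
  show π h = 0
  rw [h1, pi_one ρ π hπ]

end

end

end Pool.Agent.Q274.LB
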