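import Pool.Agent.Q274.LB.Coc

/-!
Bijective cocycles on `GG α β`: high powers act trivially modulo 2, the rank is at most three.
-/

namespace Pool.Agent.Q274.LB

open Polynomial

noncomputable section

variable {α β : ℚ_[2]} {A : Type*} [AddCommGroup A]

/-- the subgroup 2A -/
def two (A : Type*) [AddCommGroup A] : AddSubgroup A where
  carrier := {a | ∃ b : A, a = 2 • b}
  zero_mem' := ⟨0, by simp⟩
  add_mem' := by
    rintro a b ⟨c, rfl⟩ ⟨d, rfl⟩
    exact ⟨c + d, by rw [smul_add]⟩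
  neg_mem' := by
    rintro a ⟨c, rfl⟩
    exact ⟨-c, by rw [smul_neg]⟩

instance twoMod (A : Type*) [AddCommGroup A] : Module (ZMod 2) (A ⧸ two A) :=
  AddCommGroup.zmodModule (n := 2) (fun x => by
    obtain ⟨a, rfl⟩ := QuotientAddGroup.mk_surjective x
    rw [← QuotientAddGroup.mk_nsmul]
    exact (QuotientAddGroup.eq_zero_iff _).mpr ⟨a, rfl⟩)

theorem cm_pow (g h : GG α β) (n : ℕ) : cm (g ^ n) h = (cm g h) ^ n := by
  apply Subtype.ext
  have h1 : ((g ^ n : GG α β) : E3) = ⟨n * (g : E3).x, n * (g : E3).y, n * (g : E3).n⟩ := by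
    have := pow_coe g (n : ℤ)
    rw [zpow_natCast] at this
    rw [this]
    push_cast
    rfl
  have h2 : (((cm g h) ^ n : GG α β) : E3) = ⟨n * (cm g h : E3).x, n * (cm g h : E3).y,
      n * (cm g h : E3).n⟩ := by
    have := pow_coe (cm g h) (n : ℤ)
    rw [zpow_natCast] at this
    rw [this]
    push_cast
    rfl
  rw [h2]
  ext
  · show (0 : ℤ_[2]) = n * 0; ring
  · show (0 : ℤ_[2]) = n * 0; ring
  · show 2 * (((g ^ n : GG α β) : E3).x * (h : E3).y - (h : E3).x * ((g ^ n : GG α β) : E3).y) =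
      n * (2 * ((g : E3).x * (h : E3).y - (h : E3).x * (g : E3).y))
    rw [h1]
    ring

section

variable (ρ : GG α β →* Module.End ℤ A) (π : GG α β → A)
  (hπ : ∀ g h, π (g * h) = π g + ρ g (π h)) (hinj : Function.Injective π)
  (hsur : Function.Surjective π)

include hπ hsur in
theorem mod_two (g : GG α β) : (∀ a, ∃ b, ρ (g ^ 4096) a - a = 2 • b) ∧
    ∃ b, π (g ^ 4096) = 2 • b := by
  have hle : ∀ g, two A ≤ (two A).comap (ρ g : Module.End ℤ A).toAddMonoidHom := by
    rintro g a ⟨b, rfl⟩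
    exact ⟨ρ g b, by
      show ρ g (2 • b) = _
      rw [map_nsmul]⟩
  let res : GG α β → (A ⧸ two A →+ A ⧸ two A) := fun g =>
    QuotientAddGroup.map (two A) (two A) (ρ g : Module.End ℤ A).toAddMonoidHom (hle g)
  have hres : ∀ g a, res g (QuotientAddGroup.mk a) = QuotientAddGroup.mk (ρ g a) := by
    intro g a; rfl
  let ρV : GG α β →* Module.End (ZMod 2) (A ⧸ two A) := toZ 2 res
    (fun t => by
      obtain ⟨a, rfl⟩ := QuotientAddGroup.mk_surjective t
      rw [hres, map_one, Module.End.one_apply])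
    (fun a b t => by
      obtain ⟨a, rfl⟩ := QuotientAddGroup.mk_surjective t
      rw [hres, hres, hres, map_mul, Module.End.mul_apply])
  let πV : GG α β → A ⧸ two A := fun g => QuotientAddGroup.mk (π g)
  have hρV : ∀ g a, ρV g (QuotientAddGroup.mk a) = QuotientAddGroup.mk (ρ g a) := by
    intro g a; rfl
  have hπV : ∀ g h, πV (g * h) = πV g + ρV g (πV h) := by
    intro g h
    show (QuotientAddGroup.mk (π (g * h)) : A ⧸ two A) = _
    rw [hπ]; rfl
  have hsurV : Function.Surjective πV := by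
    intro t
    obtain ⟨a, rfl⟩ := QuotientAddGroup.mk_surjective t
    obtain ⟨g, rfl⟩ := hsur a
    exact ⟨g, rfl⟩
  -- the general step
  have step : ∀ z : GG α β, (∀ h, Commute (ρV h) (ρV z)) → (∀ h, πV (z * h) = πV (h * z)) →
      ρV (z ^ 64) = 1 ∧ πV (z ^ 64) = 0 := by
    intro z hc hz
    have h1 : ρV (z ^ 32) = 1 := by
      apply LinearMap.ext
      intro v
      obtain ⟨h, rfl⟩ := hsurV v
      exact pow32 ρV πV hπV z hc hz (FR_GG α β) (fun f => hsurV _) h
    have e : z ^ 64 = z ^ 32 * z ^ 32 := by rw [← pow_add]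
    constructor
    · rw [e, map_mul, h1, mul_one]
    · rw [e, hπV, h1, Module.End.one_apply]
      have := two_kill 2 (dvd_refl _) (πV (z ^ 32))
      rwa [two_smul] at this
  have cen : ∀ c : GG α β, (∀ h, c * h = h * c) → ρV (c ^ 64) = 1 ∧ πV (c ^ 64) = 0 := by
    intro c hc
    apply step c
    · intro h
      show ρV h * ρV c = ρV c * ρV h
      rw [← map_mul, ← map_mul, hc h]
    · intro h; rw [hc h]
  have hcm : ∀ h, ρV (cm (g ^ 64) h) = 1 ∧ πV (cm (g ^ 64) h) = 0 := by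
    intro h
    rw [cm_pow]
    exact cen _ (fun k => cc_comm _ _ k)
  obtain ⟨h1, h2⟩ := step (g ^ 64)
    (fun h => by
      show ρV h * ρV (g ^ 64) = ρV (g ^ 64) * ρV h
      rw [← map_mul, ← map_mul, cm_spec (g ^ 64) h, map_mul ρV (cm _ _), (hcm h).1, one_mul])
    (fun h => by
      rw [cm_spec (g ^ 64) h, hπV, (hcm h).1, (hcm h).2, zero_add, Module.End.one_apply])
  have e : (g ^ 64) ^ 64 = g ^ 4096 := by rw [← pow_mul]
  rw [e] at h1 h2
  constructor
  · intro a
    have h3 := hρV (g ^ 4096) a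
    rw [h1, Module.End.one_apply] at h3
    have h4 : (QuotientAddGroup.mk (ρ (g ^ 4096) a - a) : A ⧸ two A) = 0 := by
      rw [QuotientAddGroup.mk_sub, ← h3, sub_self]
    exact (QuotientAddGroup.eq_zero_iff _).mp h4
  · exact (QuotientAddGroup.eq_zero_iff _).mp h2

include hπ hsur in
theorem mod_pow (g : GG α β) (n : ℕ) :
    (∀ a, ∃ b, ρ (g ^ 2 ^ (12 + n)) a - a = 2 ^ (n + 1) • b) ∧
    ∃ b, π (g ^ 2 ^ (12 + n)) = 2 ^ (n + 1) • b := by
  induction n with
  | zero => simpa using mod_two ρ π hπ hsur g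
  | succ n ih =>
    obtain ⟨h1, b, hb⟩ := ih
    set k := g ^ 2 ^ (12 + n) with hk
    have e : g ^ 2 ^ (12 + (n + 1)) = k * k := by
      rw [hk, ← pow_add]
      congr 1
      ring
    rw [e]
    constructor
    · intro a
      obtain ⟨c, hc⟩ := h1 a
      obtain ⟨d, hd⟩ := h1 c
      refine ⟨c + 2 ^ n • d, ?_⟩
      have e1 : ρ k a = a + 2 ^ (n + 1) • c := by rw [← hc]; abel
      have e2 : ρ k c = c + 2 ^ (n + 1) • d := by rw [← hd]; abel
      rw [map_mul, Module.End.mul_apply, e1, map_add, e1, map_nsmul, e2]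
      have e3 : (2 : ℕ) ^ (n + 1 + 1) • (c + 2 ^ n • d) =
        2 ^ (n + 1) • c + 2 ^ (n + 1) • c + 2 ^ (n + 1) • (2 ^ (n + 1) • d) := by
        rw [smul_add, smul_smul, smul_smul, ← add_smul]
        congr 2 <;> ring
      rw [e3, smul_add]
      abel
    · obtain ⟨d, hd⟩ := h1 b
      refine ⟨b + 2 ^ n • d, ?_⟩
      have e2 : ρ k b = b + 2 ^ (n + 1) • d := by rw [← hd]; abel
      rw [hπ, hb, map_nsmul, e2]
      have e3 : (2 : ℕ) ^ (n + 1 + 1) • (b + 2 ^ n • d) =
        2 ^ (n + 1) • b + 2 ^ (n + 1) • b + 2 ^ (n + 1) • (2 ^ (n + 1) • d) := by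
        rw [smul_add, smul_smul, smul_smul, ← add_smul]
        congr 2 <;> ring
      rw [e3, smul_add]
      abel

include hπ hsur in
theorem small_act (n : ℕ) (g : GG α β) (hg : small (13 + n) g) :
    (∀ a, ∃ b, ρ g a - a = 2 ^ (n + 1) • b) ∧ ∃ b, π g = 2 ^ (n + 1) • b := by
  obtain ⟨k, rfl⟩ := small_pow (12 + n) g (by
    have : 12 + n + 1 = 13 + n := by ring
    rw [this]; exact hg)
  exact mod_pow ρ π hπ hsur k n

/-- independence modulo 2 -/
def IndM {d : ℕ} (a : Fin d → A) : Prop :=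
  ∀ m : Fin d → ℤ, (∃ b : A, ∑ i, m i • a i = 2 • b) → ∀ i, (2 : ℤ) ∣ m i

include hπ hinj hsur in
theorem IndM.pow {d : ℕ} {a : Fin d → A} (ha : IndM a) (n : ℕ) (m : Fin d → ℤ)
    (h : ∃ b : A, ∑ i, m i • a i = 2 ^ n • b) (i : Fin d) : (2 : ℤ) ^ n ∣ m i := by
  induction n generalizing m with
  | zero => simp
  | succ n ih =>
    obtain ⟨b, hb⟩ := h
    have h1 := ha m ⟨2 ^ n • b, by rw [hb, smul_smul]; congr 1; ring⟩
    choose m' hm' using h1
    have h2 : ∑ i, m' i • a i = 2 ^ n • b := by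
      have h3 : 2 • (∑ i, m' i • a i - 2 ^ n • b) = 0 := by
        rw [smul_sub, Finset.smul_sum, smul_smul, sub_eq_zero]
        have e : (2 : ℕ) * 2 ^ n = 2 ^ (n + 1) := by ring
        rw [e, ← hb]
        refine Finset.sum_congr rfl fun i _ => ?_
        rw [hm' i, mul_smul, two_smul, two_smul]
      exact sub_eq_zero.mp (no_tor ρ π hπ hinj hsur 2 (by norm_num) _ h3)
    have h4 := ih m' ⟨b, h2⟩
    rw [hm' i, pow_succ, mul_comm]
    exact mul_dvd_mul_left _ h4

theorem toZ_dvd {x y : ℤ_[2]} (n : ℕ) (h : PadicInt.toZModPow n x = PadicInt.toZModPow n y) :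
    (2 : ℤ_[2]) ^ n ∣ y - x := by
  have h1 : y - x ∈ RingHom.ker (PadicInt.toZModPow (p := 2) n) := by
    rw [RingHom.mem_ker, map_sub, h, sub_self]
  rw [PadicInt.ker_toZModPow, Ideal.mem_span_singleton] at h1
  exact_mod_cast h1

include hπ hinj hsur in
theorem no_four (a : Fin 4 → A) (ha : IndM a) : False := by
  classical
  choose g hg using fun m : Fin 4 → Fin (2 ^ 37) => hsur (∑ i, ((m i : ℕ) : ℤ) • a i)
  let F : (Fin 4 → Fin (2 ^ 37)) → ZMod (2 ^ 49) × ZMod (2 ^ 49) × ZMod (2 ^ 49) := fun m =>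
    (PadicInt.toZModPow 49 (g m : E3).x, PadicInt.toZModPow 49 (g m : E3).y,
      PadicInt.toZModPow 49 (g m : E3).n)
  obtain ⟨m, m', hne, hF⟩ := Fintype.exists_ne_map_eq_of_card_lt F (by
    rw [Fintype.card_prod, Fintype.card_prod, ZMod.card, Fintype.card_fun, Fintype.card_fin,
      Fintype.card_fin]
    norm_num)
  have h1 := congrArg Prod.fst hF
  have h2 := congrArg (fun t => t.2.1) hF
  have h3 := congrArg (fun t => t.2.2) hF
  have hs : small (13 + 36) ((g m)⁻¹ * g m') :=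
    close_small _ _ _ (toZ_dvd _ h1) (toZ_dvd _ h2) (toZ_dvd _ h3)
  obtain ⟨-, b, hb⟩ := small_act ρ π hπ hsur 36 _ hs
  have h4 : π (g m') = π (g m) + ρ (g m) (2 ^ 37 • b) := by
    have := hπ (g m) ((g m)⁻¹ * g m')
    rw [mul_inv_cancel_left, hb] at this
    exact this
  have h5 : ∑ i, (((m' i : ℕ) : ℤ) - ((m i : ℕ) : ℤ)) • a i = 2 ^ 37 • ρ (g m) b := by
    rw [map_nsmul, hg, hg] at h4
    simp only [sub_smul, Finset.sum_sub_distrib]
    rw [h4]
    abel
  apply hne
  funext i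
  have h6 := IndM.pow ρ π hπ hinj hsur ha 37 _ ⟨_, h5⟩ i
  have h7 := (m i).2
  have h8 := (m' i).2
  apply Fin.ext
  obtain ⟨c, hc⟩ := h6
  have h9 : (((m i : ℕ) : ℤ)) < 2 ^ 37 := by exact_mod_cast h7
  have h10 : (((m' i : ℕ) : ℤ)) < 2 ^ 37 := by exact_mod_cast h8
  have h11 : c = 0 := by
    by_contra hc0
    rcases lt_or_gt_of_ne hc0 with h | h
    · have : c ≤ -1 := by omega
      omega
    · have : 1 ≤ c := by omega
      omega
  rw [h11, mul_zero] at hc
  omega

include hπ hinj hsur in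
/-- a basis modulo 2 -/
theorem exists_basis : ∃ d ≤ 3, ∃ a : Fin d → A, IndM a ∧
    ∀ b : A, ∃ (m : Fin d → ℤ) (c : A), b = ∑ i, m i • a i + 2 • c := by
  by_contra hcon
  push Not at hcon
  have key : ∀ d ≤ 4, ∃ a : Fin d → A, IndM a := by
    intro d
    induction d with
    | zero => intro _; exact ⟨Fin.elim0, fun m _ i => i.elim0⟩
    | succ d ih =>
      intro hd
      obtain ⟨a, ha⟩ := ih (by omega)
      obtain ⟨b, hb⟩ := hcon d (by omega) a ha
      refine ⟨Fin.cons b a, ?_⟩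
      rintro m ⟨c, hc⟩
      rw [Fin.sum_univ_succ, Fin.cons_zero] at hc
      simp only [Fin.cons_succ] at hc
      rcases Int.even_or_odd' (m 0) with ⟨t, ht | ht⟩
      · have h1 := ha (fun i => m i.succ) ⟨c - t • b, by
          rw [smul_sub, ← hc, ht, mul_smul, two_smul, two_smul]; abel⟩
        intro i
        refine Fin.cases ?_ (fun j => h1 j) i
        exact ⟨t, ht⟩
      · exfalso
        apply hb (fun i => -m i.succ) (c - t • b)
        rw [smul_sub, ← hc, ht, add_smul, mul_smul, two_smul, two_smul, one_smul]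
        simp only [neg_smul, Finset.sum_neg_distrib]
        abel
  obtain ⟨a, ha⟩ := key 4 le_rfl
  exact no_four ρ π hπ hinj hsur a ha

end

end

end Pool.Agent.Q274.LB
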