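import Pool.Agent.Q274.LB.Grp2

/-!
2-adic coordinates of a torsion-free, 2-adically separated group of finite 2-rank.
-/

namespace Pool.Agent.Q274.LB

noncomputable section

/-- limits of coherent integer sequences -/
theorem lim_seq (f : ℕ → ℤ) (hf : ∀ n, (2 : ℤ) ^ n ∣ f (n + 1) - f n) :
    ∃ x : ℤ_[2], ∀ n, (2 : ℤ_[2]) ^ n ∣ x - f n := by
  have h1 : ∀ m k, (2 : ℤ) ^ m ∣ f (m + k) - f m := by
    intro m k
    induction k with
    | zero => simp
    | succ k ih =>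
      have : f (m + (k + 1)) - f m = (f (m + k + 1) - f (m + k)) + (f (m + k) - f m) := by
        rw [← add_assoc]; ring
      rw [this]
      exact dvd_add ((pow_dvd_pow 2 (Nat.le_add_right m k)).trans (hf _)) ih
  obtain ⟨L, hL⟩ := IsPrecomplete.prec'
    (I := IsLocalRing.maximalIdeal ℤ_[2]) (M := ℤ_[2]) (fun n => ((f n : ℤ) : ℤ_[2])) (by
      intro m n hmn
      obtain ⟨k, rfl⟩ := Nat.exists_eq_add_of_le hmn
      obtain ⟨c, hc⟩ := h1 m k
      rw [← Ideal.one_eq_top, smul_eq_mul, mul_one, SModEq.sub_mem,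
        PadicInt.maximalIdeal_eq_span_p, Ideal.span_singleton_pow, Ideal.mem_span_singleton]
      refine ⟨-c, ?_⟩
      have : (f m : ℤ_[2]) - (f (m + k) : ℤ_[2]) = -((f (m + k) - f m : ℤ) : ℤ_[2]) := by
        push_cast; ring
      rw [this, hc]
      push_cast; ring)
  refine ⟨L, fun n => ?_⟩
  have := hL n
  rw [← Ideal.one_eq_top, smul_eq_mul, mul_one, SModEq.sub_mem,
        PadicInt.maximalIdeal_eq_span_p, Ideal.span_singleton_pow, Ideal.mem_span_singleton] at this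
  rw [← neg_sub]
  exact (dvd_neg.mpr (by exact_mod_cast this))

section

variable {A : Type*} [AddCommGroup A] {d : ℕ} (a : Fin d → A)
  (htf : ∀ (n : ℕ) (b : A), n ≠ 0 → n • b = 0 → b = 0)
  (hsep : ∀ b : A, (∀ n : ℕ, ∃ c : A, b = 2 ^ n • c) → b = 0)
  (hind : ∀ (n : ℕ) (m : Fin d → ℤ), (∃ b : A, ∑ i, m i • a i = 2 ^ n • b) →
    ∀ i, (2 : ℤ) ^ n ∣ m i)
  (hspan : ∀ b : A, ∃ (m : Fin d → ℤ) (c : A), b = ∑ i, m i • a i + 2 • c)

/-- `x` gives the coordinates of `b` -/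
def Crd (b : A) (x : Fin d → ℤ_[2]) : Prop :=
  ∀ n : ℕ, ∃ m : Fin d → ℤ, (∀ i, (2 : ℤ_[2]) ^ n ∣ x i - m i) ∧
    ∃ c : A, b = ∑ i, m i • a i + 2 ^ n • c

include hspan in
theorem Crd.exists (b : A) : ∃ x, Crd a b x := by
  choose m c hmc using hspan
  -- iterate
  let st : ℕ → (Fin d → ℤ) × A := fun n => Nat.rec (motive := fun _ => (Fin d → ℤ) × A) (0, b)
    (fun n p => (fun i => p.1 i + 2 ^ n * m p.2 i, c p.2)) n
  have hst : ∀ n, st (n + 1) = (fun i => (st n).1 i + 2 ^ n * m (st n).2 i, c (st n).2) :=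
    fun n => rfl
  have h1 : ∀ n, b = ∑ i, (st n).1 i • a i + 2 ^ n • (st n).2 := by
    intro n
    induction n with
    | zero => simp [st]
    | succ n ih =>
      rw [hst]
      simp only [add_smul, Finset.sum_add_distrib, mul_smul, ← Finset.smul_sum]
      have h2 := hmc (st n).2
      have h3 : (2 : ℕ) ^ (n + 1) • c (st n).2 = (2 : ℤ) ^ n • (2 • c (st n).2) := by
        rw [← natCast_zsmul, ← natCast_zsmul, smul_smul]
        congr 1
      rw [h3, add_assoc, ← smul_add, ← h2]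
      nth_rewrite 1 [ih]
      congr 1
      rw [← natCast_zsmul]
      push_cast
      rfl
  have h2 : ∀ i, ∃ x : ℤ_[2], ∀ n, (2 : ℤ_[2]) ^ n ∣ x - (st n).1 i := by
    intro i
    apply lim_seq (fun n => (st n).1 i)
    intro n
    show (2 : ℤ) ^ n ∣ (st (n + 1)).1 i - (st n).1 i
    rw [hst]
    exact ⟨m (st n).2 i, by ring⟩
  choose x hx using h2
  exact ⟨x, fun n => ⟨(st n).1, fun i => hx i n, _, h1 n⟩⟩

theorem int_dvd_of (n : ℕ) (m : ℤ) (h : (2 : ℤ_[2]) ^ n ∣ (m : ℤ_[2])) : (2 : ℤ) ^ n ∣ m := by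
  have h1 := (PadicInt.norm_int_le_pow_iff_dvd (p := 2) (k := m) (n := n)).mp (by
    rw [PadicInt.norm_le_pow_iff_mem_span_pow, Ideal.mem_span_singleton]
    exact_mod_cast h)
  exact_mod_cast h1

include hind in
theorem Crd.uniq {b : A} {x y : Fin d → ℤ_[2]} (hx : Crd a b x) (hy : Crd a b y) : x = y := by
  funext i
  rw [← sub_eq_zero]
  apply zero_of_dvd
  intro n
  obtain ⟨m, hm, c, hc⟩ := hx n
  obtain ⟨m', hm', c', hc'⟩ := hy n
  have h1 : ∑ i, (m i - m' i) • a i = 2 ^ n • (c' - c) := by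
    simp only [sub_smul, Finset.sum_sub_distrib, smul_sub]
    have : ∑ i, m i • a i + 2 ^ n • c = ∑ i, m' i • a i + 2 ^ n • c' := by rw [← hc, ← hc']
    rw [sub_eq_sub_iff_add_eq_add, this]
    abel
  obtain ⟨e, he⟩ := hind n _ ⟨_, h1⟩ i
  have h2 : x i - y i = (x i - m i) - (y i - m' i) + (2 : ℤ_[2]) ^ n * e := by
    have : ((m i - m' i : ℤ) : ℤ_[2]) = (2 : ℤ_[2]) ^ n * e := by rw [he]; push_cast; ring
    rw [← this]
    push_cast
    ring
  rw [h2]
  exact dvd_add (dvd_sub (hm i) (hm' i)) (dvd_mul_right _ _)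

theorem Crd.add {b c : A} {x y : Fin d → ℤ_[2]} (hx : Crd a b x) (hy : Crd a c y) :
    Crd a (b + c) (x + y) := by
  intro n
  obtain ⟨m, hm, c, hc⟩ := hx n
  obtain ⟨m', hm', c', hc'⟩ := hy n
  refine ⟨fun i => m i + m' i, fun i => ?_, c + c', ?_⟩
  · have : (x + y) i - ((m i + m' i : ℤ) : ℤ_[2]) = (x i - m i) + (y i - m' i) := by
      show x i + y i - _ = _
      push_cast; ring
    rw [this]
    exact dvd_add (hm i) (hm' i)
  · simp only [add_smul, Finset.sum_add_distrib, smul_add]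
    rw [hc, hc']
    abel

include hsep hind hspan in
/-- the coordinate map -/
theorem exists_coord : ∃ φ : A →+ (Fin d → ℤ_[2]), Function.Injective φ ∧
    (∀ (b : A) (n : ℕ), (∀ i, (2 : ℤ_[2]) ^ n ∣ φ b i) → ∃ c, b = 2 ^ n • c) ∧
    (∀ i, φ (a i) = Pi.single i 1) ∧
    (∀ (f : A →+ ℤ_[2]) (b : A), f b = ∑ i, φ b i * f (a i)) := by
  choose φ hφ using Crd.exists a hspan
  have hadd : ∀ b c, φ (b + c) = φ b + φ c := fun b c =>
    Crd.uniq a hind (hφ _) (Crd.add a (hφ b) (hφ c))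
  have hdiv : ∀ (b : A) (n : ℕ), (∀ i, (2 : ℤ_[2]) ^ n ∣ φ b i) → ∃ c, b = 2 ^ n • c := by
    intro b n h
    obtain ⟨m, hm, c, hc⟩ := hφ b n
    have h1 : ∀ i, (2 : ℤ) ^ n ∣ m i := by
      intro i
      apply int_dvd_of
      have := dvd_sub (h i) (hm i)
      rwa [sub_sub_cancel] at this
    choose e he using h1
    refine ⟨∑ i, e i • a i + c, ?_⟩
    rw [smul_add, Finset.smul_sum]
    nth_rewrite 1 [hc]
    congr 1
    refine Finset.sum_congr rfl fun i _ => ?_
    rw [he i, mul_smul, ← natCast_zsmul]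
    push_cast
    rfl
  refine ⟨AddMonoidHom.mk' φ hadd, ?_, hdiv, ?_, ?_⟩
  · rw [injective_iff_map_eq_zero]
    intro b hb
    apply hsep
    intro n
    apply hdiv b n
    intro i
    have : φ b = 0 := hb
    rw [this]
    exact dvd_zero _
  · intro i
    apply Crd.uniq a hind (hφ _)
    intro n
    refine ⟨Pi.single i 1, ?_, 0, ?_⟩
    · intro j
      by_cases h : j = i
      · subst h; simp
      · simp [h]
    · rw [smul_zero, add_zero]
      rw [Finset.sum_eq_single i]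
      · simp
      · intro j _ hj; simp [hj]
      · intro h; exact absurd (Finset.mem_univ _) h
  · intro f b
    rw [← sub_eq_zero]
    apply zero_of_dvd
    intro n
    obtain ⟨m, hm, c, hc⟩ := hφ b n
    have h1 : f b = ∑ i, (m i : ℤ_[2]) * f (a i) + (2 : ℤ_[2]) ^ n * f c := by
      nth_rewrite 1 [hc]
      rw [map_add, map_sum, map_nsmul]
      congr 1
      · refine Finset.sum_congr rfl fun i _ => ?_
        rw [map_zsmul, zsmul_eq_mul]
      · rw [nsmul_eq_mul]; push_cast; rfl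
    have h2 : f b - ∑ i, φ b i * f (a i) =
        (2 : ℤ_[2]) ^ n * f c - ∑ i, (φ b i - m i) * f (a i) := by
      rw [h1]
      simp only [sub_mul, Finset.sum_sub_distrib]
      ring
    show (2 : ℤ_[2]) ^ n ∣ f b - ∑ i, φ b i * f (a i)
    rw [h2]
    exact dvd_sub (dvd_mul_right _ _) (Finset.dvd_sum fun i _ => (hm i).mul_right _)

end

end

end Pool.Agent.Q274.LB
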