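import Pool.Agent.Q274.LB.Lin6

/-!
Existence of suitable parameters, and the main statement for `GG α β`.
-/

namespace Pool.Agent.Q274.LB

open Polynomial Module Cardinal

noncomputable section

theorem exists_transcendental : ∃ a : ℤ_[2], Transcendental ℚ (a : ℚ_[2]) := by
  have h1 : ∃ x : ℚ_[2], Transcendental ℚ x := by
    by_contra hcon
    push Not at hcon
    have h2 : Set.Countable { x : ℚ_[2] | IsAlgebraic ℚ x } := Algebraic.countable ℚ ℚ_[2]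
    have h3 : { x : ℚ_[2] | IsAlgebraic ℚ x } = Set.univ := by
      ext x
      simp only [Set.mem_univ, iff_true]
      show IsAlgebraic ℚ x
      have := hcon x
      unfold Transcendental at this
      push Not at this
      exact this
    rw [h3, Set.countable_univ_iff] at h2
    have h4 := continuum_le_cardinal_of_nontriviallyNormedField ℚ_[2]
    have h5 : #ℚ_[2] ≤ ℵ₀ := Cardinal.mk_le_aleph0_iff.mpr h2
    exact absurd (h4.trans h5) (not_le.mpr aleph0_lt_continuum)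
  obtain ⟨x, hx⟩ := h1
  by_cases h : ‖x‖ ≤ 1
  · exact ⟨⟨x, h⟩, hx⟩
  · have h2 : ‖x⁻¹‖ ≤ 1 := by
      rw [norm_inv]
      exact inv_le_one_of_one_le₀ (le_of_lt (not_le.mp h))
    refine ⟨⟨x⁻¹, h2⟩, ?_⟩
    intro halg
    apply hx
    have := IsAlgebraic.inv halg
    rwa [inv_inv] at this

theorem ind6_cube {x : ℚ_[2]} (hx : Transcendental ℚ x) : Ind6 x (x ^ 3) := by
  intro a b c d e f h
  have h1 : aeval x (C a + C b * X + C c * X ^ 3 + C d * X ^ 2 + C e * X ^ 4 + C f * X ^ 6 : ℚ[X])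
      = 0 := by
    simp only [map_add, map_mul, map_pow, aeval_C, aeval_X]
    have e1 : ∀ q : ℚ, algebraMap ℚ ℚ_[2] q = (q : ℚ_[2]) := fun q => rfl
    simp only [e1]
    linear_combination h
  have h2 : (C a + C b * X + C c * X ^ 3 + C d * X ^ 2 + C e * X ^ 4 + C f * X ^ 6 : ℚ[X]) = 0 := by
    by_contra hne
    exact hx ⟨_, hne, h1⟩
  have hc := fun n => congrArg (fun p : ℚ[X] => p.coeff n) h2
  have k0 := hc 0
  have k1 := hc 1
  have k2 := hc 2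
  have k3 := hc 3
  have k4 := hc 4
  have k6 := hc 6
  simp [coeff_X, coeff_C, coeff_X_pow] at k0 k1 k2 k3 k4 k6
  exact ⟨k0, k1, k3, k2, k4, k6⟩

theorem exists_params : ∃ (a : ℤ_[2]), Ind6 (a : ℚ_[2]) ((a ^ 3 : ℤ_[2]) : ℚ_[2]) := by
  obtain ⟨a, ha⟩ := exists_transcendental
  refine ⟨a, ?_⟩
  rw [PadicInt.coe_pow]
  exact ind6_cube ha

/-- the element (α, β, ν) -/
theorem exists_vv (a b : ℤ_[2]) : ∃ vv : GG (a : ℚ_[2]) (b : ℚ_[2]),
    (vv : E3).x = a ∧ (vv : E3).y = b := by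
  rcases parity (a * b) with h | h
  · obtain ⟨c, hc⟩ := h
    refine ⟨⟨⟨a, b, 0⟩, ⟨0, 0, 1, by simp, by simp⟩, ⟨0, 0, 0, by simp⟩, ⟨-c, ?_⟩⟩, rfl, rfl⟩
    show (0 : ℤ_[2]) = a * b + 2 * (-c)
    rw [hc]; ring
  · obtain ⟨c, hc⟩ := h
    refine ⟨⟨⟨a, b, 1⟩, ⟨0, 0, 1, by simp, by simp⟩, ⟨1, 0, 0, by simp⟩, ⟨-c, ?_⟩⟩, rfl, rfl⟩
    show (1 : ℤ_[2]) = a * b + 2 * (-c)
    linear_combination -hc

/-- no bijective cocycle on the group -/
theorem no_cocycle (a : ℤ_[2]) (ha : Ind6 (a : ℚ_[2]) ((a ^ 3 : ℤ_[2]) : ℚ_[2]))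
    {A : Type*} [AddCommGroup A]
    (ρ : GG (a : ℚ_[2]) ((a ^ 3 : ℤ_[2]) : ℚ_[2]) →* Module.End ℤ A)
    (π : GG (a : ℚ_[2]) ((a ^ 3 : ℤ_[2]) : ℚ_[2]) → A)
    (hπ : ∀ g h, π (g * h) = π g + ρ g (π h)) (hbij : Function.Bijective π) : False := by
  obtain ⟨d, hd, R, P, H⟩ := exists_LD ρ π hπ hbij.1 hbij.2
  obtain ⟨vv, hx, hy⟩ := exists_vv a (a ^ 3)
  exact H.false (by simpa using hd) ha vv (by rw [hx]) (by rw [hy])

end

end Pool.Agent.Q274.LB
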