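import Mathlib

/-!
Finite-rank groups in the form we need: among any 16 elements there is a word relation with
coprime exponents which survives in every commutative image.
-/

namespace Pool.Agent.Q274.LB

/-- A nested product of powers. -/
def word {G : Type*} [Group G] (s : Fin 4 → Fin 4 → G) (n : Fin 4 → Fin 4 → ℤ)
    (m : Fin 4 → ℤ) : G :=
  (List.ofFn fun a => ((List.ofFn fun b => s a b ^ n a b).prod) ^ m a).prod

/-- The finite rank property. -/
def FR (G : Type*) [Group G] : Prop :=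
  ∀ s : Fin 4 → Fin 4 → G, ∃ (n : Fin 4 → Fin 4 → ℤ) (m : Fin 4 → ℤ),
    (∀ p : ℕ, p.Prime → ∃ a b, ¬ ((p : ℤ) ∣ m a * n a b)) ∧ word s n m = 1

theorem word_map {G K : Type*} [Group G] [Group K] (f : G →* K) (s : Fin 4 → Fin 4 → G)
    (n : Fin 4 → Fin 4 → ℤ) (m : Fin 4 → ℤ) :
    f (word s n m) = word (fun a b => f (s a b)) n m := by
  simp [word, map_list_prod, List.map_ofFn, Function.comp_def, map_zpow]

theorem word_comm {K : Type*} [CommGroup K] (c : Fin 4 → Fin 4 → K)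
    (n : Fin 4 → Fin 4 → ℤ) (m : Fin 4 → ℤ) :
    word c n m = ∏ a, ∏ b, c a b ^ (m a * n a b) := by
  unfold word
  rw [List.prod_ofFn]
  refine Finset.prod_congr rfl fun a _ => ?_
  rw [List.prod_ofFn, ← Finset.prod_zpow]
  refine Finset.prod_congr rfl fun b _ => ?_
  rw [← zpow_mul, mul_comm]

theorem FR.subgroup {G : Type*} [Group G] (hG : FR G) (H : Subgroup G) : FR H := by
  intro s
  obtain ⟨n, m, h1, h2⟩ := hG (fun a b => (s a b : G))
  refine ⟨n, m, h1, ?_⟩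
  have := word_map H.subtype s n m
  apply H.subtype_injective
  rw [this, map_one]
  exact h2

theorem FR.transfer4 {G : Type*} [Group G] (hG : FR G) {K : Type*} [CommGroup K]
    (Γ : Subgroup (G × K)) (h1 : ∀ c, ((1 : G), c) ∈ Γ → c = 1)
    (s : Fin 4 → Fin 4 → G) (c : Fin 4 → Fin 4 → K) (hs : ∀ a b, (s a b, c a b) ∈ Γ) :
    ∃ e : Fin 4 → Fin 4 → ℤ, (∀ p : ℕ, p.Prime → ∃ a b, ¬ ((p : ℤ) ∣ e a b)) ∧
      ∏ a, ∏ b, c a b ^ e a b = 1 := by
  obtain ⟨n, m, h2, h3⟩ := hG s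
  refine ⟨fun a b => m a * n a b, h2, ?_⟩
  rw [← word_comm c n m]
  apply h1
  have key : (word (fun a b => (⟨(s a b, c a b), hs a b⟩ : Γ)) n m : G × K) =
      (word s n m, word c n m) := by
    have e1 := word_map Γ.subtype (fun a b => (⟨(s a b, c a b), hs a b⟩ : Γ)) n m
    have e2 := word_map (MonoidHom.fst G K) (fun a b => (s a b, c a b)) n m
    have e3 := word_map (MonoidHom.snd G K) (fun a b => (s a b, c a b)) n m
    have e4 : (word (fun a b => (⟨(s a b, c a b), hs a b⟩ : Γ)) n m : G × K) =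
      word (fun a b => (s a b, c a b)) n m := e1
    rw [e4]
    exact Prod.ext e2 e3
  rw [h3] at key
  rw [← key]
  exact (word (fun a b => (⟨(s a b, c a b), hs a b⟩ : Γ)) n m).2

theorem FR.transfer {G : Type*} [Group G] (hG : FR G) {K : Type*} [CommGroup K]
    (Γ : Subgroup (G × K)) (h1 : ∀ c, ((1 : G), c) ∈ Γ → c = 1)
    (s : Fin 16 → G) (c : Fin 16 → K) (hs : ∀ i, (s i, c i) ∈ Γ) :
    ∃ e : Fin 16 → ℤ, (∀ p : ℕ, p.Prime → ∃ i, ¬ ((p : ℤ) ∣ e i)) ∧
      ∏ i, c i ^ e i = 1 := by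
  let φ : Fin 4 × Fin 4 ≃ Fin 16 := finProdFinEquiv
  obtain ⟨e, he, hp⟩ := hG.transfer4 Γ h1 (fun a b => s (φ (a, b))) (fun a b => c (φ (a, b)))
    (fun a b => hs _)
  refine ⟨fun i => e (φ.symm i).1 (φ.symm i).2, ?_, ?_⟩
  · intro p hpp
    obtain ⟨a, b, hab⟩ := he p hpp
    exact ⟨φ (a, b), by simpa using hab⟩
  · rw [← φ.prod_comp, Fintype.prod_prod_type]
    simpa using hp

end Pool.Agent.Q274.LB
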