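import Pool.Agent.Q274.LB.FR

/-!
The class-two group: triples of 2-adic integers with `(x,y)` in a rank-three subgroup.
-/

namespace Pool.Agent.Q274.LB

noncomputable section

/-- triples of 2-adic integers -/
@[ext] structure E3 where
  x : ℤ_[2]
  y : ℤ_[2]
  n : ℤ_[2]

namespace E3

instance : Mul E3 := ⟨fun a b => ⟨a.x + b.x, a.y + b.y, a.n + b.n + (a.x * b.y - b.x * a.y)⟩⟩
instance : One E3 := ⟨⟨0, 0, 0⟩⟩
instance : Inv E3 := ⟨fun a => ⟨-a.x, -a.y, -a.n⟩⟩

@[simp] theorem mul_x (a b : E3) : (a * b).x = a.x + b.x := rfl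
@[simp] theorem mul_y (a b : E3) : (a * b).y = a.y + b.y := rfl
@[simp] theorem mul_n (a b : E3) : (a * b).n = a.n + b.n + (a.x * b.y - b.x * a.y) := rfl
@[simp] theorem one_x : (1 : E3).x = 0 := rfl
@[simp] theorem one_y : (1 : E3).y = 0 := rfl
@[simp] theorem one_n : (1 : E3).n = 0 := rfl
@[simp] theorem inv_x (a : E3) : (a⁻¹).x = -a.x := rfl
@[simp] theorem inv_y (a : E3) : (a⁻¹).y = -a.y := rfl
@[simp] theorem inv_n (a : E3) : (a⁻¹).n = -a.n := rfl

instance : Group E3 := Group.ofLeftAxioms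
  (by intro a b c; ext <;> simp <;> ring)
  (by intro a; ext <;> simp)
  (by intro a; ext <;> simp)

theorem pow_eq (a : E3) (m : ℕ) : a ^ m = ⟨m * a.x, m * a.y, m * a.n⟩ := by
  induction m with
  | zero => ext <;> simp
  | succ m ih =>
    rw [pow_succ, ih]
    ext <;> simp <;> ring

theorem zpow_eq (a : E3) (m : ℤ) : a ^ m = ⟨m * a.x, m * a.y, m * a.n⟩ := by
  cases m with
  | ofNat m => simpa using pow_eq a m
  | negSucc m =>
    rw [zpow_negSucc, pow_eq]
    ext <;> simp <;> ring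

/-- first coordinate as a homomorphism -/
def xh : E3 →* Multiplicative ℤ_[2] where
  toFun a := Multiplicative.ofAdd a.x
  map_one' := rfl
  map_mul' _ _ := rfl

/-- second coordinate as a homomorphism -/
def yh : E3 →* Multiplicative ℤ_[2] where
  toFun a := Multiplicative.ofAdd a.y
  map_one' := rfl
  map_mul' _ _ := rfl

/-- the subgroup x = y = 0 -/
def cenS : Subgroup E3 where
  carrier := {a | a.x = 0 ∧ a.y = 0}
  one_mem' := ⟨rfl, rfl⟩
  mul_mem' := by rintro a b ⟨h1, h2⟩ ⟨h3, h4⟩; simp [h1, h2, h3, h4]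
  inv_mem' := by rintro a ⟨h1, h2⟩; simp [h1, h2]

/-- third coordinate on the centre -/
def nh : cenS →* Multiplicative ℤ_[2] where
  toFun a := Multiplicative.ofAdd a.1.n
  map_one' := rfl
  map_mul' a b := by
    have h1 : a.1.x = 0 := a.2.1
    have h3 : b.1.x = 0 := b.2.1
    have h5 : (a * b).1.n = a.1.n + b.1.n := by
      show (a.1 * b.1).n = _
      rw [mul_n, h1, h3]
      simp
    rw [h5]
    rfl

theorem prod_x (s : Fin 4 → E3) (n : Fin 4 → ℤ) :
    (List.ofFn fun b => s b ^ n b).prod.x = ∑ b, n b * (s b).x := by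
  have := congrArg Multiplicative.toAdd (map_list_prod xh (List.ofFn fun b => s b ^ n b))
  rw [List.map_ofFn, List.prod_ofFn, toAdd_prod] at this
  have h2 : Multiplicative.toAdd (xh (List.ofFn fun b => s b ^ n b).prod) =
    (List.ofFn fun b => s b ^ n b).prod.x := rfl
  rw [h2] at this
  rw [this]
  refine Finset.sum_congr rfl fun b _ => ?_
  show (s b ^ n b).x = _
  rw [zpow_eq]

theorem prod_y (s : Fin 4 → E3) (n : Fin 4 → ℤ) :
    (List.ofFn fun b => s b ^ n b).prod.y = ∑ b, n b * (s b).y := by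
  have := congrArg Multiplicative.toAdd (map_list_prod yh (List.ofFn fun b => s b ^ n b))
  rw [List.map_ofFn, List.prod_ofFn, toAdd_prod] at this
  have h2 : Multiplicative.toAdd (yh (List.ofFn fun b => s b ^ n b).prod) =
    (List.ofFn fun b => s b ^ n b).prod.y := rfl
  rw [h2] at this
  rw [this]
  refine Finset.sum_congr rfl fun b _ => ?_
  show (s b ^ n b).y = _
  rw [zpow_eq]

theorem prod_n (s : Fin 4 → E3) (hx : ∀ b, (s b).x = 0) (hy : ∀ b, (s b).y = 0)
    (n : Fin 4 → ℤ) :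
    (List.ofFn fun b => s b ^ n b).prod.n = ∑ b, n b * (s b).n := by
  let t : Fin 4 → cenS := fun b => ⟨s b, hx b, hy b⟩
  have e1 := map_list_prod cenS.subtype (List.ofFn fun b => t b ^ n b)
  have := congrArg Multiplicative.toAdd (map_list_prod nh (List.ofFn fun b => t b ^ n b))
  rw [List.map_ofFn, List.prod_ofFn, toAdd_prod] at this
  have h2 : Multiplicative.toAdd (nh (List.ofFn fun b => t b ^ n b).prod) =
    ((List.ofFn fun b => t b ^ n b).prod : E3).n := rfl
  have h3 : ((List.ofFn fun b => t b ^ n b).prod : E3) = (List.ofFn fun b => s b ^ n b).prod := by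
    have e2 : cenS.subtype (List.ofFn fun b => t b ^ n b).prod =
      ((List.ofFn fun b => t b ^ n b).prod : E3) := rfl
    rw [← e2, e1, List.map_ofFn]
    rfl
  rw [h2, h3] at this
  rw [this]
  refine Finset.sum_congr rfl fun b _ => ?_
  show (s b ^ n b).n = _
  rw [zpow_eq]

end E3

/-- rational relation with coprime integers -/
theorem relQ (v : Fin 4 → Fin 3 → ℚ) :
    ∃ n : Fin 4 → ℤ, (∀ p : ℕ, p.Prime → ∃ i, ¬ ((p : ℤ) ∣ n i)) ∧
      ∀ j, ∑ i, (n i : ℚ) * v i j = 0 := by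
  classical
  have hli : ¬ LinearIndependent ℚ v := by
    intro h
    have := h.fintype_card_le_finrank
    simp at this
  rw [Fintype.not_linearIndependent_iff] at hli
  obtain ⟨g, hg, i1, hi1⟩ := hli
  -- clear denominators
  have hex : ∃ t : ℕ, ∃ n : Fin 4 → ℤ, n ≠ 0 ∧ (∀ j, ∑ i, (n i : ℚ) * v i j = 0) ∧
      ∑ i, (n i).natAbs = t := by
    let D : ℕ := ∏ i, (g i).den
    have hD : ∀ i, ∃ m : ℤ, (m : ℚ) = D * g i := by
      intro i
      obtain ⟨c, hc⟩ : (g i).den ∣ D := Finset.dvd_prod_of_mem _ (Finset.mem_univ i)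
      refine ⟨c * (g i).num, ?_⟩
      rw [hc]
      push_cast
      have := Rat.mul_den_eq_num (g i)
      rw [← this]; ring
    choose m hm using hD
    have hD0 : (D : ℚ) ≠ 0 := by
      have : D ≠ 0 := Finset.prod_ne_zero_iff.mpr fun i _ => (g i).den_ne_zero
      exact_mod_cast this
    refine ⟨_, m, ?_, ?_, rfl⟩
    · intro h
      have := hm i1
      rw [h] at this
      simp at this
      rcases this with h | h
      · exact hD0 (by exact_mod_cast h)
      · exact hi1 h
    · intro j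
      have := congrFun hg j
      simp only [Finset.sum_apply, Pi.smul_apply, smul_eq_mul, Pi.zero_apply] at this
      calc ∑ i, (m i : ℚ) * v i j = D * ∑ i, g i * v i j := by
            rw [Finset.mul_sum]
            refine Finset.sum_congr rfl fun i _ => ?_
            rw [hm i]; ring
        _ = 0 := by rw [this, mul_zero]
  obtain ⟨n, hn0, hn1, hn2⟩ := Nat.find_spec hex
  refine ⟨n, ?_, hn1⟩
  intro p hp
  by_contra hcon
  push Not at hcon
  choose c hc using hcon
  have hc0 : c ≠ 0 := by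
    rintro rfl
    apply hn0
    funext i
    rw [hc i]; simp
  have hp0 : (p : ℚ) ≠ 0 := by exact_mod_cast hp.ne_zero
  have hlt : ∑ i, (c i).natAbs < Nat.find hex := by
    rw [← hn2]
    obtain ⟨i2, hi2⟩ : ∃ i, c i ≠ 0 := by
      by_contra h; push Not at h; exact hc0 (funext h)
    apply Finset.sum_lt_sum
    · intro i _
      rw [hc i, Int.natAbs_mul]
      simp only [Int.natAbs_natCast]
      exact Nat.le_mul_of_pos_left _ hp.pos
    · refine ⟨i2, Finset.mem_univ _, ?_⟩
      rw [hc i2, Int.natAbs_mul]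
      simp only [Int.natAbs_natCast]
      have : 0 < (c i2).natAbs := Int.natAbs_pos.mpr hi2
      nlinarith [hp.two_le]
  refine Nat.find_min hex hlt ⟨c, hc0, ?_, rfl⟩
  intro j
  have := hn1 j
  have h2 : ∑ i, (n i : ℚ) * v i j = p * ∑ i, (c i : ℚ) * v i j := by
    rw [Finset.mul_sum]
    refine Finset.sum_congr rfl fun i _ => ?_
    rw [hc i]; push_cast; ring
  rw [h2] at this
  exact (mul_eq_zero.mp this).resolve_left hp0

/-- the rank three lattice J -/
def inJ (α β : ℚ_[2]) (x y : ℚ_[2]) : Prop :=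
  ∃ a b c : ℚ, x = a + c * α ∧ y = b + c * β

/-- the rank three lattice M -/
def inM (α β : ℚ_[2]) (n : ℚ_[2]) : Prop := ∃ d e f : ℚ, n = d + e * α + f * β

/-- the group -/
def GG (α β : ℚ_[2]) : Subgroup E3 where
  carrier := {g | inJ α β g.x g.y ∧ inM α β g.n ∧ ∃ m : ℤ_[2], g.n = g.x * g.y + 2 * m}
  one_mem' := ⟨⟨0, 0, 0, by simp, by simp⟩, ⟨0, 0, 0, by simp⟩, ⟨0, by simp⟩⟩
  mul_mem' := by
    rintro g h ⟨⟨a, b, c, h1, h2⟩, ⟨d, e, f, h3⟩, ⟨m, h4⟩⟩ ⟨⟨a', b', c', h1', h2'⟩, ⟨d', e', f', h3'⟩, ⟨m', h4'⟩⟩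
    refine ⟨⟨a + a', b + b', c + c', ?_, ?_⟩,
      ⟨d + d' + (a * b' - a' * b), e + e' + (c * b' - c' * b), f + f' + (a * c' - a' * c), ?_⟩,
      ⟨m + m' - h.x * g.y, ?_⟩⟩
    · simp only [E3.mul_x, PadicInt.coe_add, h1, h1']; push_cast; ring
    · simp only [E3.mul_y, PadicInt.coe_add, h2, h2']; push_cast; ring
    · simp only [E3.mul_n, PadicInt.coe_add, PadicInt.coe_sub, PadicInt.coe_mul, h1, h1', h2, h2',
        h3, h3']; push_cast; ring
    · simp only [E3.mul_n, E3.mul_x, E3.mul_y, h4, h4']; ring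
  inv_mem' := by
    rintro g ⟨⟨a, b, c, h1, h2⟩, ⟨d, e, f, h3⟩, ⟨m, h4⟩⟩
    refine ⟨⟨-a, -b, -c, ?_, ?_⟩, ⟨-d, -e, -f, ?_⟩, ⟨-m - g.x * g.y, ?_⟩⟩
    · simp only [E3.inv_x, PadicInt.coe_neg, h1]; push_cast; ring
    · simp only [E3.inv_y, PadicInt.coe_neg, h2]; push_cast; ring
    · simp only [E3.inv_n, PadicInt.coe_neg, h3]; push_cast; ring
    · simp only [E3.inv_n, E3.inv_x, E3.inv_y, h4]; ring

theorem FR_GG (α β : ℚ_[2]) : FR (GG α β) := by
  intro s
  choose A B C hA hB using fun a b => (s a b).2.1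
  have h1 := fun a => relQ (fun b => ![A a b, B a b, C a b])
  choose n hn1 hn2 using h1
  set yy : Fin 4 → GG α β := fun a => (List.ofFn fun b => s a b ^ n a b).prod with hyy
  have hcoe : ∀ a, ((yy a : GG α β) : E3) = (List.ofFn fun b => (s a b : E3) ^ n a b).prod := by
    intro a
    have := map_list_prod (GG α β).subtype (List.ofFn fun b => s a b ^ n a b)
    rw [List.map_ofFn] at this
    exact this
  have hx : ∀ a, (yy a : E3).x = 0 := by
    intro a
    rw [hcoe, E3.prod_x]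
    have e0 := hn2 a 0
    have e2 := hn2 a 2
    apply PadicInt.ext
    simp only [Matrix.cons_val_zero, Matrix.cons_val] at e0 e2
    have e0' : ∑ i, ((n a i : ℤ) : ℚ_[2]) * ((A a i : ℚ) : ℚ_[2]) = 0 := by
      have := congrArg (fun q : ℚ => (q : ℚ_[2])) e0
      push_cast at this
      exact this
    have e2' : ∑ i, ((n a i : ℤ) : ℚ_[2]) * ((C a i : ℚ) : ℚ_[2]) = 0 := by
      have := congrArg (fun q : ℚ => (q : ℚ_[2])) e2
      push_cast at this
      exact this
    calc ((∑ b, (n a b : ℤ_[2]) * (s a b : E3).x : ℤ_[2]) : ℚ_[2])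
        = ∑ b, (n a b : ℚ_[2]) * ((s a b : E3).x : ℚ_[2]) := by
          rw [PadicInt.coe_sum]; push_cast; rfl
      _ = ∑ b, ((n a b : ℚ_[2]) * (A a b : ℚ_[2]) + (n a b : ℚ_[2]) * (C a b : ℚ_[2]) * α) := by
          refine Finset.sum_congr rfl fun b _ => ?_
          rw [hA a b]; ring
      _ = 0 := by rw [Finset.sum_add_distrib, ← Finset.sum_mul, e0', e2']; simp
  have hy : ∀ a, (yy a : E3).y = 0 := by
    intro a
    rw [hcoe, E3.prod_y]
    have e0 := hn2 a 1
    have e2 := hn2 a 2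
    apply PadicInt.ext
    simp only [Matrix.cons_val_one, Matrix.cons_val] at e0 e2
    have e0' : ∑ i, ((n a i : ℤ) : ℚ_[2]) * ((B a i : ℚ) : ℚ_[2]) = 0 := by
      have := congrArg (fun q : ℚ => (q : ℚ_[2])) e0
      push_cast at this
      exact this
    have e2' : ∑ i, ((n a i : ℤ) : ℚ_[2]) * ((C a i : ℚ) : ℚ_[2]) = 0 := by
      have := congrArg (fun q : ℚ => (q : ℚ_[2])) e2
      push_cast at this
      exact this
    calc ((∑ b, (n a b : ℤ_[2]) * (s a b : E3).y : ℤ_[2]) : ℚ_[2])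
        = ∑ b, (n a b : ℚ_[2]) * ((s a b : E3).y : ℚ_[2]) := by
          rw [PadicInt.coe_sum]; push_cast; rfl
      _ = ∑ b, ((n a b : ℚ_[2]) * (B a b : ℚ_[2]) + (n a b : ℚ_[2]) * (C a b : ℚ_[2]) * β) := by
          refine Finset.sum_congr rfl fun b _ => ?_
          rw [hB a b]; ring
      _ = 0 := by rw [Finset.sum_add_distrib, ← Finset.sum_mul, e0', e2']; simp
  choose d e f hd using fun a => (yy a).2.2.1
  obtain ⟨m, hm1, hm2⟩ := relQ (fun a => ![d a, e a, f a])
  refine ⟨n, m, ?_, ?_⟩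
  · intro p hp
    obtain ⟨a, ha⟩ := hm1 p hp
    obtain ⟨b, hb⟩ := hn1 a p hp
    refine ⟨a, b, fun h => ?_⟩
    rcases (Nat.prime_iff_prime_int.mp hp).dvd_or_dvd h with h | h
    · exact ha h
    · exact hb h
  · have hw : word s n m = (List.ofFn fun a => yy a ^ m a).prod := rfl
    rw [hw]
    apply Subtype.ext
    have hcoe2 : (((List.ofFn fun a => yy a ^ m a).prod : GG α β) : E3) =
        (List.ofFn fun a => (yy a : E3) ^ m a).prod := by
      have := map_list_prod (GG α β).subtype (List.ofFn fun a => yy a ^ m a)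
      rw [List.map_ofFn] at this
      exact this
    rw [hcoe2]
    ext
    · rw [E3.prod_x]; simp [hx]
    · rw [E3.prod_y]; simp [hy]
    · rw [E3.prod_n _ hx hy]
      apply PadicInt.ext
      have e0 := hm2 0
      have e1 := hm2 1
      have e2 := hm2 2
      simp only [Matrix.cons_val_zero, Matrix.cons_val_one, Matrix.cons_val] at e0 e1 e2
      have e0' : ∑ i, ((m i : ℤ) : ℚ_[2]) * ((d i : ℚ) : ℚ_[2]) = 0 := by
        have := congrArg (fun q : ℚ => (q : ℚ_[2])) e0
        push_cast at this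
        exact this
      have e1' : ∑ i, ((m i : ℤ) : ℚ_[2]) * ((e i : ℚ) : ℚ_[2]) = 0 := by
        have := congrArg (fun q : ℚ => (q : ℚ_[2])) e1
        push_cast at this
        exact this
      have e2' : ∑ i, ((m i : ℤ) : ℚ_[2]) * ((f i : ℚ) : ℚ_[2]) = 0 := by
        have := congrArg (fun q : ℚ => (q : ℚ_[2])) e2
        push_cast at this
        exact this
      calc ((∑ b, (m b : ℤ_[2]) * (yy b : E3).n : ℤ_[2]) : ℚ_[2])
          = ∑ b, (m b : ℚ_[2]) * ((yy b : E3).n : ℚ_[2]) := by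
            rw [PadicInt.coe_sum]; push_cast; rfl
        _ = ∑ b, ((m b : ℚ_[2]) * (d b : ℚ_[2]) + (m b : ℚ_[2]) * (e b : ℚ_[2]) * α +
            (m b : ℚ_[2]) * (f b : ℚ_[2]) * β) := by
            refine Finset.sum_congr rfl fun b _ => ?_
            rw [hd b]; ring
        _ = 0 := by
          rw [Finset.sum_add_distrib, Finset.sum_add_distrib, ← Finset.sum_mul, ← Finset.sum_mul,
            e0', e1', e2']; simp

end

end Pool.Agent.Q274.LB
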