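import Pool.Agent.Q274.LB.LemX

/-!
Unipotency of (pseudo-)central elements.
-/

namespace Pool.Agent.Q274.LB

open Polynomial

section A

variable {G : Type*} [Group G] {R : Type*} [CommRing R] {V : Type*} [AddCommGroup V] [Module R V]
  (ρ : G →* Module.End R V) (π : G → V) (hπ : ∀ g h, π (g * h) = π g + ρ g (π h))
  (z : G) (hc : ∀ h, Commute (ρ h) (ρ z)) (hz : ∀ h, π (z * h) = π (h * z))

include hπ hz in
theorem rel (h : G) : ρ h (π z) = π z + (ρ z - 1) (π h) := by
  have h1 := hz h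
  rw [hπ, hπ] at h1
  rw [LinearMap.sub_apply, Module.End.one_apply]
  have : ρ h (π z) = π z + ρ z (π h) - π h := by rw [h1]; abel
  rw [this]; abel

include hc in
theorem hcomm_aeval {k : Type*} [CommRing k] [Algebra k (Module.End R V)] (g : G) (f : k[X]) :
    Commute (ρ g) (aeval (ρ z) f) := by
  induction f using Polynomial.induction_on' with
  | add p q hp hq => rw [map_add]; exact hp.add_right hq
  | monomial n a =>
    rw [aeval_monomial]
    have h1 : Commute (ρ g) (algebraMap k (Module.End R V) a) := (Algebra.commutes a (ρ g)).symm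
    exact h1.mul_right ((hc g).pow_right n)

include hπ hc hz in
theorem stepA1 (hG : FR G) {k : Type*} [CommRing k] [IsDomain k] [Algebra k (Module.End R V)]
    (hsurj : ∀ f : k[X], ∃ h, π h = aeval (ρ z) f (π z)) :
    ∃ F : k[X], F ≠ 0 ∧ aeval (ρ z) F (π z) = 0 := by
  by_contra hcon
  have hu : ∀ F : k[X], aeval (ρ z) F (π z) = 0 → F = 0 := by
    intro F hF
    by_contra h
    exact hcon ⟨F, h, hF⟩
  choose g hg using fun i : Fin 16 => hsurj (euP (X - 1) (i : ℕ))
  obtain ⟨e, he, hp⟩ := lemX ρ ((aeval (ρ z) : k[X] →ₐ[k] Module.End R V) : k[X] →+* _) hG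
    (fun g b => hcomm_aeval ρ z hc g b) (π z) hu (fun i : Fin 16 => eu (X - 1) (i : ℕ))
    (fun i h => by
      have := (eu_poly (k := k) (i : ℕ)).2
      rw [h] at this; simp at this) g (fun i => by
      rw [rel ρ π hπ z hz, hg i]
      show _ = aeval (ρ z) (eu (X - 1) (i : ℕ)) (π z)
      unfold eu
      simp only [map_add, map_one, map_mul, map_sub, aeval_X, LinearMap.add_apply,
        Module.End.one_apply, Module.End.mul_apply])
  obtain ⟨i0, hi0⟩ := he 2 Nat.prime_two
  have hi1 : e i0 ≠ 0 := by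
    intro h; rw [h] at hi0; simp at hi0
  exact coprime_contra _ (fun i j hij => eu_coprime' _ (fun h => hij (Fin.ext h)))
    (fun i => eu_poly_nu _) e i0 hi1 hp

include hπ hc hz in
theorem stepA2 (hG : FR G) {k : Type*} [CommRing k] [IsDomain k] [Algebra k (Module.End R V)]
    (hsurj : ∀ f : k[X], ∃ h, π h = aeval (ρ z) f (π z)) :
    ∃ (n : ℕ) (N : k), N ≠ 0 ∧ ∀ l : k, ∃ h, ρ h (((ρ z - 1) ^ n) (π z)) =
      algebraMap k (Module.End R V) (1 - l * N) (((ρ z - 1) ^ n) (π z)) := by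
  obtain ⟨F, hF0, hF⟩ := stepA1 ρ π hπ z hc hz hG hsurj
  obtain ⟨F1, hF1, hnd⟩ := Polynomial.exists_eq_pow_rootMultiplicity_mul_and_not_dvd F hF0 1
  set n := rootMultiplicity 1 F with hn
  refine ⟨n, F1.eval 1, ?_, ?_⟩
  · intro h
    exact hnd (dvd_iff_isRoot.mpr h)
  set u' := ((ρ z - 1) ^ n) (π z) with hu'
  have e1 : aeval (ρ z) ((X - C (1 : k)) ^ n) = (ρ z - 1) ^ n := by
    simp
  have hu1 : aeval (ρ z) F1 u' = 0 := by
    rw [hu', ← e1, ← Module.End.mul_apply, ← map_mul, mul_comm, ← hF1]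
    exact hF
  intro l
  set g := F1 /ₘ (X - C (1 : k)) with hg
  have hdiv : F1 = C (F1.eval 1) + (X - C 1) * g := by
    have := modByMonic_add_div F1 (X - C (1 : k))
    rw [modByMonic_X_sub_C_eq_C_eval] at this
    exact this.symm
  obtain ⟨h, hh⟩ := hsurj (C l * g)
  refine ⟨h, ?_⟩
  have hcm : ρ h u' = ((ρ z - 1) ^ n) (ρ h (π z)) := by
    have : Commute (ρ h) ((ρ z - 1) ^ n) :=
      ((hc h).sub_right (Commute.one_right _)).pow_right n
    exact congrArg (fun f : Module.End R V => f (π z)) this.eq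
  rw [hcm, rel ρ π hπ z hz, hh, map_add]
  have e2 : ((ρ z - 1) ^ n) ((ρ z - 1) (aeval (ρ z) (C l * g) (π z))) =
      aeval (ρ z) (C l * ((X - C 1) * g)) u' := by
    rw [hu', ← e1]
    have e3 : ρ z - 1 = aeval (ρ z) (X - C (1 : k)) := by simp
    rw [e3, ← Module.End.mul_apply, ← Module.End.mul_apply, ← Module.End.mul_apply, ← map_mul,
      ← map_mul, ← map_mul]
    have e5 : (X - C (1 : k)) ^ n * (X - C 1) * (C l * g) =
        C l * ((X - C 1) * g) * (X - C 1) ^ n := by ring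
    rw [e5]
  have e4 : (X - C 1) * g = F1 - C (F1.eval 1) := by
    nth_rewrite 1 [hdiv]; ring
  rw [e2, e4, mul_sub, map_sub, LinearMap.sub_apply, map_mul, Module.End.mul_apply, hu1, map_zero,
    zero_sub, ← C_mul, aeval_C, map_sub, LinearMap.sub_apply, map_one, Module.End.one_apply]
  abel

include hπ hc hz in
/-- unipotency over a field -/
theorem lemA_field (hG : FR G) {k : Type*} [Field k] [Algebra k (Module.End R V)]
    (hsurj : ∀ f : k[X], ∃ h, π h = aeval (ρ z) f (π z)) :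
    ∃ n : ℕ, ((ρ z - 1) ^ n) (π z) = 0 := by
  obtain ⟨n, N, hN, h⟩ := stepA2 ρ π hπ z hc hz hG hsurj
  obtain ⟨g, hg⟩ := h N⁻¹
  refine ⟨n, ?_⟩
  rw [inv_mul_cancel₀ hN, sub_self, map_zero, LinearMap.zero_apply] at hg
  have : ρ g⁻¹ (ρ g (((ρ z - 1) ^ n) (π z))) = 0 := by rw [hg, map_zero]
  rwa [← Module.End.mul_apply, ← map_mul, inv_mul_cancel, map_one, Module.End.one_apply] at this

include hπ hc hz in
/-- unipotency in the torsion-free case -/
theorem lemA_int (hG : FR G) (htf : ∀ (n : ℤ) (v : V), n ≠ 0 → n • v = 0 → v = 0)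
    (hsurj : ∀ f : ℤ[X], ∃ h, π h = aeval (ρ z) f (π z)) :
    ∃ n : ℕ, ((ρ z - 1) ^ n) (π z) = 0 := by
  obtain ⟨n, N, hN, h⟩ := stepA2 ρ π hπ z hc hz hG hsurj
  refine ⟨n, ?_⟩
  by_contra hu
  set u' := ((ρ z - 1) ^ n) (π z) with hu'
  have hN2 : 0 < N ^ 2 := by positivity
  choose g hg using fun i : Fin 16 => h (-N * euP (N ^ 2) (i : ℕ))
  obtain ⟨e, he, hp⟩ := lemX ρ (algebraMap ℤ (Module.End R V)) hG
    (fun g b => (Algebra.commutes b (ρ g)).symm) u' (by
      intro b hb
      by_contra hb0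
      apply hu
      apply htf b _ hb0
      simpa using hb) (fun i : Fin 16 => eu (N ^ 2) (i : ℕ))
    (fun i => by
      have := (eu_int _ hN2 (i : ℕ)).2
      intro h
      omega) g (fun i => by
      rw [hg i]
      congr 2
      unfold eu
      ring)
  obtain ⟨i0, hi0⟩ := he 2 Nat.prime_two
  have hi1 : e i0 ≠ 0 := by
    intro h; rw [h] at hi0; simp at hi0
  refine coprime_contra _ (fun i j hij => eu_coprime' _ (fun h => hij (Fin.ext h)))
    (fun i hiu => ?_) e i0 hi1 hp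
  have := (eu_int _ hN2 (i : ℕ)).2
  rcases Int.isUnit_iff.mp hiu with h | h <;> omega

include hπ hc hz in
/-- consequence: unipotency on the values of `π` -/
theorem unip_of (n : ℕ) (hn : ((ρ z - 1) ^ n) (π z) = 0) (h : G) :
    ((ρ z - 1) ^ (n + 1)) (π h) = 0 := by
  have h1 := rel ρ π hπ z hz h
  have h2 : (ρ z - 1) (π h) = ρ h (π z) - π z := by rw [h1]; abel
  have hcm : ((ρ z - 1) ^ n) (ρ h (π z)) = ρ h (((ρ z - 1) ^ n) (π z)) := by
    have : Commute (ρ h) ((ρ z - 1) ^ n) :=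
      ((hc h).sub_right (Commute.one_right _)).pow_right n
    exact (congrArg (fun f : Module.End R V => f (π z)) this.eq).symm
  rw [pow_succ, Module.End.mul_apply, h2, map_sub, hcm, hn, map_zero, sub_zero]

end A

end Pool.Agent.Q274.LB
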