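import Pool.Agent.Q274.LB.LemA

/-!
Uniform bound for the unipotency of (pseudo-)central elements in characteristic two.
-/

namespace Pool.Agent.Q274.LB

open Polynomial

section B

variable {G : Type*} [Group G] {V : Type*} [AddCommGroup V] [Module (ZMod 2) V]
  (ρ : G →* Module.End (ZMod 2) V) (π : G → V) (hπ : ∀ g h, π (g * h) = π g + ρ g (π h))
  (z : G) (hc : ∀ h, Commute (ρ h) (ρ z)) (hz : ∀ h, π (z * h) = π (h * z))

theorem two_kill (e : ℤ) (he : (2 : ℤ) ∣ e) (v : V) : e • v = 0 := by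
  obtain ⟨c, rfl⟩ := he
  have h2 : (2 : ZMod 2) = 0 := by decide
  have : (2 : ℤ) • (c • v) = 0 := by
    rw [two_smul, ← two_smul (ZMod 2), h2, zero_smul]
  rw [mul_smul]
  exact this

include hπ hc hz in
theorem triv_act (n : ℕ) (hn : ((ρ z - 1) ^ n) (π z) = 0) (r : ℕ) (hr : n ≤ 2 * r + 1)
    (f f' : (ZMod 2)[X]) (g : G) (hg : π g = aeval (ρ z) f (((ρ z - 1) ^ r) (π z))) :
    ρ g (aeval (ρ z) f' (((ρ z - 1) ^ r) (π z))) =
      aeval (ρ z) f' (((ρ z - 1) ^ r) (π z)) := by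
  have e0 : ∀ m : ℕ, (ρ z - 1) ^ m = aeval (ρ z) ((X - 1 : (ZMod 2)[X]) ^ m) := by intro m; simp
  have e3 : ρ z - 1 = aeval (ρ z) (X - 1 : (ZMod 2)[X]) := by simp
  have c1 : ρ g (aeval (ρ z) f' (((ρ z - 1) ^ r) (π z))) =
      aeval (ρ z) (f' * (X - 1) ^ r) (ρ g (π z)) := by
    rw [e0 r, ← Module.End.mul_apply (aeval (ρ z) f'), ← map_mul]
    exact congrArg (fun F : Module.End (ZMod 2) V => F (π z))
      (hcomm_aeval ρ z hc g (f' * (X - 1) ^ r)).eq
  have c2 : (aeval (ρ z) (f' * (X - 1) ^ r)) ((ρ z - 1) (π g)) = 0 := by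
    rw [hg, e0 r, e3, ← Module.End.mul_apply, ← Module.End.mul_apply, ← Module.End.mul_apply,
      ← map_mul, ← map_mul, ← map_mul]
    have e5 : f' * (X - 1) ^ r * (X - 1) * (f * (X - 1) ^ r) =
        (f' * f * (X - 1) ^ (2 * r + 1 - n)) * (X - 1) ^ n := by
      have : (X - 1 : (ZMod 2)[X]) ^ (2 * r + 1) = (X - 1) ^ (2 * r + 1 - n) * (X - 1) ^ n := by
        rw [← pow_add]; congr 1; omega
      calc f' * (X - 1) ^ r * (X - 1) * (f * (X - 1) ^ r)
          = f' * f * (X - 1) ^ (2 * r + 1) := by ring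
        _ = _ := by rw [this]; ring
    rw [← mul_assoc (f' * (X - 1) ^ r * (X - 1)) f] at *
    first
      | rw [mul_assoc (f' * (X - 1) ^ r * (X - 1)) f, e5]
      | rw [e5]
    rw [map_mul, Module.End.mul_apply, ← e0 n, hn, map_zero]
  rw [c1, rel ρ π hπ z hz, map_add, c2, add_zero, e0 r, map_mul, Module.End.mul_apply]

include hπ hc hz in
theorem lemB (hG : FR G) (hsurj : ∀ f : (ZMod 2)[X], ∃ h, π h = aeval (ρ z) f (π z)) :
    ((ρ z - 1) ^ (31 : ℕ)) (π z) = 0 := by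
  classical
  have hex := lemA_field ρ π hπ z hc hz hG hsurj
  set n := Nat.find hex with hn
  have hn0 : ((ρ z - 1) ^ n) (π z) = 0 := Nat.find_spec hex
  by_cases hlt : n ≤ 31
  · have : (ρ z - 1) ^ 31 = (ρ z - 1) ^ (31 - n) * (ρ z - 1) ^ n := by
      rw [← pow_add]; congr 1; omega
    rw [this, Module.End.mul_apply, hn0, map_zero]
  exfalso
  push Not at hlt
  have hmin : ((ρ z - 1) ^ (n - 1)) (π z) ≠ 0 := fun h =>
    Nat.find_min hex (m := n - 1) (by omega) h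
  have h10 : π 1 = 0 := by
    have := hπ 1 1
    rw [mul_one, map_one, Module.End.one_apply] at this
    simpa using this
  set r := n - 16 with hr
  set w := ((ρ z - 1) ^ r) (π z) with hw
  have hact := fun (f f' : (ZMod 2)[X]) (g : G) (hg : π g = aeval (ρ z) f w) =>
    triv_act ρ π hπ z hc hz n hn0 r (by omega) f f' g hg
  let Γ : Subgroup (G × Multiplicative V) :=
    { carrier := {x | (∃ f : (ZMod 2)[X], π x.1 = aeval (ρ z) f w) ∧
        x.2 = Multiplicative.ofAdd (π x.1)}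
      one_mem' := ⟨⟨0, by simp [h10]⟩, by simp [h10]⟩
      mul_mem' := by
        rintro ⟨g, c⟩ ⟨h, d⟩ ⟨⟨f, hf⟩, h1⟩ ⟨⟨f', hf'⟩, h2⟩
        simp only at hf h1 hf' h2
        have h3 : π (g * h) = π g + π h := by
          rw [hπ, hf', hact f f' g hf]
        refine ⟨⟨f + f', ?_⟩, ?_⟩
        · show π (g * h) = _
          rw [h3, hf, hf', map_add, LinearMap.add_apply]
        · show c * d = Multiplicative.ofAdd (π (g * h))
          rw [h3, h1, h2]; rfl
      inv_mem' := by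
        rintro ⟨g, c⟩ ⟨⟨f, hf⟩, h1⟩
        simp only at hf h1
        have h3 : π g⁻¹ = - π g := by
          have h4 := hπ g⁻¹ g
          rw [inv_mul_cancel, h10] at h4
          have h5 : ρ g⁻¹ (π g) = π g := by
            have h6 := hact f f g hf
            rw [← hf] at h6
            have h7 : ρ g⁻¹ (ρ g (π g)) = ρ g⁻¹ (π g) := by rw [h6]
            rw [← Module.End.mul_apply, ← map_mul, inv_mul_cancel, map_one,
              Module.End.one_apply] at h7
            exact h7.symm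
          rw [h5] at h4
          exact eq_neg_of_add_eq_zero_left h4.symm
        refine ⟨⟨-f, ?_⟩, ?_⟩
        · show π g⁻¹ = _
          rw [h3, hf, map_neg, LinearMap.neg_apply]
        · show c⁻¹ = Multiplicative.ofAdd (π g⁻¹)
          rw [h3, h1]; rfl }
  choose g hg using fun i : Fin 16 => hsurj ((X - 1) ^ (r + (i : ℕ)))
  have hgv : ∀ i, π (g i) = ((ρ z - 1) ^ (r + (i : ℕ))) (π z) := by
    intro i; rw [hg i]; simp
  have hg' : ∀ i, π (g i) = aeval (ρ z) ((X - 1 : (ZMod 2)[X]) ^ (i : ℕ)) w := by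
    intro i
    rw [hgv i, hw, add_comm, pow_add, Module.End.mul_apply]
    simp
  obtain ⟨e, he, hp⟩ := hG.transfer Γ (by
      rintro c ⟨-, h⟩
      simp only [h10] at h
      simpa using h) g
    (fun i => Multiplicative.ofAdd (π (g i))) (fun i => ⟨⟨_, hg' i⟩, rfl⟩)
  have hsum : ∑ i, e i • π (g i) = 0 := by
    have := congrArg Multiplicative.toAdd hp
    simpa [toAdd_prod] using this
  -- minimal odd index
  obtain ⟨i1, hi1⟩ := he 2 Nat.prime_two
  obtain ⟨i0, hi0m, hi0lt⟩ : ∃ i0 : Fin 16, ¬ ((2 : ℕ) : ℤ) ∣ e i0 ∧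
      ∀ i, i < i0 → ((2 : ℕ) : ℤ) ∣ e i := by
    have hwf : WellFounded ((· < ·) : Fin 16 → Fin 16 → Prop) := wellFounded_lt
    obtain ⟨m, hm, hm2⟩ := hwf.has_min {i | ¬ ((2 : ℕ) : ℤ) ∣ e i} ⟨i1, hi1⟩
    refine ⟨m, hm, fun i hi => ?_⟩
    by_contra h
    exact hm2 i h hi
  have h7 : ((ρ z - 1) ^ (15 - (i0 : ℕ))) (∑ i, e i • π (g i)) = 0 := by rw [hsum, map_zero]
  rw [map_sum, Finset.sum_eq_single i0] at h7
  · rw [map_zsmul, hgv, ← Module.End.mul_apply, ← pow_add] at h7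
    have e1 : 15 - (i0 : ℕ) + (r + (i0 : ℕ)) = n - 1 := by omega
    rw [e1] at h7
    apply hmin
    have hodd : e i0 = 2 * (e i0 / 2) + 1 := by omega
    rw [hodd, add_smul, one_smul, two_kill _ ⟨_, rfl⟩, zero_add] at h7
    exact h7
  · intro i _ hii
    rcases lt_or_gt_of_ne hii with h | h
    · rw [map_zsmul]
      exact two_kill _ (hi0lt i h) _
    · rw [map_zsmul, hgv, ← Module.End.mul_apply, ← pow_add]
      have e1 : 15 - (i0 : ℕ) + (r + (i : ℕ)) = (15 - (i0 : ℕ) + (r + (i : ℕ)) - n) + n := by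
        have : (i0 : ℕ) < i := h
        omega
      rw [e1, pow_add, Module.End.mul_apply, hn0, map_zero, smul_zero]
  · intro h; exact absurd (Finset.mem_univ _) h

include hπ hc hz in
/-- the 32nd power acts trivially -/
theorem pow32 (hG : FR G) (hsurj : ∀ f : (ZMod 2)[X], ∃ h, π h = aeval (ρ z) f (π z))
    (h : G) : ρ (z ^ 32) (π h) = π h := by
  obtain ⟨n, hn31, hn5⟩ : ∃ n : ℕ, n = 31 ∧ 2 ^ 5 = n + 1 := ⟨31, rfl, by norm_num⟩
  have h0 : ((ρ z - 1) ^ n) (π z) = 0 := by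
    rw [hn31]; exact lemB ρ π hπ z hc hz hG hsurj
  have h1 := unip_of ρ π hπ z hc hz n h0 h
  have h2 : (ρ z - 1) ^ (n + 1 : ℕ) = ρ z ^ (n + 1 : ℕ) - 1 := by
    have h3 : (X - 1 : (ZMod 2)[X]) ^ 2 ^ 5 = X ^ 2 ^ 5 - 1 ^ 2 ^ 5 := sub_pow_char_pow _ _ _
    rw [hn5] at h3
    have h4 := congrArg (aeval (ρ z)) h3
    rw [map_pow, map_sub, map_sub, map_pow, aeval_X, map_one, one_pow, map_one] at h4
    exact h4
  rw [h2, LinearMap.sub_apply, Module.End.one_apply, sub_eq_zero] at h1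
  have h6 : 32 = n + 1 := by omega
  rw [h6, map_pow]
  exact h1

end B

end Pool.Agent.Q274.LB
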