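import Pool.Agent.Q274.LB.FR

/-!
Transfer of word relations to multiplicative relations between scalars.
-/

namespace Pool.Agent.Q274.LB

open Polynomial

section X

variable {G : Type*} [Group G] {k : Type*} [CommRing k] {V : Type*} [AddCommGroup V] [Module k V]
  (ρ : G →* Module.End k V) {B : Type*} [CommRing B] [IsDomain B] (ψ : B →+* Module.End k V)

/-- pairs (g, Q/P) with P g u = Q u -/
def gam (hcomm : ∀ g b, Commute (ρ g) (ψ b)) (u : V) : Subgroup (G × (FractionRing B)ˣ) where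
  carrier := {x | ∃ P Q : B, P ≠ 0 ∧ Q ≠ 0 ∧ ψ P (ρ x.1 u) = ψ Q u ∧
    (x.2 : FractionRing B) * algebraMap B _ P = algebraMap B _ Q}
  one_mem' := ⟨1, 1, one_ne_zero, one_ne_zero, by simp, by simp⟩
  mul_mem' := by
    rintro ⟨g, c⟩ ⟨h, d⟩ ⟨P, Q, hP, hQ, h1, h2⟩ ⟨P', Q', hP', hQ', h3, h4⟩
    refine ⟨P * P', Q * Q', mul_ne_zero hP hP', mul_ne_zero hQ hQ', ?_, ?_⟩
    · simp only [Prod.mk_mul_mk, map_mul, Module.End.mul_apply] at *
      have c1 : ψ P' (ρ g (ρ h u)) = ρ g (ψ P' (ρ h u)) := by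
        have := hcomm g P'
        exact (congrArg (fun f : Module.End k V => f (ρ h u)) this.eq).symm
      have c2 : ρ g (ψ Q' u) = ψ Q' (ρ g u) := by
        have := hcomm g Q'
        exact (congrArg (fun f : Module.End k V => f u) this.eq)
      have swap : ∀ a b (w : V), ψ a (ψ b w) = ψ b (ψ a w) := fun a b w =>
        congrArg (fun f : Module.End k V => f w)
          (show ψ a * ψ b = ψ b * ψ a by rw [← map_mul, ← map_mul, mul_comm])
      have c3 : ψ P (ψ Q' (ρ g u)) = ψ Q' (ψ P (ρ g u)) := swap _ _ _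
      have c4 : ψ Q (ψ Q' u) = ψ Q' (ψ Q u) := swap _ _ _
      rw [c1, h3, c2, c3, h1, c4]
    · simp only [Prod.mk_mul_mk, map_mul, Units.val_mul] at *
      rw [← h2, ← h4]; ring
  inv_mem' := by
    rintro ⟨g, c⟩ ⟨P, Q, hP, hQ, h1, h2⟩
    refine ⟨Q, P, hQ, hP, ?_, ?_⟩
    · simp only [Prod.inv_mk] at *
      have c1 : ψ Q (ρ g⁻¹ u) = ρ g⁻¹ (ψ Q u) := by
        have := hcomm g⁻¹ Q
        exact (congrArg (fun f : Module.End k V => f u) this.eq).symm
      have c2 : ρ g⁻¹ (ψ P (ρ g u)) = ψ P (ρ g⁻¹ (ρ g u)) := by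
        have := hcomm g⁻¹ P
        exact (congrArg (fun f : Module.End k V => f (ρ g u)) this.eq)
      rw [c1, ← h1, c2, ← Module.End.mul_apply (ρ g⁻¹), ← map_mul]
      simp
    · simp only [Prod.inv_mk] at *
      rw [← h2, ← mul_assoc, Units.inv_mul, one_mul]

theorem lemX (hG : FR G) (hcomm : ∀ g b, Commute (ρ g) (ψ b)) (u : V)
    (hu : ∀ b, ψ b u = 0 → b = 0) (E : Fin 16 → B) (hE : ∀ i, E i ≠ 0) (g : Fin 16 → G)
    (hg : ∀ i, ρ (g i) u = ψ (E i) u) :
    ∃ e : Fin 16 → ℤ, (∀ p : ℕ, p.Prime → ∃ i, ¬ ((p : ℤ) ∣ e i)) ∧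
      ∏ i, E i ^ (e i).toNat = ∏ i, E i ^ (-e i).toNat := by
  have hinj : Function.Injective (algebraMap B (FractionRing B)) :=
    IsFractionRing.injective B (FractionRing B)
  have hE' : ∀ i, algebraMap B (FractionRing B) (E i) ≠ 0 := fun i h =>
    hE i (hinj (by rw [h, map_zero]))
  obtain ⟨e, he, hp⟩ := hG.transfer (gam ρ ψ hcomm u) (by
      rintro c ⟨P, Q, hP, hQ, h1, h2⟩
      simp only [map_one, Module.End.one_apply] at h1
      have : P = Q := by
        have : ψ (P - Q) u = 0 := by rw [map_sub, LinearMap.sub_apply, h1, sub_self]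
        exact sub_eq_zero.mp (hu _ this)
      subst this
      have hP' : algebraMap B (FractionRing B) P ≠ 0 := fun h => hP (hinj (by rw [h, map_zero]))
      apply Units.ext
      simpa [hP'] using h2) g
    (fun i => Units.mk0 (algebraMap B (FractionRing B) (E i)) (hE' i)) (fun i =>
      ⟨1, E i, one_ne_zero, hE i, by simpa using hg i, by simp⟩)
  refine ⟨e, he, ?_⟩
  apply hinj
  have h2 : ∏ i, (algebraMap B (FractionRing B) (E i)) ^ (e i) = 1 := by
    have := congrArg (fun x : (FractionRing B)ˣ => (x : FractionRing B)) hp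
    simpa [Units.coe_prod] using this
  simp only [map_prod, map_pow]
  have h3 : ∀ i, (algebraMap B (FractionRing B) (E i)) ^ (e i) *
      (algebraMap B (FractionRing B) (E i)) ^ (-e i).toNat =
      (algebraMap B (FractionRing B) (E i)) ^ (e i).toNat := by
    intro i
    rw [← zpow_natCast, ← zpow_natCast, ← zpow_add₀ (hE' i)]
    congr 1
    omega
  calc ∏ i, (algebraMap B (FractionRing B) (E i)) ^ (e i).toNat
      = ∏ i, ((algebraMap B (FractionRing B) (E i)) ^ (e i) *
        (algebraMap B (FractionRing B) (E i)) ^ (-e i).toNat) := by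
        exact Finset.prod_congr rfl fun i _ => (h3 i).symm
    _ = _ := by rw [Finset.prod_mul_distrib, h2, one_mul]

end X

theorem coprime_contra {B : Type*} [CommRing B] (E : Fin 16 → B)
    (hc : ∀ i j, i ≠ j → IsCoprime (E i) (E j)) (hnu : ∀ i, ¬ IsUnit (E i)) (e : Fin 16 → ℤ)
    (i0 : Fin 16) (h0 : e i0 ≠ 0) :
    ∏ i, E i ^ (e i).toNat ≠ ∏ i, E i ^ (-e i).toNat := by
  have key : ∀ a b : Fin 16 → ℕ, a i0 ≠ 0 → b i0 = 0 →
      ∏ i, E i ^ a i ≠ ∏ i, E i ^ b i := by
    intro a b ha hb h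
    have h1 : E i0 ∣ ∏ i, E i ^ a i :=
      (dvd_pow_self _ ha).trans (Finset.dvd_prod_of_mem _ (Finset.mem_univ i0))
    rw [h] at h1
    have h2 : IsCoprime (E i0) (∏ i, E i ^ b i) := by
      apply IsCoprime.prod_right
      intro j _
      by_cases hj : j = i0
      · rw [hj, hb, pow_zero]; exact isCoprime_one_right
      · exact (hc i0 j (Ne.symm hj)).pow_right
    exact hnu i0 (h2.isUnit_of_dvd' dvd_rfl h1)
  rcases lt_or_gt_of_ne h0 with h | h
  · exact (key _ _ (by omega) (by omega)).symm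
  · exact key _ _ (by omega) (by omega)

/-- Euclid sequence: `eu τ n = 1 + τ * ∏_{j<n} eu τ j`. -/
def euP {B : Type*} [CommRing B] (τ : B) : ℕ → B
  | 0 => 1
  | (n + 1) => euP τ n * (1 + τ * euP τ n)

/-- the Euclid sequence itself -/
def eu {B : Type*} [CommRing B] (τ : B) (n : ℕ) : B := 1 + τ * euP τ n

theorem euP_succ {B : Type*} [CommRing B] (τ : B) (n : ℕ) :
    euP τ (n + 1) = euP τ n * eu τ n := rfl

theorem eu_dvd {B : Type*} [CommRing B] (τ : B) {i n : ℕ} (h : i < n) : eu τ i ∣ euP τ n := by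
  induction n with
  | zero => omega
  | succ n ih =>
    rw [euP_succ]
    rcases Nat.lt_succ_iff_lt_or_eq.mp h with h | h
    · exact (ih h).mul_right _
    · rw [h]; exact dvd_mul_left _ _

theorem eu_coprime {B : Type*} [CommRing B] (τ : B) {i n : ℕ} (h : i < n) :
    IsCoprime (eu τ i) (eu τ n) := by
  obtain ⟨c, hc⟩ := eu_dvd τ h
  refine ⟨-(τ * c), 1, ?_⟩
  have : eu τ n = 1 + τ * euP τ n := rfl
  rw [this, hc]; ring

theorem eu_coprime' {B : Type*} [CommRing B] (τ : B) {i n : ℕ} (h : i ≠ n) :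
    IsCoprime (eu τ i) (eu τ n) := by
  rcases lt_or_gt_of_ne h with h | h
  · exact eu_coprime τ h
  · exact (eu_coprime τ h).symm

theorem eu_poly {k : Type*} [CommRing k] [IsDomain k] (n : ℕ) :
    euP (X - 1 : k[X]) n ≠ 0 ∧ 0 < (eu (X - 1 : k[X]) n).natDegree := by
  have key : ∀ P : k[X], P ≠ 0 → 0 < (1 + (X - 1) * P).natDegree := by
    intro P hP
    have h1 : ((X - 1 : k[X]) * P).natDegree = 1 + P.natDegree := by
      have h2 : (X - 1 : k[X]) = X - C 1 := by simp
      rw [h2, natDegree_mul (X_sub_C_ne_zero 1) hP, natDegree_X_sub_C]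
    have h3 : (1 + (X - 1) * P).natDegree = ((X - 1 : k[X]) * P).natDegree := by
      apply natDegree_add_eq_right_of_natDegree_lt
      rw [h1]; simp
    rw [h3, h1]; omega
  induction n with
  | zero =>
    have : euP (X - 1 : k[X]) 0 = 1 := rfl
    refine ⟨by rw [this]; exact one_ne_zero, ?_⟩
    exact key _ (by rw [this]; exact one_ne_zero)
  | succ n ih =>
    have h0 : eu (X - 1 : k[X]) n ≠ 0 := by
      intro h
      rw [h] at ih
      simp at ih
    have h1 : euP (X - 1 : k[X]) (n + 1) ≠ 0 := by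
      rw [euP_succ]; exact mul_ne_zero ih.1 h0
    exact ⟨h1, key _ h1⟩

theorem eu_poly_nu {k : Type*} [CommRing k] [IsDomain k] (n : ℕ) :
    ¬ IsUnit (eu (X - 1 : k[X]) n) := fun h => by
  have := natDegree_eq_zero_of_isUnit h
  have := (eu_poly (k := k) n).2
  omega

theorem eu_int (N : ℤ) (hN : 0 < N) (n : ℕ) : 0 < euP N n ∧ 1 < eu N n := by
  induction n with
  | zero => exact ⟨by simp [euP], by simp [eu, euP]; omega⟩
  | succ n ih =>
    have h1 : 0 < euP N (n + 1) := by
      rw [euP_succ]; exact mul_pos ih.1 (by omega)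
    refine ⟨h1, ?_⟩
    have : 0 < N * euP N (n + 1) := mul_pos hN h1
    unfold eu
    omega

end Pool.Agent.Q274.LB
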