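import Pool.Agent.Q274.LB.Coc2
import Pool.Agent.Q274.LB.Comp

/-!
The linearised data of a bijective cocycle on `GG α β`.
-/

namespace Pool.Agent.Q274.LB

noncomputable section

/-- linearised data -/
structure LD (α β : ℚ_[2]) {W : Type*} [AddCommGroup W] [Module ℚ_[2] W]
    (R : GG α β →* Module.End ℚ_[2] W) (P : GG α β → W) : Prop where
  coc : ∀ g h, P (g * h) = P g + R g (P h)
  inj : Function.Injective P
  add : ∀ g h, ∃ k, P k = P g + P h
  neg : ∀ g, ∃ k, P k = - P g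
  spn : Submodule.span ℚ_[2] (Set.range P) = ⊤
  contP : ∀ (f : W →ₗ[ℚ_[2]] ℚ_[2]) (ε : ℝ), 0 < ε → ∃ N, ∀ k, small N k → ‖f (P k)‖ ≤ ε
  contR : ∀ (f : W →ₗ[ℚ_[2]] ℚ_[2]) (w : W) (ε : ℝ), 0 < ε →
    ∃ N, ∀ k, small N k → ‖f (R k w - w)‖ ≤ ε
  dich : ∀ (w : W) (s t : ℚ_[2]) (g h : GG α β), P g = s • w → P h = t • w →
    (∃ k, P g = P k + P k) ∨ (∃ k, P h = P k + P k) ∨ (∃ k, P g - P h = P k + P k)

theorem norm_of_dvd {x : ℤ_[2]} {n : ℕ} (h : (2 : ℤ_[2]) ^ n ∣ x) :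
    ‖(x : ℚ_[2])‖ ≤ (1 / 2 : ℝ) ^ n := by
  have h3 : ‖x‖ ≤ (2 : ℝ) ^ (-(n : ℤ)) := by
    have := (PadicInt.norm_le_pow_iff_mem_span_pow x n).mpr
      (Ideal.mem_span_singleton.mpr (by exact_mod_cast h))
    exact_mod_cast this
  rw [zpow_neg, zpow_natCast, ← inv_pow] at h3
  rw [one_div]
  exact h3

theorem exists_small (C ε : ℝ) (hε : 0 < ε) (K : ℕ) : ∃ L ≥ K, (1 / 2 : ℝ) ^ L * C ≤ ε := by
  obtain ⟨n, hn⟩ := exists_pow_lt_of_lt_one (show (0 : ℝ) < ε / (|C| + 1) by positivity)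
    (show (1 / 2 : ℝ) < 1 by norm_num)
  refine ⟨K + n, Nat.le_add_right _ _, ?_⟩
  have h1 : (1 / 2 : ℝ) ^ (K + n) ≤ (1 / 2 : ℝ) ^ n :=
    pow_le_pow_of_le_one (by norm_num) (by norm_num) (Nat.le_add_left _ _)
  have h2 : 0 ≤ (1 / 2 : ℝ) ^ (K + n) := by positivity
  calc (1 / 2 : ℝ) ^ (K + n) * C ≤ (1 / 2 : ℝ) ^ (K + n) * (|C| + 1) := by
        apply mul_le_mul_of_nonneg_left _ h2
        linarith [le_abs_self C]
    _ ≤ (1 / 2 : ℝ) ^ n * (|C| + 1) := by
        apply mul_le_mul_of_nonneg_right h1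
        positivity
    _ ≤ (ε / (|C| + 1)) * (|C| + 1) := by
        apply mul_le_mul_of_nonneg_right hn.le
        positivity
    _ = ε := by field_simp

/-- vectors of 2-adic integers as vectors of 2-adic numbers -/
def cv {d : ℕ} (x : Fin d → ℤ_[2]) : Fin d → ℚ_[2] := fun i => (x i : ℚ_[2])

theorem cv_add {d : ℕ} (x y : Fin d → ℤ_[2]) : cv (x + y) = cv x + cv y := by
  funext i; simp [cv]

theorem cv_inj {d : ℕ} : Function.Injective (cv (d := d)) := by
  intro x y h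
  funext i
  exact PadicInt.ext (congrFun h i)

theorem cv_single {d : ℕ} (i : Fin d) : cv (Pi.single i 1) = Pi.single i 1 := by
  funext j
  by_cases h : j = i
  · subst h; simp [cv]
  · simp [cv, h]

theorem func_cv {d : ℕ} (f : (Fin d → ℚ_[2]) →ₗ[ℚ_[2]] ℚ_[2]) (x : Fin d → ℤ_[2]) :
    ‖f (cv x)‖ ≤ ∑ i, ‖f (Pi.single i 1)‖ := by
  have h1 : cv x = ∑ i, (x i : ℚ_[2]) • (Pi.single i (1 : ℚ_[2]) : Fin d → ℚ_[2]) := by
    rw [pi_eq_sum_univ' (cv x)]
    refine Finset.sum_congr rfl fun i _ => ?_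
    funext j
    by_cases h : i = j
    · subst h; simp [cv]
    · have h' : j ≠ i := fun e => h e.symm
      simp [cv, h']
  rw [h1, map_sum]
  refine (norm_sum_le _ _).trans (Finset.sum_le_sum fun i _ => ?_)
  rw [map_smul, smul_eq_mul, norm_mul]
  have := PadicInt.norm_le_one (x i)
  calc ‖(x i : ℚ_[2])‖ * ‖f (Pi.single i 1)‖ ≤ 1 * ‖f (Pi.single i 1)‖ :=
        mul_le_mul_of_nonneg_right this (norm_nonneg _)
    _ = _ := one_mul _

theorem parity (x : ℤ_[2]) : (2 : ℤ_[2]) ∣ x ∨ (2 : ℤ_[2]) ∣ x - 1 := by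
  obtain ⟨m, hm⟩ := approx x 1
  rw [pow_one] at hm
  rcases Int.even_or_odd' m with ⟨t, ht | ht⟩
  · left
    have : x = (x - m) + 2 * t := by rw [ht]; push_cast; ring
    rw [this]
    exact dvd_add hm (dvd_mul_right _ _)
  · right
    have : x - 1 = (x - m) + 2 * t := by rw [ht]; push_cast; ring
    rw [this]
    exact dvd_add hm (dvd_mul_right _ _)

theorem two_prime : Prime (2 : ℤ_[2]) := by
  have := PadicInt.prime_p (p := 2)
  exact_mod_cast this

theorem dich_aux {d : ℕ} (x y : Fin d → ℤ_[2]) (w : Fin d → ℚ_[2]) (s t : ℚ_[2])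
    (hx : cv x = s • w) (hy : cv y = t • w) :
    (∀ i, (2 : ℤ_[2]) ∣ x i) ∨ (∀ i, (2 : ℤ_[2]) ∣ y i) ∨ (∀ i, (2 : ℤ_[2]) ∣ x i - y i) := by
  by_cases h1 : ∀ i, (2 : ℤ_[2]) ∣ x i
  · exact Or.inl h1
  right
  push Not at h1
  obtain ⟨i, hi⟩ := h1
  have hprop : ∀ j, x i * y j = y i * x j := by
    intro j
    apply PadicInt.ext
    push_cast
    have e1 : (x i : ℚ_[2]) = s * w i := congrFun hx i
    have e2 : (y j : ℚ_[2]) = t * w j := congrFun hy j
    have e3 : (y i : ℚ_[2]) = t * w i := congrFun hy i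
    have e4 : (x j : ℚ_[2]) = s * w j := congrFun hx j
    rw [e1, e2, e3, e4]; ring
  by_cases h2 : (2 : ℤ_[2]) ∣ y i
  · left
    intro j
    have h3 : (2 : ℤ_[2]) ∣ x i * y j := by rw [hprop j]; exact h2.mul_right _
    exact (two_prime.dvd_or_dvd h3).resolve_left hi
  · right
    intro j
    have h3 : (2 : ℤ_[2]) ∣ x i - y i := by
      have e1 := (parity (x i)).resolve_left hi
      have e2 := (parity (y i)).resolve_left h2
      have := dvd_sub e1 e2
      rwa [sub_sub_sub_cancel_right] at this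
    have h4 : (2 : ℤ_[2]) ∣ x i * (x j - y j) := by
      rw [mul_sub, hprop j, ← sub_mul]
      exact h3.mul_right _
    exact (two_prime.dvd_or_dvd h4).resolve_left hi

variable {α β : ℚ_[2]} {A : Type*} [AddCommGroup A]

theorem exists_LD (ρ : GG α β →* Module.End ℤ A) (π : GG α β → A)
    (hπ : ∀ g h, π (g * h) = π g + ρ g (π h)) (hinj : Function.Injective π)
    (hsur : Function.Surjective π) :
    ∃ d ≤ 3, ∃ (R : GG α β →* Module.End ℚ_[2] (Fin d → ℚ_[2])) (P : GG α β → (Fin d → ℚ_[2])),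
      LD α β R P := by
  classical
  obtain ⟨d, hd, a, hind, hspan⟩ := exists_basis ρ π hπ hinj hsur
  obtain ⟨φ, hφi, hφd, hφa, hφf⟩ := exists_coord a (sep ρ π hπ hinj hsur)
    (fun n m h => IndM.pow ρ π hπ hinj hsur hind n m h) hspan
  refine ⟨d, hd, ?_⟩
  -- the matrices
  let Rl : GG α β → Module.End ℚ_[2] (Fin d → ℚ_[2]) := fun g =>
    (Pi.basisFun ℚ_[2] (Fin d)).constr ℚ_[2] (fun i => cv (φ (ρ g (a i))))
  have hR1 : ∀ g i, Rl g (Pi.single i 1) = cv (φ (ρ g (a i))) := by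
    intro g i
    have := (Pi.basisFun ℚ_[2] (Fin d)).constr_basis ℚ_[2] (fun i => cv (φ (ρ g (a i)))) i
    rwa [Pi.basisFun_apply] at this
  have hsum : ∀ x : Fin d → ℚ_[2], x = ∑ i, x i • (Pi.single i (1 : ℚ_[2]) : Fin d → ℚ_[2]) := by
    intro x
    have := (Pi.basisFun ℚ_[2] (Fin d)).sum_repr x
    simpa using this.symm
  have hR2 : ∀ g b, Rl g (cv (φ b)) = cv (φ (ρ g b)) := by
    intro g b
    rw [hsum (cv (φ b)), map_sum]
    funext j
    rw [Finset.sum_apply]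
    let f : A →+ ℤ_[2] := ((Pi.evalAddMonoidHom (fun _ : Fin d => ℤ_[2]) j).comp φ).comp
      (ρ g : Module.End ℤ A).toAddMonoidHom
    have h1 := hφf f b
    have h2 : (cv (φ (ρ g b))) j = ((f b : ℤ_[2]) : ℚ_[2]) := rfl
    rw [h2, h1, PadicInt.coe_sum]
    refine Finset.sum_congr rfl fun i _ => ?_
    rw [map_smul, hR1]
    show (φ b i : ℚ_[2]) * ((φ (ρ g (a i)) j : ℤ_[2]) : ℚ_[2]) = _
    rw [PadicInt.coe_mul]
    rfl
  let R : GG α β →* Module.End ℚ_[2] (Fin d → ℚ_[2]) :=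
    { toFun := Rl
      map_one' := by
        apply (Pi.basisFun ℚ_[2] (Fin d)).ext
        intro i
        rw [Pi.basisFun_apply, hR1, map_one, Module.End.one_apply, hφa, cv_single,
          Module.End.one_apply]
      map_mul' := by
        intro g h
        apply (Pi.basisFun ℚ_[2] (Fin d)).ext
        intro i
        rw [Pi.basisFun_apply, hR1, map_mul, Module.End.mul_apply, Module.End.mul_apply, hR1,
          hR2] }
  have hR : ∀ g b, R g (cv (φ b)) = cv (φ (ρ g b)) := hR2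
  have hRs : ∀ g i, R g (Pi.single i 1) = cv (φ (ρ g (a i))) := hR1
  refine ⟨R, fun g => cv (φ (π g)), ?_⟩
  have hcon : ∀ (n : ℕ) (b : A), cv (φ (2 ^ n • b)) = (2 : ℚ_[2]) ^ n • cv (φ b) := by
    intro n b
    rw [map_nsmul]
    funext i
    have h2 : ((2 : ℤ_[2]) : ℚ_[2]) = 2 := coe_two
    simp [cv, h2]
  refine ⟨?_, ?_, ?_, ?_, ?_, ?_, ?_, ?_⟩
  · intro g h
    rw [hR, hπ, map_add, cv_add]
  · intro g h hgh
    exact hinj (hφi (cv_inj hgh))
  · intro g h
    obtain ⟨k, hk⟩ := hsur (π g + π h)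
    exact ⟨k, by rw [hk, map_add, cv_add]⟩
  · intro g
    obtain ⟨k, hk⟩ := hsur (-π g)
    exact ⟨k, by
      rw [hk, map_neg]
      funext i
      simp [cv]⟩
  · rw [eq_top_iff]
    intro x _
    rw [hsum x]
    apply Submodule.sum_mem
    intro i _
    apply Submodule.smul_mem
    apply Submodule.subset_span
    obtain ⟨k, hk⟩ := hsur (a i)
    exact ⟨k, by
      show cv (φ (π k)) = _
      rw [hk, hφa, cv_single]⟩
  · intro f ε hε
    obtain ⟨L, -, hL⟩ := exists_small (∑ i, ‖f (Pi.single i 1)‖) ε hε 0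
    refine ⟨13 + L, fun k hk => ?_⟩
    obtain ⟨-, b, hb⟩ := small_act ρ π hπ hsur L k hk
    rw [hb, hcon, map_smul, norm_smul, norm_pow]
    have h2 : ‖(2 : ℚ_[2])‖ = 1 / 2 := by
      have := Padic.norm_p (p := 2)
      rw [one_div]
      exact_mod_cast this
    rw [h2]
    have h3 := func_cv f (φ b)
    calc (1 / 2 : ℝ) ^ (L + 1) * ‖f (cv (φ b))‖
        ≤ (1 / 2 : ℝ) ^ L * ∑ i, ‖f (Pi.single i 1)‖ := by
          apply mul_le_mul _ h3 (norm_nonneg _) (by positivity)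
          exact pow_le_pow_of_le_one (by norm_num) (by norm_num) (Nat.le_succ _)
      _ ≤ ε := hL
  · intro f w ε hε
    obtain ⟨L, -, hL⟩ := exists_small (∑ j, ‖w j‖ * ∑ i, ‖f (Pi.single i 1)‖) ε hε 0
    refine ⟨13 + L, fun k hk => ?_⟩
    obtain ⟨h1, -⟩ := small_act ρ π hπ hsur L k hk
    choose b hb using fun j => h1 (a j)
    have h2 : ‖(2 : ℚ_[2])‖ = 1 / 2 := by
      have := Padic.norm_p (p := 2)
      rw [one_div]
      exact_mod_cast this
    have h4 : ∀ j, R k (Pi.single j 1) - Pi.single j 1 = (2 : ℚ_[2]) ^ (L + 1) • cv (φ (b j)) := by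
      intro j
      rw [← hcon, ← hb j, hRs, map_sub, hφa]
      funext i
      have : cv (Pi.single j (1 : ℤ_[2])) i = (Pi.single j (1 : ℚ_[2]) : Fin d → ℚ_[2]) i := by
        rw [cv_single]
      simp only [Pi.sub_apply, ← this]
      simp [cv]
    have h5 : R k w - w = ∑ j, w j • ((2 : ℚ_[2]) ^ (L + 1) • cv (φ (b j))) := by
      nth_rewrite 1 2 [hsum w]
      rw [map_sum, ← Finset.sum_sub_distrib]
      refine Finset.sum_congr rfl fun j _ => ?_
      rw [map_smul, ← smul_sub, h4]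
    rw [h5, map_sum]
    refine (norm_sum_le _ _).trans (le_trans ?_ hL)
    rw [Finset.mul_sum]
    refine Finset.sum_le_sum fun j _ => ?_
    rw [map_smul, map_smul, norm_smul, norm_smul, norm_pow, h2]
    have h3 := func_cv f (φ (b j))
    calc ‖w j‖ * ((1 / 2 : ℝ) ^ (L + 1) * ‖f (cv (φ (b j)))‖)
        ≤ ‖w j‖ * ((1 / 2 : ℝ) ^ L * ∑ i, ‖f (Pi.single i 1)‖) := by
          apply mul_le_mul_of_nonneg_left _ (norm_nonneg _)
          apply mul_le_mul _ h3 (norm_nonneg _) (by positivity)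
          exact pow_le_pow_of_le_one (by norm_num) (by norm_num) (Nat.le_succ _)
      _ = _ := by ring
  · intro w s t g h hg hh
    have hdbl : ∀ b : A, (∀ i, (2 : ℤ_[2]) ∣ φ b i) → ∃ k, cv (φ b) = cv (φ (π k)) + cv (φ (π k)) := by
      intro b hb
      obtain ⟨c, hc⟩ := hφd b 1 (by simpa using hb)
      obtain ⟨k, hk⟩ := hsur c
      refine ⟨k, ?_⟩
      rw [hk, ← cv_add, ← map_add, hc, pow_one, two_smul]
    rcases dich_aux (φ (π g)) (φ (π h)) w s t hg hh with h1 | h1 | h1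
    · exact Or.inl (hdbl _ h1)
    · exact Or.inr (Or.inl (hdbl _ h1))
    · right; right
      obtain ⟨k, hk⟩ := hdbl (π g - π h) (by
        intro i
        rw [map_sub]
        exact h1 i)
      refine ⟨k, ?_⟩
      rw [← hk, map_sub]
      funext i
      simp [cv]

end

end Pool.Agent.Q274.LB
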