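import Pool.Agent.Q274.LB.Lin0

/-!
Linear algebra in dimension at most three and continuity lemmas.
-/

namespace Pool.Agent.Q274.LB

open Polynomial Module

noncomputable section

section LA

variable {K W : Type*} [Field K] [AddCommGroup W] [Module K W] [FiniteDimensional K W]

theorem rank_one (hd : finrank K W ≤ 3) (N : Module.End K W) (hN : N ≠ 0) (h2 : N * N = 0) :
    ∃ (ℓ : W →ₗ[K] K) (v w : W), v ≠ 0 ∧ (∀ x, N x = ℓ x • v) ∧ ℓ v = 0 ∧ ℓ w = 1 := by
  have h3 : LinearMap.range N ≤ LinearMap.ker N := by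
    rintro _ ⟨x, rfl⟩
    rw [LinearMap.mem_ker, ← Module.End.mul_apply, h2, LinearMap.zero_apply]
  have h4 := LinearMap.finrank_range_add_finrank_ker N
  have h5 := Submodule.finrank_mono h3
  have h6 : finrank K (LinearMap.range N) ≠ 0 := by
    intro h
    rw [Submodule.finrank_eq_zero, LinearMap.range_eq_bot] at h
    exact hN h
  have h7 : finrank K (LinearMap.range N) = finrank K K := by
    rw [finrank_self]; omega
  let e := LinearEquiv.ofFinrankEq (LinearMap.range N) K h7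
  have h8 : ∀ x, N x = (e (N.rangeRestrict x)) • ((e.symm 1 : LinearMap.range N) : W) := by
    intro x
    rw [← Submodule.coe_smul, ← map_smul, smul_eq_mul, mul_one, LinearEquiv.symm_apply_apply]
    rfl
  obtain ⟨w, hw⟩ := (e.symm 1).2
  refine ⟨e.toLinearMap.comp N.rangeRestrict, ((e.symm 1 : LinearMap.range N) : W), w, ?_, h8,
    ?_, ?_⟩
  · intro h
    have : (e.symm 1 : LinearMap.range N) = 0 := Subtype.ext h
    rw [LinearEquiv.symm_apply_eq, map_zero] at this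
    exact one_ne_zero this
  · have h9 : N.rangeRestrict ((e.symm 1 : LinearMap.range N) : W) = 0 := by
      apply Subtype.ext
      exact LinearMap.mem_ker.mp (h3 (e.symm 1).2)
    show e (N.rangeRestrict _) = 0
    rw [h9, map_zero]
  · have h9 : N.rangeRestrict w = e.symm 1 := Subtype.ext hw
    show e (N.rangeRestrict w) = 1
    rw [h9, LinearEquiv.apply_symm_apply]

theorem comm_rank_one {N : Module.End K W} {ℓ : W →ₗ[K] K} {v w : W} (hv : v ≠ 0)
    (hN : ∀ x, N x = ℓ x • v) (hw : ℓ w = 1) (S : Module.End K W) (hS : Commute S N) :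
    S v = ℓ (S w) • v ∧ ∀ x, ℓ (S x) = ℓ (S w) * ℓ x := by
  have h1 : ∀ x, S (N x) = N (S x) := fun x => by
    rw [← Module.End.mul_apply, hS.eq, Module.End.mul_apply]
  have h2 : S v = ℓ (S w) • v := by
    have := h1 w
    rw [hN, hw, one_smul, hN] at this
    exact this
  refine ⟨h2, fun x => ?_⟩
  have h3 := h1 x
  rw [hN, hN, map_smul, h2, smul_smul] at h3
  have h4 := smul_left_injective K hv h3
  rw [← h4, mul_comm]

end LA

theorem eq_zero_of_norm {t : ℚ_[2]} (h : ∀ ε : ℝ, 0 < ε → ‖t‖ ≤ ε) : t = 0 := by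
  rw [← norm_le_zero_iff]
  exact le_of_forall_pos_le_add fun ε hε => by rw [zero_add]; exact h ε hε

variable {α β : ℚ_[2]}

/-- homomorphisms to an abelian group kill `z0` -/
theorem hom_z0 (θ : GG α β → ℚ_[2]) (hθ : ∀ g h, θ (g * h) = θ g + θ h) : θ z0 = 0 := by
  have h1 := cm_spec (g0 : GG α β) h0
  rw [cm_g0_h0] at h1
  have h2 := congrArg θ h1
  rw [hθ, hθ, hθ] at h2
  linear_combination -h2

theorem hom_one (θ : GG α β → ℚ_[2]) (hθ : ∀ g h, θ (g * h) = θ g + θ h) : θ 1 = 0 := by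
  have := hθ 1 1
  rw [mul_one] at this
  linear_combination -this

theorem hom_inv (θ : GG α β → ℚ_[2]) (hθ : ∀ g h, θ (g * h) = θ g + θ h) (g : GG α β) :
    θ g⁻¹ = - θ g := by
  have := hθ g⁻¹ g
  rw [inv_mul_cancel, hom_one θ hθ] at this
  linear_combination -this

theorem hom_zpow (θ : GG α β → ℚ_[2]) (hθ : ∀ g h, θ (g * h) = θ g + θ h) (g : GG α β)
    (m : ℤ) : θ (g ^ m) = m * θ g := by
  induction m using Int.induction_on with
  | zero => rw [zpow_zero, hom_one θ hθ]; simp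
  | succ n ih => rw [zpow_add_one, hθ, ih]; push_cast; ring
  | pred n ih => rw [zpow_sub_one, hθ, hom_inv θ hθ, ih]; push_cast; ring

/-- continuous homomorphisms are linear in the first two coordinates -/
theorem hom_lin (θ : GG α β → ℚ_[2]) (hθ : ∀ g h, θ (g * h) = θ g + θ h)
    (hc : ∀ ε : ℝ, 0 < ε → ∃ N, ∀ k, small N k → ‖θ k‖ ≤ ε) (g : GG α β) :
    θ g = ((g : E3).x : ℚ_[2]) * θ g0 + ((g : E3).y : ℚ_[2]) * θ h0 := by
  rw [← sub_eq_zero]
  apply eq_zero_of_norm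
  intro ε hε
  obtain ⟨N, hN⟩ := hc (ε / 2) (by positivity)
  obtain ⟨L, hL, hL2⟩ := exists_small (‖θ g0‖ + ‖θ h0‖) (ε / 2) (by positivity) N
  obtain ⟨p, q, m, hp, hq, hs⟩ := dens g L
  have h1 : g = (g0 ^ p * h0 ^ q * z0 ^ m) * ((g0 ^ p * h0 ^ q * z0 ^ m)⁻¹ * g) := by
    rw [mul_inv_cancel_left]
  have h2 : θ g = p * θ g0 + q * θ h0 + θ ((g0 ^ p * h0 ^ q * z0 ^ m)⁻¹ * g) := by
    conv_lhs => rw [h1]
    rw [hθ, hθ, hθ, hom_zpow θ hθ, hom_zpow θ hθ, hom_zpow θ hθ, hom_z0 θ hθ]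
    ring
  have h3 := hN _ (small_mono hL _ hs)
  have h4 := norm_of_dvd hp
  have h5 := norm_of_dvd hq
  rw [h2]
  have h6 : (p : ℚ_[2]) * θ g0 + q * θ h0 + θ ((g0 ^ p * h0 ^ q * z0 ^ m)⁻¹ * g) -
      (((g : E3).x : ℚ_[2]) * θ g0 + ((g : E3).y : ℚ_[2]) * θ h0) =
      θ ((g0 ^ p * h0 ^ q * z0 ^ m)⁻¹ * g) +
      (-((((g : E3).x - p : ℤ_[2]) : ℚ_[2]) * θ g0) -
        (((g : E3).y - q : ℤ_[2]) : ℚ_[2]) * θ h0) := by
    push_cast; ring
  rw [h6]
  have h7 : ‖-((((g : E3).x - p : ℤ_[2]) : ℚ_[2]) * θ g0)‖ ≤ (1 / 2 : ℝ) ^ L * ‖θ g0‖ := by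
    rw [norm_neg, norm_mul]
    exact mul_le_mul_of_nonneg_right h4 (norm_nonneg _)
  have h8 : ‖(((g : E3).y - q : ℤ_[2]) : ℚ_[2]) * θ h0‖ ≤ (1 / 2 : ℝ) ^ L * ‖θ h0‖ := by
    rw [norm_mul]
    exact mul_le_mul_of_nonneg_right h5 (norm_nonneg _)
  have h9 := norm_add_le (θ ((g0 ^ p * h0 ^ q * z0 ^ m)⁻¹ * g))
    (-((((g : E3).x - p : ℤ_[2]) : ℚ_[2]) * θ g0) - (((g : E3).y - q : ℤ_[2]) : ℚ_[2]) * θ h0)
  have h10 := norm_sub_le (-((((g : E3).x - p : ℤ_[2]) : ℚ_[2]) * θ g0))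
    ((((g : E3).y - q : ℤ_[2]) : ℚ_[2]) * θ h0)
  rw [mul_add] at hL2
  linarith

/-- functions on the centre determined by powers of `z0` -/
theorem cen_lin (θ : GG α β → ℚ_[2]) (s : ℚ_[2])
    (hθ : ∀ (m : ℤ) (k : GG α β), θ (z0 ^ m * k) = m * s + θ k)
    (hc : ∀ ε : ℝ, 0 < ε → ∃ N, ∀ k, small N k → ‖θ k‖ ≤ ε) (μ : ℤ_[2]) (h : inM α β μ) :
    θ (cc μ h) = (μ : ℚ_[2]) * s := by
  rw [← sub_eq_zero]
  apply eq_zero_of_norm
  intro ε hε
  obtain ⟨N, hN⟩ := hc (ε / 2) (by positivity)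
  obtain ⟨L, hL, hL2⟩ := exists_small ‖s‖ (ε / 2) (by positivity) N
  obtain ⟨m, hm, hs⟩ := dens_cc μ h L
  have h2 : θ (cc μ h) = m * s + θ ((z0 ^ m)⁻¹ * cc μ h) := by
    rw [← hθ, mul_inv_cancel_left]
  have h3 := hN _ (small_mono hL _ hs)
  have h4 := norm_of_dvd hm
  rw [h2]
  have h6 : (m : ℚ_[2]) * s + θ ((z0 ^ m)⁻¹ * cc μ h) - μ * s =
      θ ((z0 ^ m)⁻¹ * cc μ h) - (((μ - m : ℤ_[2]) : ℚ_[2]) * s) := by
    push_cast; ring
  rw [h6]
  have h7 : ‖(((μ - m : ℤ_[2]) : ℚ_[2]) * s)‖ ≤ (1 / 2 : ℝ) ^ L * ‖s‖ := by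
    rw [norm_mul]
    exact mul_le_mul_of_nonneg_right h4 (norm_nonneg _)
  have h10 := norm_sub_le (θ ((z0 ^ m)⁻¹ * cc μ h)) (((μ - m : ℤ_[2]) : ℚ_[2]) * s)
  linarith

/-- stable additive subgroups are stable under integer polynomials -/
theorem aeval_mem {R V : Type*} [CommRing R] [AddCommGroup V] [Module R V] (S : AddSubgroup V)
    (φ : Module.End R V) (hS : ∀ b ∈ S, φ b ∈ S) (f : ℤ[X]) (b : V) (hb : b ∈ S) :
    aeval φ f b ∈ S := by
  induction f using Polynomial.induction_on' with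
  | add p q hp hq =>
    rw [map_add, LinearMap.add_apply]
    exact S.add_mem hp hq
  | monomial n c =>
    rw [aeval_monomial, Module.End.mul_apply]
    have h1 : ∀ n : ℕ, (φ ^ n) b ∈ S := by
      intro n
      induction n with
      | zero => simpa using hb
      | succ n ih =>
        rw [pow_succ', Module.End.mul_apply]
        exact hS _ ih
    have h2 : (algebraMap ℤ (Module.End R V) c) ((φ ^ n) b) = c • ((φ ^ n) b) := by
      simp
    rw [h2]
    exact S.zsmul_mem (h1 n) c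

/-- the image of a cocycle closed under addition is an additive subgroup stable under action -/
theorem surj_aeval {V : Type*} [AddCommGroup V] [Module ℚ_[2] V]
    (R : GG α β →* Module.End ℚ_[2] V) (P : GG α β → V)
    (coc : ∀ g h, P (g * h) = P g + R g (P h)) (add : ∀ g h, ∃ k, P k = P g + P h)
    (neg : ∀ g, ∃ k, P k = - P g) (g : GG α β) (f : ℤ[X]) :
    ∃ h, P h = aeval (R g) f (P g) := by
  have hone : P 1 = 0 := by
    have := coc 1 1
    rw [mul_one, map_one, Module.End.one_apply] at this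
    simpa using this
  let S : AddSubgroup V :=
    { carrier := Set.range P
      zero_mem' := ⟨1, hone⟩
      add_mem' := by
        rintro _ _ ⟨g, rfl⟩ ⟨h, rfl⟩
        exact add g h
      neg_mem' := by
        rintro _ ⟨g, rfl⟩
        exact neg g }
  have hS : ∀ b ∈ S, R g b ∈ S := by
    rintro _ ⟨h, rfl⟩
    have h1 : R g (P h) = P (g * h) + -P g := by rw [coc]; abel
    rw [h1]
    exact S.add_mem ⟨_, rfl⟩ (S.neg_mem ⟨_, rfl⟩)
  exact aeval_mem S (R g) hS f (P g) ⟨g, rfl⟩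

end

end Pool.Agent.Q274.LB
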