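import Pool.Agent.Q274.LB.Lin1

/-!
The centre acts trivially.
-/

namespace Pool.Agent.Q274.LB

open Polynomial Module

noncomputable section

variable {α β : ℚ_[2]} {W : Type*} [AddCommGroup W] [Module ℚ_[2] W]
  {R : GG α β →* Module.End ℚ_[2] W} {P : GG α β → W}

theorem htf_mod {V : Type*} [AddCommGroup V] [Module ℚ_[2] V] (n : ℤ) (v : V) (hn : n ≠ 0)
    (h : n • v = 0) : v = 0 := by
  have h1 : (n : ℚ_[2]) • v = 0 := by
    rw [← h]; exact Int.cast_smul_eq_zsmul _ _ _
  rcases smul_eq_zero.mp h1 with h2 | h2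
  · exact absurd (by exact_mod_cast h2) hn
  · exact h2

theorem LD.ext_on (H : LD α β R P) {N : Module.End ℚ_[2] W} (h : ∀ g, N (P g) = 0) : N = 0 := by
  apply LinearMap.ext_on H.spn
  rintro _ ⟨g, rfl⟩
  rw [h, LinearMap.zero_apply]

theorem LD.exists_ne (H : LD α β R P) {ℓ : W →ₗ[ℚ_[2]] ℚ_[2]} (h : ℓ ≠ 0) :
    ∃ g, ℓ (P g) ≠ 0 := by
  by_contra hc
  push Not at hc
  apply h
  apply LinearMap.ext_on H.spn
  rintro _ ⟨g, rfl⟩
  rw [hc, LinearMap.zero_apply]

theorem LD.one (H : LD α β R P) : P 1 = 0 := by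
  have := H.coc 1 1
  rw [mul_one, map_one, Module.End.one_apply] at this
  simpa using this

theorem z0_comm (g : GG α β) : z0 * g = g * z0 := cc_comm _ _ g

theorem LD.comm (h : GG α β) : Commute (R h) (R z0) := by
  show R h * R z0 = R z0 * R h
  rw [← map_mul, ← map_mul, z0_comm]

theorem LD.nilp (H : LD α β R P) : ∃ n, (R z0 - 1) ^ n = 0 := by
  obtain ⟨n, hn⟩ := lemA_int R P H.coc z0 (fun h => LD.comm h) (fun h => by rw [z0_comm])
    (FR_GG α β) htf_mod (surj_aeval R P H.coc H.add H.neg z0)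
  refine ⟨n + 1, H.ext_on fun g => ?_⟩
  exact unip_of R P H.coc z0 (fun h => LD.comm h) (fun h => by rw [z0_comm]) n hn g

/-- a one-dimensional cocycle which is trivial on commutators has trivial character -/
theorem char_trivial (χ θ : GG α β → ℚ_[2]) (h1 : χ 1 = 1) (hm : ∀ g h, χ (g * h) = χ g * χ h)
    (hθ : ∀ g h, θ (g * h) = θ g + χ g * θ h) (hc : ∀ g h, χ (cm g h) = 1 ∧ θ (cm g h) = 0)
    (add : ∀ g h, ∃ k, θ k = θ g + θ h) (neg : ∀ g, ∃ k, θ k = - θ g) (k1 : GG α β)
    (hk1 : θ k1 ≠ 0) (g : GG α β) : χ g = 1 := by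
  let ρ' : GG α β →* Module.End ℚ_[2] ℚ_[2] :=
    { toFun := fun g => χ g • 1
      map_one' := by rw [h1, one_smul]
      map_mul' := by
        intro g h
        rw [hm]
        apply LinearMap.ext
        intro x
        simp only [LinearMap.smul_apply, Module.End.one_apply, Module.End.mul_apply, smul_eq_mul]
        ring }
  have hρ : ∀ g x, ρ' g x = χ g * x := by
    intro g x
    show (χ g • (1 : Module.End ℚ_[2] ℚ_[2])) x = _
    rw [LinearMap.smul_apply, Module.End.one_apply, smul_eq_mul]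
  have hcoc : ∀ g h, θ (g * h) = θ g + ρ' g (θ h) := by
    intro g h; rw [hρ, hθ]
  have key : ∀ g, χ g = 1 ∨ θ g = 0 := by
    intro g
    obtain ⟨n, hn⟩ := lemA_int ρ' θ hcoc g
      (fun h => by
        apply LinearMap.ext
        intro x
        rw [Module.End.mul_apply, Module.End.mul_apply, hρ, hρ, hρ, hρ]
        ring)
      (fun h => by
        rw [cm_spec g h, hθ, (hc g h).1, (hc g h).2]
        ring)
      (FR_GG α β) htf_mod (surj_aeval ρ' θ hcoc add neg g)
    have h2 : ∀ n : ℕ, ∀ x, ((ρ' g - 1) ^ n) x = (χ g - 1) ^ n * x := by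
      intro n
      induction n with
      | zero => intro x; simp
      | succ n ih =>
        intro x
        rw [pow_succ', Module.End.mul_apply, ih, LinearMap.sub_apply, hρ, Module.End.one_apply]
        ring
    rw [h2] at hn
    rcases mul_eq_zero.mp hn with h | h
    · left
      have := eq_zero_of_pow_eq_zero h
      linear_combination this
    · exact Or.inr h
  rcases key g with h | h
  · exact h
  · have h2 := (key k1).resolve_right hk1
    have h3 : θ (g * k1) = χ g * θ k1 := by rw [hθ, h, zero_add]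
    have h4 : χ g ≠ 0 := by
      intro h5
      have := hm g g⁻¹
      rw [mul_inv_cancel, h1, h5, zero_mul] at this
      exact one_ne_zero this
    have h5 := (key (g * k1)).resolve_right (by rw [h3]; exact mul_ne_zero h4 hk1)
    rwa [hm, h2, mul_one] at h5

/-- three independent vectors in a space of dimension at most three give coordinates -/
theorem coords [FiniteDimensional ℚ_[2] W] (hd : finrank ℚ_[2] W ≤ 3)
    {ℓ : W →ₗ[ℚ_[2]] ℚ_[2]} {w u v : W} (hw : ℓ w = 1) (hu : ℓ u = 0) (hv : ℓ v = 0)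
    (hind : ∀ a b : ℚ_[2], a • u + b • v = 0 → a = 0 ∧ b = 0) :
    ∃ c1 c2 : W →ₗ[ℚ_[2]] ℚ_[2], (∀ x, x = ℓ x • w + c1 x • u + c2 x • v) ∧
      c1 w = 0 ∧ c1 u = 1 ∧ c1 v = 0 ∧ c2 w = 0 ∧ c2 u = 0 ∧ c2 v = 1 := by
  have hli : LinearIndependent ℚ_[2] ![w, u, v] := by
    rw [Fintype.linearIndependent_iff]
    intro g hg
    rw [Fin.sum_univ_three] at hg
    have e0 : (![w, u, v] : Fin 3 → W) 0 = w := rfl
    have e1 : (![w, u, v] : Fin 3 → W) 1 = u := rfl
    have e2 : (![w, u, v] : Fin 3 → W) 2 = v := rfl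
    rw [e0, e1, e2] at hg
    have h0 : g 0 = 0 := by
      have := congrArg ℓ hg
      rw [map_add, map_add, map_smul, map_smul, map_smul, hw, hu, hv, map_zero] at this
      simpa using this
    rw [h0, zero_smul, zero_add] at hg
    obtain ⟨h1, h2⟩ := hind _ _ hg
    intro i
    fin_cases i
    · exact h0
    · exact h1
    · exact h2
  have h3 := hli.fintype_card_le_finrank
  rw [Fintype.card_fin] at h3
  have h4 : finrank ℚ_[2] W = 3 := le_antisymm hd h3
  let bs := basisOfLinearIndependentOfCardEqFinrank hli (by rw [Fintype.card_fin, h4])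
  have b0 : bs 0 = w := by simp [bs]
  have b1 : bs 1 = u := by simp [bs]
  have b2 : bs 2 = v := by simp [bs]
  have hc : ∀ i j : Fin 3, bs.coord i (bs j) = if j = i then 1 else 0 := by
    intro i j
    rw [Basis.coord_apply, Basis.repr_self, Finsupp.single_apply]
  have h0 : bs.coord 0 = ℓ := by
    apply bs.ext
    intro i
    rw [hc]
    fin_cases i
    · show _ = ℓ (bs 0)
      rw [b0, hw]; rfl
    · show _ = ℓ (bs 1)
      rw [b1, hu]; rfl
    · show _ = ℓ (bs 2)
      rw [b2, hv]; rfl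
  refine ⟨bs.coord 1, bs.coord 2, ?_, ?_, ?_, ?_, ?_, ?_, ?_⟩
  · intro x
    have := bs.sum_repr x
    rw [Fin.sum_univ_three, b0, b1, b2] at this
    rw [← h0]
    exact this.symm
  · rw [← b0, hc]; rfl
  · rw [← b1]; rw [hc]; rfl
  · rw [← b2, hc]; rfl
  · rw [← b0, hc]; rfl
  · rw [← b1, hc]; rfl
  · rw [← b2]; rw [hc]; rfl

end

end Pool.Agent.Q274.LB
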