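import Pool.Agent.Q274.LB.Lin2

/-!
The centre acts trivially: the proof.
-/

namespace Pool.Agent.Q274.LB

open Polynomial Module

noncomputable section

variable {α β : ℚ_[2]} {W : Type*} [AddCommGroup W] [Module ℚ_[2] W] [FiniteDimensional ℚ_[2] W]
  {R : GG α β →* Module.End ℚ_[2] W} {P : GG α β → W}

/-- the final contradiction when `T = R z0 - 1` has rank one -/
theorem LD.contra (H : LD α β R P) {ℓ c1 c2 : W →ₗ[ℚ_[2]] ℚ_[2]} {w v : W}
    (hz : ∀ x, R z0 x = x + ℓ x • v)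
    (hdec : ∀ x, x = ℓ x • w + c1 x • P z0 + c2 x • v)
    (hw : ℓ w = 1) (hu : ℓ (P z0) = 0) (hv : ℓ v = 0)
    (h1w : c1 w = 0) (h1u : c1 (P z0) = 1) (h1v : c1 v = 0) (h2w : c2 w = 0)
    (h2u : c2 (P z0) = 0) (h2v : c2 v = 1)
    (hRℓ : ∀ k x, ℓ (R k x) = ℓ x) (hRu : ∀ k, R k (P z0) = P z0 + ℓ (P k) • v)
    (hRv : ∀ k, R k v = v) : False := by
  have e1 : ∀ k x, c1 (R k x) = ℓ x * c1 (R k w) + c1 x := by
    intro k x
    conv_lhs => rw [hdec x]
    simp only [map_add, map_smul, hRu, hRv, h1u, h1v, smul_eq_mul]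
    ring
  have e2 : ∀ k x, c2 (R k x) = ℓ x * c2 (R k w) + c1 x * ℓ (P k) + c2 x := by
    intro k x
    conv_lhs => rw [hdec x]
    simp only [map_add, map_smul, hRu, hRv, h2u, h2v, smul_eq_mul]
    ring
  have hgh : (g0 : GG α β) * h0 = z0 * (h0 * g0) := by
    rw [← cm_g0_h0]; exact cm_spec _ _
  have I : c2 (R g0 (R h0 w)) = c2 (R z0 (R h0 (R g0 w))) := by
    rw [← Module.End.mul_apply, ← Module.End.mul_apply (R h0), ← Module.End.mul_apply (R z0),
      ← map_mul, ← map_mul, ← map_mul, hgh]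
  have II : c1 (P (g0 * h0)) = c1 (P (z0 * (h0 * g0))) := by rw [hgh]
  rw [hz, map_add, map_smul, h2v, e2 g0, e2 h0 (R g0 w), hRℓ, hRℓ, hRℓ, hw, smul_eq_mul] at I
  rw [H.coc, H.coc z0, H.coc h0, hz, map_add, e1, map_add, map_add, map_add, map_smul, h1u, h1v,
    e1 h0, smul_eq_mul] at II
  have h2 : (2 : ℚ_[2]) = 0 := by linear_combination -I - II - hRℓ g0 w - hw
  exact two_ne_zero h2

theorem LD.z_triv (H : LD α β R P) (hd : finrank ℚ_[2] W ≤ 3) : R z0 = 1 := by
  classical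
  by_contra hne
  set T := R z0 - 1 with hT
  have hTne : T ≠ 0 := fun h => hne (sub_eq_zero.mp h)
  have hex : ∃ n, T ^ n = 0 := H.nilp
  obtain ⟨m, hm⟩ : ∃ m, Nat.find hex = m + 2 := by
    have h0 : Nat.find hex ≠ 0 := by
      intro h
      have := Nat.find_spec hex
      rw [h, pow_zero] at this
      apply hTne
      rw [← one_mul T, this, zero_mul]
    have h1 : Nat.find hex ≠ 1 := by
      intro h
      have := Nat.find_spec hex
      rw [h, pow_one] at this
      exact hTne this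
    exact ⟨Nat.find hex - 2, by omega⟩
  have hTm : T ^ (m + 2) = 0 := by
    have := Nat.find_spec hex
    rwa [hm] at this
  set N := T ^ (m + 1) with hN
  have hNne : N ≠ 0 := Nat.find_min hex (m := m + 1) (by omega)
  have hNN : N * N = 0 := by
    rw [hN, ← pow_add]
    have : m + 1 + (m + 1) = m + (m + 2) := by ring
    rw [this, pow_add, hTm, mul_zero]
  obtain ⟨ℓ, v, w, hv, hNℓ, hℓv, hℓw⟩ := rank_one hd N hNne hNN
  have hcT : ∀ k, Commute (R k) T := fun k => (LD.comm k).sub_right (Commute.one_right _)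
  have hcN : ∀ k, Commute (R k) N := fun k => (hcT k).pow_right _
  set χ : GG α β → ℚ_[2] := fun k => ℓ (R k w) with hχ
  set θ : GG α β → ℚ_[2] := fun k => ℓ (P k) with hθd
  have hk1 : ∀ k, R k v = χ k • v := fun k => (comm_rank_one hv hNℓ hℓw (R k) (hcN k)).1
  have hk2 : ∀ k x, ℓ (R k x) = χ k * ℓ x := fun k =>
    (comm_rank_one hv hNℓ hℓw (R k) (hcN k)).2
  have hℓT : ∀ x, ℓ (T x) = 0 := by
    intro x
    have h1 : N (T x) = 0 := by
      rw [hN, ← Module.End.mul_apply, ← pow_succ, hTm, LinearMap.zero_apply]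
    rw [hNℓ] at h1
    exact (smul_eq_zero.mp h1).resolve_right hv
  have hRz : ∀ x, R z0 x = x + T x := by
    intro x
    rw [hT, LinearMap.sub_apply, Module.End.one_apply]; abel
  have hχm : ∀ g h, χ (g * h) = χ g * χ h := by
    intro g h
    show ℓ (R (g * h) w) = _
    rw [map_mul, Module.End.mul_apply, hk2]
  have hχ1 : χ 1 = 1 := by
    show ℓ (R 1 w) = 1
    rw [map_one, Module.End.one_apply, hℓw]
  have hθ : ∀ g h, θ (g * h) = θ g + χ g * θ h := by
    intro g h
    show ℓ (P (g * h)) = _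
    rw [H.coc, map_add, hk2]
  have hχz : χ z0 = 1 := by
    show ℓ (R z0 w) = 1
    rw [hRz, map_add, hℓT, hℓw, add_zero]
  have hu : ∀ k, R k (P z0) = P z0 + T (P k) := fun k =>
    rel R P H.coc z0 (fun h => by rw [z0_comm]) k
  have hu2 : ∀ k, χ k * ℓ (P z0) = ℓ (P z0) := by
    intro k
    rw [← hk2, hu, map_add, hℓT, add_zero]
  have hℓu : ℓ (P z0) = 0 := by
    by_contra h
    have h1 : ∀ k, χ k = 1 := fun k => mul_right_cancel₀ h (by rw [hu2, one_mul])
    exact h (hom_z0 θ (fun g h => by rw [hθ, h1, one_mul]))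
  have hθ1 : θ 1 = 0 := by
    show ℓ (P 1) = 0
    rw [H.one, map_zero]
  let K0 : Subgroup (GG α β) :=
    { carrier := {g | χ g = 1 ∧ θ g = 0}
      one_mem' := ⟨hχ1, hθ1⟩
      mul_mem' := by
        rintro a b ⟨h1, h2⟩ ⟨h3, h4⟩
        exact ⟨by rw [hχm, h1, h3, one_mul], by rw [hθ, h2, h4]; simp⟩
      inv_mem' := by
        rintro a ⟨h1, h2⟩
        have h3 : χ a⁻¹ = 1 := by
          have := hχm a⁻¹ a
          rw [inv_mul_cancel, hχ1, h1, mul_one] at this
          exact this.symm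
        refine ⟨h3, ?_⟩
        have := hθ a⁻¹ a
        rw [inv_mul_cancel, hθ1, h2, mul_zero, add_zero] at this
        exact this.symm }
  have hz0K : (z0 : GG α β) ∈ K0 := ⟨hχz, hℓu⟩
  have hcen : ∀ (μ : ℤ_[2]) (h : inM α β μ), χ (cc μ h) = 1 ∧ θ (cc μ h) = 0 := by
    intro μ h
    constructor
    · have h1 := cen_lin (fun k => χ k - 1) 0 (fun m k => by
        have h2 := (K0.zpow_mem hz0K m).1
        show χ (z0 ^ m * k) - 1 = m * 0 + (χ k - 1)
        rw [hχm, h2]; ring) (fun ε hε => by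
        obtain ⟨N, hN⟩ := H.contR ℓ w ε hε
        refine ⟨N, fun k hk => ?_⟩
        have h3 := hN k hk
        rw [map_sub, hℓw] at h3
        exact h3) μ h
      rw [mul_zero] at h1
      linear_combination h1
    · have h1 := cen_lin θ 0 (fun m k => by
        have h2 := K0.zpow_mem hz0K m
        rw [hθ, h2.1, h2.2]; ring) (fun ε hε => H.contP ℓ ε hε) μ h
      rw [mul_zero] at h1
      exact h1
  have hℓne : ℓ ≠ 0 := by
    intro h
    rw [h, LinearMap.zero_apply] at hℓw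
    exact zero_ne_one hℓw
  obtain ⟨k1, hk1θ⟩ := H.exists_ne hℓne
  have hχt : ∀ g, χ g = 1 := char_trivial χ θ hχ1 hχm hθ (fun g h => hcen _ _)
    (fun g h => by
      obtain ⟨k, hk⟩ := H.add g h
      exact ⟨k, by show ℓ (P k) = _; rw [hk, map_add]⟩)
    (fun g => by
      obtain ⟨k, hk⟩ := H.neg g
      exact ⟨k, by show ℓ (P k) = _; rw [hk, map_neg]⟩) k1 hk1θ
  have hRv : ∀ k, R k v = v := fun k => by rw [hk1, hχt, one_smul]
  have hRℓ : ∀ k x, ℓ (R k x) = ℓ x := fun k x => by rw [hk2, hχt, one_mul]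
  -- the vector u1
  set u1 := (T ^ m) (P z0) with hu1
  have hRu1 : ∀ k, R k u1 = u1 + θ k • v := by
    intro k
    have h1 : R k u1 = (T ^ m) (R k (P z0)) := by
      rw [hu1, ← Module.End.mul_apply, ((hcT k).pow_right m).eq, Module.End.mul_apply]
    rw [h1, hu, map_add, ← Module.End.mul_apply (T ^ m) T, ← pow_succ, ← hN, hNℓ]
  have hℓu1 : ℓ u1 = 0 := by
    rcases Nat.eq_zero_or_pos m with h | h
    · rw [hu1, h, pow_zero, Module.End.one_apply]; exact hℓu
    · obtain ⟨m', rfl⟩ := Nat.exists_eq_add_of_lt h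
      rw [hu1]
      have : 0 + m' + 1 = m' + 1 := by ring
      rw [this, pow_succ', Module.End.mul_apply]
      exact hℓT _
  have hind : ∀ a b : ℚ_[2], a • u1 + b • v = 0 → a = 0 ∧ b = 0 := by
    intro a b hab
    have h1 := congrArg (R k1) hab
    rw [map_add, map_smul, map_smul, hRu1, hRv, map_zero, smul_add, add_right_comm, hab, zero_add,
      smul_smul] at h1
    have h2 : a = 0 := by
      rcases smul_eq_zero.mp h1 with h | h
      · exact (mul_eq_zero.mp h).resolve_right hk1θ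
      · exact absurd h hv
    rw [h2, zero_smul, zero_add] at hab
    exact ⟨h2, (smul_eq_zero.mp hab).resolve_right hv⟩
  obtain ⟨c1, c2, hdec, h1w, h1u, h1v, h2w, h2u, h2v⟩ := coords hd hℓw hℓu1 hℓv hind
  have hTu1 : T u1 = 0 := by
    rw [hu1, ← Module.End.mul_apply, ← pow_succ', ← hN, hNℓ, hℓu, zero_smul]
  have hTv : T v = 0 := by
    have h1 : v = N w := by rw [hNℓ, hℓw, one_smul]
    rw [h1, hN, ← Module.End.mul_apply, ← pow_succ', hTm, LinearMap.zero_apply]
  have hTTw : T (T w) = 0 := by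
    rw [hdec (T w), hℓT, map_add, map_add, map_smul, map_smul, map_smul, hTu1, hTv]
    simp
  have hm0 : m = 0 := by
    by_contra h
    obtain ⟨m', rfl⟩ := Nat.exists_eq_succ_of_ne_zero h
    have h1 : N w = 0 := by
      have e : N = T ^ m' * (T * T) := by
        rw [hN, ← pow_two, ← pow_add]
      rw [e, Module.End.mul_apply, Module.End.mul_apply, hTTw, map_zero]
    rw [hNℓ, hℓw, one_smul] at h1
    exact hv h1
  subst hm0
  have hu10 : u1 = P z0 := by rw [hu1, pow_zero, Module.End.one_apply]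
  rw [hu10] at h1u h2u hRu1 hdec
  exact H.contra (ℓ := ℓ) (c1 := c1) (c2 := c2) (w := w) (v := v)
    (fun x => by
      rw [hRz, ← hNℓ, hN, zero_add, pow_one])
    hdec hℓw hℓu hℓv h1w h1u h1v h2w h2u h2v hRℓ hRu1 hRv

end

end Pool.Agent.Q274.LB
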