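import Pool.Agent.Q274.LB.Lin3

/-!
Consequences of the trivial action of the centre.
-/

namespace Pool.Agent.Q274.LB

open Polynomial Module

noncomputable section

variable {α β : ℚ_[2]} {W : Type*} [AddCommGroup W] [Module ℚ_[2] W]
  {R : GG α β →* Module.End ℚ_[2] W} {P : GG α β → W}

theorem dual_sep {v w : W} (h : ∀ f : W →ₗ[ℚ_[2]] ℚ_[2], f v = f w) : v = w := by
  rw [← sub_eq_zero]
  apply (Module.forall_dual_apply_eq_zero_iff ℚ_[2] (v - w)).mp
  intro f
  rw [map_sub, h f, sub_self]

theorem LD.cen_triv (H : LD α β R P) (hz : R z0 = 1) (μ : ℤ_[2]) (h : inM α β μ) :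
    R (cc μ h) = 1 := by
  apply LinearMap.ext
  intro x
  rw [Module.End.one_apply, ← sub_eq_zero]
  apply dual_sep
  intro f
  have hzm : ∀ m : ℤ, R (z0 ^ m) = 1 := by
    intro m
    have h1 : (z0 : GG α β) ∈ R.ker := hz
    exact R.ker.zpow_mem h1 m
  have h1 := cen_lin (fun k => f (R k x - x)) 0 (fun m k => by
    show f (R (z0 ^ m * k) x - x) = m * 0 + f (R k x - x)
    rw [map_mul, hzm, one_mul, mul_zero, zero_add]) (fun ε hε => H.contR f x ε hε) μ h
  rw [mul_zero] at h1
  rw [map_zero]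
  exact h1

theorem LD.P_z (H : LD α β R P) (hz : R z0 = 1) (k : GG α β) : P (z0 * k) = P z0 + P k := by
  rw [H.coc, hz, Module.End.one_apply]

theorem LD.P_cc (H : LD α β R P) (hz : R z0 = 1) (μ : ℤ_[2]) (h : inM α β μ) :
    P (cc μ h) = (μ : ℚ_[2]) • P z0 := by
  apply dual_sep
  intro f
  rw [map_smul, smul_eq_mul]
  apply cen_lin (fun k => f (P k)) (f (P z0)) _ (fun ε hε => H.contP f ε hε) μ h
  intro m k
  show f (P (z0 ^ m * k)) = m * f (P z0) + f (P k)
  induction m using Int.induction_on generalizing k with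
  | zero => simp
  | succ n ih =>
    have e : z0 ^ ((n : ℤ) + 1) * k = z0 ^ (n : ℤ) * (z0 * k) := by
      rw [zpow_add_one, mul_assoc]
    rw [e, ih, H.P_z hz, map_add]
    push_cast
    ring
  | pred n ih =>
    have e : z0 ^ (-(n : ℤ) - 1) * k = z0 ^ (-(n : ℤ)) * (z0⁻¹ * k) := by
      rw [zpow_sub_one, mul_assoc]
    have e2 := H.P_z hz (z0⁻¹ * k)
    rw [mul_inv_cancel_left] at e2
    rw [e, ih, e2, map_add]
    push_cast
    ring

theorem LD.R_u (H : LD α β R P) (hz : R z0 = 1) (k : GG α β) : R k (P z0) = P z0 := by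
  have := rel R P H.coc z0 (fun h => by rw [z0_comm]) k
  rw [hz, sub_self, LinearMap.zero_apply, add_zero] at this
  exact this

theorem LD.u_ne (H : LD α β R P) : P z0 ≠ 0 := by
  intro h
  have h1 : (z0 : GG α β) = 1 := H.inj (by rw [h, H.one])
  have h2 : (2 : ℤ_[2]) * 1 = 0 := congrArg (fun g : GG α β => (g : E3).n) h1
  rw [mul_one] at h2
  exact two_ne h2

/-- elements whose image lies on the line of the centre are central -/
theorem LD.line (H : LD α β R P) (hz : R z0 = 1) (g : GG α β) (s : ℚ_[2])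
    (hg : P g = s • P z0) : (g : E3).x = 0 ∧ (g : E3).y = 0 := by
  have key : ∀ (n : ℕ) (g : GG α β) (s : ℚ_[2]), P g = s • P z0 →
      (2 : ℤ_[2]) ^ n ∣ (g : E3).x ∧ (2 : ℤ_[2]) ^ n ∣ (g : E3).y := by
    intro n
    induction n with
    | zero => intro g s _; simp
    | succ n ih =>
      intro g s hg
      have h1u : P z0 = (1 : ℚ_[2]) • P z0 := by rw [one_smul]
      have hsq : ∀ (k : GG α β) (t : ℚ_[2]), P k + P k = t • P z0 →
          P k = (t / 2) • P z0 ∧ P (k * k) = P k + P k := by
        intro k t hk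
        have h1 : P k = (t / 2) • P z0 := by
          have h2 : (2 : ℚ_[2]) • P k = t • P z0 := by rw [two_smul]; exact hk
          have h3 : P k = (1 / 2 : ℚ_[2]) • ((2 : ℚ_[2]) • P k) := by
            rw [smul_smul]; norm_num
          rw [h3, h2, smul_smul]
          congr 1
          ring
        refine ⟨h1, ?_⟩
        rw [H.coc]
        congr 1
        nth_rewrite 1 [h1]
        rw [map_smul, H.R_u hz, ← h1]
      rcases H.dich (P z0) s 1 g z0 hg h1u with ⟨k, hk⟩ | ⟨k, hk⟩ | ⟨k, hk⟩
      · obtain ⟨h1, h2⟩ := hsq k s (by rw [← hk, hg])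
        have h3 : g = k * k := H.inj (by rw [h2, hk])
        obtain ⟨h4, h5⟩ := ih k _ h1
        rw [h3]
        constructor
        · show (2 : ℤ_[2]) ^ (n + 1) ∣ (k : E3).x + (k : E3).x
          rw [← two_mul, pow_succ']
          exact mul_dvd_mul_left _ h4
        · show (2 : ℤ_[2]) ^ (n + 1) ∣ (k : E3).y + (k : E3).y
          rw [← two_mul, pow_succ']
          exact mul_dvd_mul_left _ h5
      · exfalso
        obtain ⟨h1, h2⟩ := hsq k 1 (by rw [← hk, one_smul])
        have h3 : z0 = k * k := H.inj (by rw [h2, hk])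
        have hx : (0 : ℤ_[2]) = (k : E3).x + (k : E3).x :=
          congrArg (fun g : GG α β => (g : E3).x) h3
        have hn : (2 : ℤ_[2]) * 1 = (k : E3).n + (k : E3).n +
            ((k : E3).x * (k : E3).y - (k : E3).x * (k : E3).y) :=
          congrArg (fun g : GG α β => (g : E3).n) h3
        have hx0 : (k : E3).x = 0 := by
          have : (2 : ℤ_[2]) * (k : E3).x = 0 := by rw [two_mul]; exact hx.symm
          exact (mul_eq_zero.mp this).resolve_left two_ne
        have hn1 : (k : E3).n = 1 := by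
          have : (2 : ℤ_[2]) * (k : E3).n = 2 * 1 := by rw [hn]; ring
          exact mul_left_cancel₀ two_ne this
        obtain ⟨m, hm⟩ := k.2.2.2
        rw [hn1, hx0, zero_mul, zero_add] at hm
        exact not_two_dvd_one ⟨m, hm⟩
      · obtain ⟨h1, h2⟩ := hsq k (s - 1) (by rw [← hk, hg, sub_smul, one_smul])
        have h3 : g = z0 * (k * k) := H.inj (by rw [H.P_z hz, h2, ← hk]; abel)
        obtain ⟨h4, h5⟩ := ih k _ h1
        rw [h3]
        constructor
        · show (2 : ℤ_[2]) ^ (n + 1) ∣ 0 + ((k : E3).x + (k : E3).x)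
          rw [← two_mul, pow_succ', zero_add]
          exact mul_dvd_mul_left _ h4
        · show (2 : ℤ_[2]) ^ (n + 1) ∣ 0 + ((k : E3).y + (k : E3).y)
          rw [← two_mul, pow_succ', zero_add]
          exact mul_dvd_mul_left _ h5
  exact ⟨zero_of_dvd fun n => (key n g s hg).1, zero_of_dvd fun n => (key n g s hg).2⟩

end

end Pool.Agent.Q274.LB
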