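import Pool.Agent.Q274.LB.Lin4

/-!
The action is trivial modulo the line of the centre.
-/

namespace Pool.Agent.Q274.LB

open Polynomial Module

noncomputable section

variable {α β : ℚ_[2]}

/-- the six monomials of degree at most two are independent over ℚ -/
def Ind6 (α β : ℚ_[2]) : Prop := ∀ a b c d e f : ℚ,
  (a : ℚ_[2]) + b * α + c * β + d * (α * α) + e * (α * β) + f * (β * β) = 0 →
    a = 0 ∧ b = 0 ∧ c = 0 ∧ d = 0 ∧ e = 0 ∧ f = 0

theorem inJ_prop (hi : Ind6 α β) {x y x' y' : ℚ_[2]} (h : inJ α β x y) (h' : inJ α β x' y')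
    (hxy : x * y' = x' * y) :
    ∃ p q : ℤ, (p ≠ 0 ∨ q ≠ 0) ∧ (p : ℚ_[2]) * x = q * x' ∧ (p : ℚ_[2]) * y = q * y' := by
  obtain ⟨a, b, c, h1, h2⟩ := h
  obtain ⟨a', b', c', h1', h2'⟩ := h'
  have h3 := hi (a * b' - a' * b) (c * b' - c' * b) (a * c' - a' * c) 0 0 0 (by
    rw [h1, h2, h1', h2'] at hxy
    push_cast
    linear_combination hxy)
  obtain ⟨e1, e2, e3, -, -, -⟩ := h3
  -- rational multipliers
  have hq : ∃ p q : ℚ, (p ≠ 0 ∨ q ≠ 0) ∧ p * a = q * a' ∧ p * b = q * b' ∧ p * c = q * c' := by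
    by_cases ha : a' = 0
    · by_cases hb : b' = 0
      · by_cases hc : c' = 0
        · exact ⟨0, 1, Or.inr one_ne_zero, by rw [ha]; ring, by rw [hb]; ring, by rw [hc]; ring⟩
        · exact ⟨c', c, Or.inl hc, by linear_combination e3, by linear_combination -e2, by ring⟩
      · exact ⟨b', b, Or.inl hb, by linear_combination e1, by ring, by linear_combination e2⟩
    · exact ⟨a', a, Or.inl ha, by ring, by linear_combination -e1, by linear_combination -e3⟩
  obtain ⟨p, q, hpq, f1, f2, f3⟩ := hq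
  have hp := Rat.mul_den_eq_num p
  have hqq := Rat.mul_den_eq_num q
  have hpd : (p.den : ℚ) ≠ 0 := by exact_mod_cast p.den_ne_zero
  have hqd : (q.den : ℚ) ≠ 0 := by exact_mod_cast q.den_ne_zero
  have g1 : ((p.num * q.den : ℤ) : ℚ) = p * (p.den * q.den) := by
    push_cast; rw [← hp]; ring
  have g2 : ((q.num * p.den : ℤ) : ℚ) = q * (p.den * q.den) := by
    push_cast; rw [← hqq]; ring
  have g1' : ((p.num * q.den : ℤ) : ℚ_[2]) = (p : ℚ_[2]) * (p.den * q.den) := by
    have := congrArg (fun t : ℚ => (t : ℚ_[2])) g1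
    push_cast at this ⊢
    exact this
  have g2' : ((q.num * p.den : ℤ) : ℚ_[2]) = (q : ℚ_[2]) * (p.den * q.den) := by
    have := congrArg (fun t : ℚ => (t : ℚ_[2])) g2
    push_cast at this ⊢
    exact this
  have f1' : (p : ℚ_[2]) * a = q * a' := by exact_mod_cast f1
  have f2' : (p : ℚ_[2]) * b = q * b' := by exact_mod_cast f2
  have f3' : (p : ℚ_[2]) * c = q * c' := by exact_mod_cast f3
  refine ⟨p.num * q.den, q.num * p.den, ?_, ?_, ?_⟩
  · rcases hpq with h | h
    · left
      intro h0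
      rw [h0, Int.cast_zero] at g1
      rcases mul_eq_zero.mp g1.symm with h4 | h4
      · exact h h4
      · exact mul_ne_zero hpd hqd h4
    · right
      intro h0
      rw [h0, Int.cast_zero] at g2
      rcases mul_eq_zero.mp g2.symm with h4 | h4
      · exact h h4
      · exact mul_ne_zero hpd hqd h4
  · rw [g1', g2', h1, h1']
    linear_combination (p.den * q.den : ℚ_[2]) * f1' + (p.den * q.den : ℚ_[2]) * α * f3'
  · rw [g1', g2', h2, h2']
    linear_combination (p.den * q.den : ℚ_[2]) * f2' + (p.den * q.den : ℚ_[2]) * β * f3'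

variable {V : Type*} [AddCommGroup V] [Module ℚ_[2] V]

theorem coords2 [FiniteDimensional ℚ_[2] V] (hd : finrank ℚ_[2] V ≤ 2)
    {ℓ : V →ₗ[ℚ_[2]] ℚ_[2]} {w v : V} (hw : ℓ w = 1) (hv : ℓ v = 0) (hv0 : v ≠ 0) :
    ∃ c : V →ₗ[ℚ_[2]] ℚ_[2], (∀ x, x = ℓ x • w + c x • v) ∧ c w = 0 ∧ c v = 1 := by
  have hli : LinearIndependent ℚ_[2] ![w, v] := by
    rw [Fintype.linearIndependent_iff]
    intro g hg
    rw [Fin.sum_univ_two] at hg
    have e0 : (![w, v] : Fin 2 → V) 0 = w := rfl
    have e1 : (![w, v] : Fin 2 → V) 1 = v := rfl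
    rw [e0, e1] at hg
    have h0 : g 0 = 0 := by
      have := congrArg ℓ hg
      rw [map_add, map_smul, map_smul, hw, hv, map_zero] at this
      simpa using this
    rw [h0, zero_smul, zero_add] at hg
    have h1 := (smul_eq_zero.mp hg).resolve_right hv0
    intro i
    fin_cases i
    · exact h0
    · exact h1
  have h3 := hli.fintype_card_le_finrank
  rw [Fintype.card_fin] at h3
  have h4 : finrank ℚ_[2] V = 2 := le_antisymm hd h3
  let bs := basisOfLinearIndependentOfCardEqFinrank hli (by rw [Fintype.card_fin, h4])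
  have b0 : bs 0 = w := by simp [bs]
  have b1 : bs 1 = v := by simp [bs]
  have hc : ∀ i j : Fin 2, bs.coord i (bs j) = if j = i then 1 else 0 := by
    intro i j
    rw [Basis.coord_apply, Basis.repr_self, Finsupp.single_apply]
  have h0 : bs.coord 0 = ℓ := by
    apply bs.ext
    intro i
    rw [hc]
    fin_cases i
    · show _ = ℓ (bs 0)
      rw [b0, hw]; rfl
    · show _ = ℓ (bs 1)
      rw [b1, hv]; rfl
  refine ⟨bs.coord 1, ?_, ?_, ?_⟩
  · intro x
    have := bs.sum_repr x
    rw [Fin.sum_univ_two, b0, b1] at this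
    rw [← h0]
    exact this.symm
  · rw [← b0, hc]; rfl
  · rw [← b1, hc]; rfl

theorem sq_zero [FiniteDimensional ℚ_[2] V] (hd : finrank ℚ_[2] V ≤ 2) (N : Module.End ℚ_[2] V)
    (h : ∃ n, N ^ n = 0) : N * N = 0 := by
  obtain ⟨n, hn⟩ := h
  have h1 : N ^ (n + finrank ℚ_[2] V) = 0 := by rw [pow_add, hn, zero_mul]
  have h2 := Module.End.ker_pow_eq_ker_pow_finrank_of_le (f := N)
    (Nat.le_add_left (finrank ℚ_[2] V) n)
  have h3 := Module.End.ker_pow_eq_ker_pow_finrank_of_le (f := N) hd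
  apply LinearMap.ext
  intro x
  have h4 : x ∈ LinearMap.ker (N ^ 2) := by
    rw [h3, ← h2, h1]; simp
  rw [← pow_two]
  exact h4

/-- the action on the quotient by the line of the centre is trivial -/
theorem quot_triv [FiniteDimensional ℚ_[2] V] (hd : finrank ℚ_[2] V ≤ 2) (hi : Ind6 α β)
    (vv : GG α β) (hvx : ((vv : E3).x : ℚ_[2]) = α) (hvy : ((vv : E3).y : ℚ_[2]) = β)
    (R : GG α β →* Module.End ℚ_[2] V) (P : GG α β → V)
    (coc : ∀ g h, P (g * h) = P g + R g (P h)) (add : ∀ g h, ∃ k, P k = P g + P h)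
    (neg : ∀ g, ∃ k, P k = - P g) (spn : Submodule.span ℚ_[2] (Set.range P) = ⊤)
    (hz : ∀ g h, P (g * h) = P (h * g)) (hc : ∀ g h, Commute (R g) (R h))
    (contP : ∀ (f : V →ₗ[ℚ_[2]] ℚ_[2]) (ε : ℝ), 0 < ε → ∃ N, ∀ k, small N k → ‖f (P k)‖ ≤ ε)
    (hcen : ∀ g : GG α β, (g : E3).x = 0 → (g : E3).y = 0 → P g = 0) (k0 : GG α β) :
    R k0 = 1 := by
  classical
  have ext_on : ∀ {N : Module.End ℚ_[2] V}, (∀ g, N (P g) = 0) → N = 0 := by
    intro N h
    apply LinearMap.ext_on spn
    rintro _ ⟨g, rfl⟩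
    rw [h, LinearMap.zero_apply]
  have hnil : ∀ g, (R g - 1) * (R g - 1) = 0 := by
    intro g
    apply sq_zero hd
    obtain ⟨n, hn⟩ := lemA_int R P coc g (fun h => hc h g) (fun h => hz g h)
      (FR_GG α β) htf_mod (surj_aeval R P coc add neg g)
    exact ⟨n + 1, ext_on fun h => unip_of R P coc g (fun h => hc h g) (fun h => hz g h) n hn h⟩
  by_contra hne
  set N := R k0 - 1 with hN
  have hNne : N ≠ 0 := fun h => hne (sub_eq_zero.mp h)
  obtain ⟨ℓ, v, w, hv, hNℓ, hℓv, hℓw⟩ := rank_one (hd.trans (by norm_num)) N hNne (hnil k0)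
  have hcN : ∀ k, Commute (R k) N := fun k => (hc k k0).sub_right (Commute.one_right _)
  have hχ : ∀ k, ℓ (R k w) = 1 := by
    intro k
    have h1 := (comm_rank_one hv hNℓ hℓw (R k) (hcN k)).1
    have h2 : ((R k - 1) * (R k - 1)) v = 0 := by rw [hnil, LinearMap.zero_apply]
    rw [Module.End.mul_apply] at h2
    have h3 : (R k - 1) v = (ℓ (R k w) - 1) • v := by
      rw [LinearMap.sub_apply, Module.End.one_apply, h1, sub_smul, one_smul]
    rw [h3, map_smul, h3, smul_smul] at h2
    have h4 := (smul_eq_zero.mp h2).resolve_right hv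
    have h5 := mul_self_eq_zero.mp h4
    linear_combination h5
  have hRv : ∀ k, R k v = v := fun k => by
    rw [(comm_rank_one hv hNℓ hℓw (R k) (hcN k)).1, hχ, one_smul]
  have hRℓ : ∀ k x, ℓ (R k x) = ℓ x := fun k x => by
    rw [(comm_rank_one hv hNℓ hℓw (R k) (hcN k)).2, hχ, one_mul]
  obtain ⟨c, hdec, hcw, hcv⟩ := coords2 hd hℓw hℓv hv
  set ψ : GG α β → ℚ_[2] := fun k => c (R k w) with hψ
  set θ : GG α β → ℚ_[2] := fun k => ℓ (P k) with hθd
  have hRw : ∀ k, R k w = w + ψ k • v := by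
    intro k
    have := hdec (R k w)
    rwa [hχ, one_smul] at this
  have hRx : ∀ k x, R k x = x + (ψ k * ℓ x) • v := by
    intro k x
    conv_lhs => rw [hdec x]
    rw [map_add, map_smul, map_smul, hRw, hRv, smul_add, smul_smul]
    nth_rewrite 4 [hdec x]
    rw [mul_comm (ℓ x)]
    abel
  have hθ : ∀ g h, θ (g * h) = θ g + θ h := by
    intro g h
    show ℓ (P (g * h)) = _
    rw [coc, map_add, hRℓ]
  have hψθ : ∀ g h, ψ g * θ h = ψ h * θ g := by
    intro g h
    have h1 := congrArg c (hz g h)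
    rw [coc, coc, hRx, hRx] at h1
    simp only [map_add, map_smul, hcv, smul_eq_mul] at h1
    show ψ g * ℓ (P h) = ψ h * ℓ (P g)
    linear_combination h1
  have hψk0 : ψ k0 = 1 := by
    have h1 := hNℓ w
    rw [hN, LinearMap.sub_apply, Module.End.one_apply, hRw, hℓw, one_smul, add_sub_cancel_left] at h1
    have h2 := congrArg c h1
    rw [map_smul, hcv, smul_eq_mul, mul_one] at h2
    exact h2
  have hℓne : ℓ ≠ 0 := by
    intro h
    rw [h, LinearMap.zero_apply] at hℓw
    exact zero_ne_one hℓw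
  obtain ⟨k1, hk1⟩ : ∃ g, θ g ≠ 0 := by
    by_contra hcon
    push Not at hcon
    apply hℓne
    apply LinearMap.ext_on spn
    rintro _ ⟨g, rfl⟩
    rw [LinearMap.zero_apply]
    exact hcon g
  set s0 := ψ k1 / θ k1 with hs0
  have hψs : ∀ g, ψ g = s0 * θ g := by
    intro g
    have := hψθ g k1
    rw [hs0]
    field_simp
    linear_combination this
  have hs0ne : s0 ≠ 0 := by
    intro h
    have := hψs k0
    rw [hψk0, h, zero_mul] at this
    exact one_ne_zero this
  have hlin := hom_lin θ hθ (contP ℓ)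
  -- elements on the line of v
  have hex : ∀ g h, ∃ e, P e = (s0 * θ g * θ h) • v := by
    intro g h
    obtain ⟨k, hk⟩ := add g h
    refine ⟨k⁻¹ * (g * h), ?_⟩
    have h1 : P (g * h) = P k + R k (P (k⁻¹ * (g * h))) := by
      rw [← coc, mul_inv_cancel_left]
    have h2 : R k (P (k⁻¹ * (g * h))) = (s0 * θ g * θ h) • v := by
      rw [coc, hk, hRx, hψs] at h1
      have h3 : P g + P h + R k (P (k⁻¹ * (g * h))) = P g + P h + (s0 * θ g * θ h) • v := by
        rw [← h1, add_assoc]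
      exact add_left_cancel h3
    have h3 : P (k⁻¹ * (g * h)) = R k⁻¹ (R k (P (k⁻¹ * (g * h)))) := by
      rw [← Module.End.mul_apply, ← map_mul, inv_mul_cancel, map_one, Module.End.one_apply]
    rw [h3, h2, map_smul, hRv]
  have hne0 : θ g0 ≠ 0 ∨ θ h0 ≠ 0 := by
    by_contra hcon
    push Not at hcon
    apply hk1
    rw [hlin, hcon.1, hcon.2, mul_zero, mul_zero, add_zero]
  have hrat : ∀ (e e' : GG α β) (s t : ℚ_[2]), P e = s • v → P e' = t • v →
      ∃ p q : ℤ, (p ≠ 0 ∨ q ≠ 0) ∧ (p : ℚ_[2]) * s = q * t := by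
    intro e e' s t he he'
    have h1 : θ e = 0 := by
      show ℓ (P e) = 0
      rw [he, map_smul, hℓv, smul_zero]
    have h2 : θ e' = 0 := by
      show ℓ (P e') = 0
      rw [he', map_smul, hℓv, smul_zero]
    rw [hlin] at h1 h2
    have h3 : ((e : E3).x : ℚ_[2]) * ((e' : E3).y : ℚ_[2]) =
        ((e' : E3).x : ℚ_[2]) * ((e : E3).y : ℚ_[2]) := by
      rcases hne0 with h | h
      · apply mul_right_cancel₀ h
        linear_combination ((e' : E3).y : ℚ_[2]) * h1 - ((e : E3).y : ℚ_[2]) * h2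
      · apply mul_right_cancel₀ h
        linear_combination ((e : E3).x : ℚ_[2]) * h2 - ((e' : E3).x : ℚ_[2]) * h1
    obtain ⟨p, q, hpq, h4, h5⟩ := inJ_prop hi e.2.1 e'.2.1 h3
    refine ⟨p, q, hpq, ?_⟩
    have hfix : ∀ (g : GG α β) (s : ℚ_[2]), P g = s • v → ∀ m : ℤ, P (g ^ m) = ((m : ℚ_[2]) * s) • v := by
      intro g s hg m
      have hone : P 1 = 0 := hcen 1 rfl rfl
      have hinv : P g⁻¹ = (-s) • v := by
        have h6 := coc g⁻¹ g
        rw [inv_mul_cancel, hone, hg, map_smul, hRv] at h6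
        rw [neg_smul]
        exact eq_neg_of_add_eq_zero_left h6.symm
      induction m using Int.induction_on with
      | zero => rw [zpow_zero, hone]; simp
      | succ n ih =>
        rw [zpow_add_one, coc, ih, hg, map_smul, hRv, ← add_smul]
        congr 1
        push_cast; ring
      | pred n ih =>
        rw [zpow_sub_one, coc, ih, hinv, map_smul, hRv, ← add_smul]
        congr 1
        push_cast; ring
    have h6 : P (e ^ p * e' ^ (-q)) = ((p : ℚ_[2]) * s - q * t) • v := by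
      rw [coc, hfix e s he, hfix e' t he', map_smul, hRv, ← add_smul]
      congr 1
      push_cast; ring
    have h7 : P (e ^ p * e' ^ (-q)) = 0 := by
      apply hcen
      · show ((e ^ p : GG α β) : E3).x + ((e' ^ (-q) : GG α β) : E3).x = 0
        rw [pow_coe, pow_coe]
        apply PadicInt.ext
        push_cast
        linear_combination h4
      · show ((e ^ p : GG α β) : E3).y + ((e' ^ (-q) : GG α β) : E3).y = 0
        rw [pow_coe, pow_coe]
        apply PadicInt.ext
        push_cast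
        linear_combination h5
    rw [h7] at h6
    have h8 := (smul_eq_zero.mp h6.symm).resolve_right hv
    linear_combination h8
  -- all values of θ are rationally proportional
  have hprop : ∀ h, ∃ r : ℚ, θ h = r * θ k1 := by
    intro h
    obtain ⟨e, he⟩ := hex k1 h
    obtain ⟨e', he'⟩ := hex k1 k1
    obtain ⟨p, q, hpq, h1⟩ := hrat e e' _ _ he he'
    have hp : p ≠ 0 := by
      intro hp0
      have hq0 : q ≠ 0 := hpq.resolve_left (fun h => h hp0)
      rw [hp0, Int.cast_zero, zero_mul] at h1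
      have h2 : (q : ℚ_[2]) ≠ 0 := by exact_mod_cast hq0
      exact mul_ne_zero h2 (mul_ne_zero (mul_ne_zero hs0ne hk1) hk1) h1.symm
    have hp' : (p : ℚ_[2]) ≠ 0 := by exact_mod_cast hp
    refine ⟨(q : ℚ) / p, ?_⟩
    push_cast
    have h2 : (s0 * θ k1) * ((p : ℚ_[2]) * θ h) = (s0 * θ k1) * (q * θ k1) := by
      linear_combination h1
    have h3 := mul_left_cancel₀ (mul_ne_zero hs0ne hk1) h2
    field_simp
    linear_combination h3
  obtain ⟨r, hr⟩ := hprop g0
  obtain ⟨r', hr'⟩ := hprop h0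
  obtain ⟨r'', hr''⟩ := hprop vv
  have h1 := hlin vv
  rw [hvx, hvy, hr, hr', hr''] at h1
  have h2 : (r'' : ℚ_[2]) = α * r + β * r' := by
    apply mul_right_cancel₀ hk1
    linear_combination h1
  obtain ⟨-, h3, h4, -, -, -⟩ := hi (-r'') r r' 0 0 0 (by
    push_cast
    linear_combination -h2)
  rw [h3] at hr
  rw [h4] at hr'
  rcases hne0 with h | h
  · exact h (by rw [hr]; simp)
  · exact h (by rw [hr']; simp)

end

end Pool.Agent.Q274.LB
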