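import Pool.Agent.Q274.LB.Lin5

/-!
The final contradiction.
-/

namespace Pool.Agent.Q274.LB

open Polynomial Module

noncomputable section

variable {α β : ℚ_[2]} {W : Type*} [AddCommGroup W] [Module ℚ_[2] W] [FiniteDimensional ℚ_[2] W]
  {R : GG α β →* Module.End ℚ_[2] W} {P : GG α β → W}

theorem LD.cm_act (H : LD α β R P) (hz : R z0 = 1) (g h : GG α β) : R (cm g h) = 1 :=
  H.cen_triv hz _ _

theorem LD.R_comm (H : LD α β R P) (hz : R z0 = 1) (g h : GG α β) : Commute (R g) (R h) := by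
  show R g * R h = R h * R g
  rw [← map_mul, ← map_mul, cm_spec g h, map_mul, H.cm_act hz, one_mul]

theorem LD.mod_u (H : LD α β R P) (hd : finrank ℚ_[2] W ≤ 3) (hi : Ind6 α β)
    (vv : GG α β) (hvx : ((vv : E3).x : ℚ_[2]) = α) (hvy : ((vv : E3).y : ℚ_[2]) = β)
    (hz : R z0 = 1) (g : GG α β) (x : W) : ∃ t : ℚ_[2], R g x - x = t • P z0 := by
  set u := P z0 with hu
  set U := Submodule.span ℚ_[2] {u} with hU
  have huU : u ∈ U := Submodule.mem_span_singleton_self u
  have hle : ∀ g, U ≤ U.comap (R g) := by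
    intro g
    rw [hU, Submodule.span_le]
    rintro _ rfl
    show R g u ∈ U
    rw [hu, H.R_u hz]
    exact huU
  let R' : GG α β →* Module.End ℚ_[2] (W ⧸ U) :=
    { toFun := fun g => U.mapQ U (R g) (hle g)
      map_one' := by
        apply Submodule.linearMap_qext
        apply LinearMap.ext
        intro x
        show U.mkQ (R 1 x) = U.mkQ x
        rw [map_one, Module.End.one_apply]
      map_mul' := by
        intro a b
        apply Submodule.linearMap_qext
        apply LinearMap.ext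
        intro x
        show U.mkQ (R (a * b) x) = U.mkQ (R a (R b x))
        rw [map_mul, Module.End.mul_apply] }
  have hR' : ∀ g x, R' g (U.mkQ x) = U.mkQ (R g x) := fun g x => rfl
  have hku : U.mkQ u = 0 := by
    rw [Submodule.mkQ_apply]
    exact (Submodule.Quotient.mk_eq_zero U).mpr huU
  have hd2 : finrank ℚ_[2] (W ⧸ U) ≤ 2 := by
    have h1 := Submodule.finrank_quotient_add_finrank U
    have h2 : finrank ℚ_[2] U = 1 := finrank_span_singleton H.u_ne
    omega
  have hcen : ∀ g : GG α β, (g : E3).x = 0 → (g : E3).y = 0 → U.mkQ (P g) = 0 := by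
    intro g hx hy
    obtain ⟨μ, hμ, rfl⟩ := eq_cc g hx hy
    rw [H.P_cc hz, ← hu, map_smul, hku, smul_zero]
  have h1 : R' g = 1 := quot_triv (α := α) (β := β) hd2 hi vv hvx hvy R' (fun g => U.mkQ (P g))
    (fun g h => by
      show U.mkQ (P (g * h)) = U.mkQ (P g) + R' g (U.mkQ (P h))
      rw [hR', H.coc, map_add])
    (fun g h => by
      obtain ⟨k, hk⟩ := H.add g h
      exact ⟨k, by
        show U.mkQ (P k) = U.mkQ (P g) + U.mkQ (P h)
        rw [hk, map_add]⟩)
    (fun g => by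
      obtain ⟨k, hk⟩ := H.neg g
      exact ⟨k, by
        show U.mkQ (P k) = - U.mkQ (P g)
        rw [hk, map_neg]⟩)
    (by
      have e : Set.range (fun g => U.mkQ (P g)) = U.mkQ '' (Set.range P) := by
        rw [← Set.range_comp]; rfl
      rw [e, ← Submodule.map_span, H.spn, Submodule.map_top, Submodule.range_mkQ])
    (fun g h => by
      show U.mkQ (P (g * h)) = U.mkQ (P (h * g))
      rw [cm_spec g h, H.coc, H.cm_act hz, Module.End.one_apply, map_add, hcen _ rfl rfl, zero_add])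
    (fun g h => by
      show R' g * R' h = R' h * R' g
      have h2 := H.R_comm hz g h
      rw [← map_mul, ← map_mul]
      apply Submodule.linearMap_qext
      apply LinearMap.ext
      intro x
      show U.mkQ (R (g * h) x) = U.mkQ (R (h * g) x)
      rw [map_mul, map_mul, h2.eq])
    (fun f ε hε => H.contP (f.comp U.mkQ) ε hε) hcen g
  have h2 : U.mkQ (R g x - x) = 0 := by
    rw [map_sub, ← hR', h1, Module.End.one_apply, sub_self]
  rw [Submodule.mkQ_apply, Submodule.Quotient.mk_eq_zero, hU, Submodule.mem_span_singleton] at h2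
  obtain ⟨t, ht⟩ := h2
  exact ⟨t, ht.symm⟩

theorem LD.false (H : LD α β R P) (hd : finrank ℚ_[2] W ≤ 3) (hi : Ind6 α β)
    (vv : GG α β) (hvx : ((vv : E3).x : ℚ_[2]) = α) (hvy : ((vv : E3).y : ℚ_[2]) = β) :
    False := by
  have hz := H.z_triv hd
  have hmod := fun g x => H.mod_u hd hi vv hvx hvy hz g x
  set u := P z0 with hu
  have hune : u ≠ 0 := H.u_ne
  obtain ⟨f, hf⟩ : ∃ f : W →ₗ[ℚ_[2]] ℚ_[2], f u = 1 := by
    by_contra hcon
    push Not at hcon
    apply hune
    apply (Module.forall_dual_apply_eq_zero_iff ℚ_[2] u).mp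
    intro f
    by_contra hfu
    exact hcon ((f u)⁻¹ • f) (by
      rw [LinearMap.smul_apply, smul_eq_mul, inv_mul_cancel₀ hfu])
  have hE : ∀ g x, R g x = x + f (R g x - x) • u := by
    intro g x
    obtain ⟨t, ht⟩ := hmod g x
    rw [ht, map_smul, hf, smul_eq_mul, mul_one, ← ht]
    abel
  have hRu : ∀ g, R g u = u := fun g => H.R_u hz g
  set B : GG α β → GG α β → ℚ_[2] := fun g h => f (R g (P h) - P h) with hB
  have hP : ∀ g h, P (g * h) = P g + P h + B g h • u := by
    intro g h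
    rw [H.coc, hE g (P h), add_assoc]
  have hBl : ∀ g k h, B (g * k) h = B g h + B k h := by
    intro g k h
    show f (R (g * k) (P h) - P h) = f (R g (P h) - P h) + f (R k (P h) - P h)
    rw [map_mul, Module.End.mul_apply, hE k (P h), map_add, map_smul, hRu]
    nth_rewrite 1 [hE g (P h)]
    simp only [map_sub, map_add, map_smul, hf, smul_eq_mul]
    ring
  have hBr : ∀ g h k, B g (h * k) = B g h + B g k := by
    intro g h k
    show f (R g (P (h * k)) - P (h * k)) = f (R g (P h) - P h) + f (R g (P k) - P k)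
    rw [hP]
    simp only [map_sub, map_add, map_smul, hRu]
    ring
  -- values
  have hval : ∀ g h, ∃ μ : ℤ_[2], B g h = μ ∧ inM α β μ := by
    intro g h
    obtain ⟨k, hk⟩ := H.add g h
    have h1 : P (g * h) = P k + R k (P (k⁻¹ * (g * h))) := by
      rw [← H.coc, mul_inv_cancel_left]
    have h2 : R k (P (k⁻¹ * (g * h))) = B g h • u := by
      rw [hP, ← hk] at h1
      exact (add_left_cancel h1).symm
    have h3 : P (k⁻¹ * (g * h)) = R k⁻¹ (R k (P (k⁻¹ * (g * h)))) := by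
      rw [← Module.End.mul_apply, ← map_mul, inv_mul_cancel, map_one, Module.End.one_apply]
    rw [h2, map_smul, hRu] at h3
    obtain ⟨hx, hy⟩ := H.line hz _ _ h3
    obtain ⟨μ, hμ, he⟩ := eq_cc _ hx hy
    rw [he, H.P_cc hz, ← hu] at h3
    refine ⟨μ, ?_, hμ⟩
    exact (smul_left_injective ℚ_[2] hune h3).symm
  have hsw : B g0 h0 = 1 + B h0 g0 := by
    have h1 : (g0 : GG α β) * h0 = z0 * (h0 * g0) := by
      rw [← cm_g0_h0]; exact cm_spec _ _
    have h2 : f (P (g0 * h0)) = f (P (z0 * (h0 * g0))) := congrArg (fun k => f (P k)) h1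
    rw [hP, H.P_z hz, hP, ← hu] at h2
    simp only [map_add, map_smul, hf, smul_eq_mul] at h2
    linear_combination h2
  -- continuity
  have hlinl : ∀ h g, B g h = ((g : E3).x : ℚ_[2]) * B g0 h + ((g : E3).y : ℚ_[2]) * B h0 h := by
    intro h g
    exact hom_lin (fun g => B g h) (fun a b => hBl a b h) (fun ε hε => H.contR f (P h) ε hε) g
  have hlinr : ∀ g h, B g h = ((h : E3).x : ℚ_[2]) * B g g0 + ((h : E3).y : ℚ_[2]) * B g h0 := by
    intro g h
    exact hom_lin (fun h => B g h) (fun a b => hBr g a b) (fun ε hε => by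
      obtain ⟨N, hN⟩ := H.contP (f.comp (R g - 1)) ε hε
      refine ⟨N, fun k hk => ?_⟩
      have := hN k hk
      rw [LinearMap.comp_apply, LinearMap.sub_apply, Module.End.one_apply] at this
      exact this) h
  obtain ⟨p, hp, p0, p1, p2, hp'⟩ := hval g0 g0
  obtain ⟨q, hq, q0, q1, q2, hq'⟩ := hval g0 h0
  obtain ⟨r, hr, r0, r1, r2, hr'⟩ := hval h0 g0
  obtain ⟨s, hs, s0, s1, s2, hs'⟩ := hval h0 h0
  obtain ⟨m1, e1, a0, a1, a2, ha⟩ := hval g0 vv
  obtain ⟨m2, e2, b0, b1, b2, hb⟩ := hval h0 vv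
  obtain ⟨m3, e3, c0, c1, c2, hc⟩ := hval vv g0
  obtain ⟨m4, e4, d0, d1, d2, hdd⟩ := hval vv h0
  obtain ⟨m5, e5, t0, t1, t2, ht⟩ := hval vv vv
  have k1 := hlinr g0 vv
  have k2 := hlinr h0 vv
  have k3 := hlinl g0 vv
  have k4 := hlinl h0 vv
  have k5 := hlinl vv vv
  rw [k1, k2] at k5
  rw [hvx, hvy] at k1 k2 k3 k4 k5
  rw [e1, ha, hp, hp', hq, hq'] at k1
  rw [e2, hb, hr, hr', hs, hs'] at k2
  rw [e3, hc, hp, hp', hr, hr'] at k3
  rw [e4, hdd, hq, hq', hs, hs'] at k4
  rw [e5, ht, hp, hp', hr, hr', hq, hq', hs, hs'] at k5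
  obtain ⟨-, -, -, i1, i2, i3⟩ := hi (-a0) (p0 - a1) (q0 - a2) p1 (p2 + q1) q2 (by
    push_cast; linear_combination -k1)
  obtain ⟨-, -, -, j1, j2, j3⟩ := hi (-b0) (r0 - b1) (s0 - b2) r1 (r2 + s1) s2 (by
    push_cast; linear_combination -k2)
  obtain ⟨-, -, -, l1, l2, l3⟩ := hi (-c0) (p0 - c1) (r0 - c2) p1 (p2 + r1) r2 (by
    push_cast; linear_combination -k3)
  obtain ⟨-, -, -, n1, n2, n3⟩ := hi (-d0) (q0 - d1) (s0 - d2) q1 (q2 + s1) s2 (by
    push_cast; linear_combination -k4)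
  have hp2 : p2 = 0 := by linear_combination l2 - j1
  have hs1 : s1 = 0 := by linear_combination j2 - l3
  have z1 : (p1 : ℚ_[2]) = 0 := by exact_mod_cast i1
  have z2 : (p2 : ℚ_[2]) = 0 := by exact_mod_cast hp2
  have z3 : (q1 : ℚ_[2]) = 0 := by exact_mod_cast n1
  have z4 : (q2 : ℚ_[2]) = 0 := by exact_mod_cast i3
  have z5 : (r1 : ℚ_[2]) = 0 := by exact_mod_cast j1
  have z6 : (r2 : ℚ_[2]) = 0 := by exact_mod_cast l3
  have z7 : (s1 : ℚ_[2]) = 0 := by exact_mod_cast hs1
  have z8 : (s2 : ℚ_[2]) = 0 := by exact_mod_cast j3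
  rw [z1, z2, z3, z4, z5, z6, z7, z8] at k5
  obtain ⟨-, -, -, -, o2, -⟩ := hi (-t0) (-t1) (-t2) p0 (q0 + r0) s0 (by
    push_cast; linear_combination -k5)
  rw [hq, hq', hr, hr', z3, z4, z5, z6] at hsw
  have o3 : (q0 : ℚ_[2]) + r0 = 0 := by exact_mod_cast o2
  have o4 : (2 : ℚ_[2]) * q = 1 := by
    rw [hq', z3, z4]
    linear_combination hsw + o3
  have o5 : (2 : ℤ_[2]) * q = 1 := by
    apply PadicInt.ext
    rw [PadicInt.coe_mul, coe_two, o4]
    rfl
  exact not_two_dvd_one ⟨q, o5.symm⟩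

end

end Pool.Agent.Q274.LB
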